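import Pool.Agent.Lib.MP_fee052_al.Defs

open MeasureTheory Filter Topology
open scoped ENNReal NNReal

namespace Pool.Agent.OuterSpace.Boundary

variable {N : ℕ}

@[simp] theorem pre_zero (ξ : Boundary N) : ξ.pre 0 = 1 := rfl

theorem pre_succ (ξ : Boundary N) (n : ℕ) :
    ξ.pre (n + 1) = ξ.pre n * FreeGroup.mk [ξ.letter n] := by
  unfold pre
  rw [List.range_succ, List.map_append, FreeGroup.mul_mk]
  rfl

theorem isReduced_word (ξ : Boundary N) (n : ℕ) :
    FreeGroup.IsReduced ((List.range n).map ξ.letter) := by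
  unfold FreeGroup.IsReduced
  rw [List.isChain_map, List.isChain_range]
  intro m _
  exact ξ.reduced m

theorem norm_pre (ξ : Boundary N) (n : ℕ) : (ξ.pre n).norm = n := by
  unfold FreeGroup.norm pre
  rw [FreeGroup.toWord_mk, (ξ.isReduced_word n).reduce_eq]
  simp

theorem pre_injective (ξ : Boundary N) : Function.Injective ξ.pre := by
  intro m n h
  rw [← ξ.norm_pre m, ← ξ.norm_pre n, h]

theorem pre_cons (a : Fin N × Bool) (ξ : Boundary N)
    (h : a.1 = (ξ.letter 0).1 → a.2 = (ξ.letter 0).2) (n : ℕ) :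
    (cons a ξ h).pre (n + 1) = FreeGroup.mk [a] * ξ.pre n := by
  unfold pre
  rw [FreeGroup.mul_mk, List.range_succ_eq_map, List.map_cons, List.map_map]
  rfl

theorem pre_tail (ξ : Boundary N) (n : ℕ) :
    ξ.pre (n + 1) = FreeGroup.mk [ξ.letter 0] * ξ.tail.pre n := by
  unfold pre
  rw [FreeGroup.mul_mk, List.range_succ_eq_map, List.map_cons, List.map_map]
  rfl

theorem letterMul_pre (a : Fin N × Bool) (ξ : Boundary N) :
    ∃ k l : ℕ, ∀ n, (letterMul a ξ).pre (n + k) = FreeGroup.mk [a] * ξ.pre (n + l) := by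
  unfold letterMul
  split_ifs with h
  · exact ⟨1, 0, fun n => pre_cons a ξ h n⟩
  · refine ⟨0, 1, fun n => ?_⟩
    rw [pre_tail, ← mul_assoc, FreeGroup.mul_mk]
    have h2 : a.1 = (ξ.letter 0).1 ∧ (ξ.letter 0).2 = !a.2 := by
      push Not at h
      refine ⟨h.1, ?_⟩
      have := h.2
      revert this
      cases a.2 <;> cases (ξ.letter 0).2 <;> simp
    have h3 : FreeGroup.mk ([a] ++ [ξ.letter 0]) = (1 : FreeGroup (Fin N)) := by
      have : ξ.letter 0 = (a.1, !a.2) := Prod.ext h2.1.symm h2.2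
      rw [this]
      have h4 : ([a] ++ [(a.1, !a.2)] : List (Fin N × Bool)) = [(a.1, a.2)] ++ [(a.1, !a.2)] := rfl
      rw [h4]
      apply (FreeGroup.Red.exact).2
      exact ⟨[], by exact Relation.ReflTransGen.single FreeGroup.Red.Step.cons_not, Relation.ReflTransGen.refl⟩
    rw [h3, one_mul]
    rfl

theorem smul_of (i : Fin N) (ξ : Boundary N) : FreeGroup.of i • ξ = letterMul (i, true) ξ := by
  show (FreeGroup.lift genPerm (FreeGroup.of i)) ξ = _
  rw [FreeGroup.lift_apply_of]
  rfl

theorem smul_of_inv (i : Fin N) (ξ : Boundary N) :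
    (FreeGroup.of i)⁻¹ • ξ = letterMul (i, false) ξ := by
  show (FreeGroup.lift genPerm (FreeGroup.of i)⁻¹) ξ = _
  rw [map_inv, FreeGroup.lift_apply_of]
  rfl

theorem smul_mk_singleton (a : Fin N × Bool) (ξ : Boundary N) :
    FreeGroup.mk [a] • ξ = letterMul a ξ := by
  obtain ⟨i, b⟩ := a
  cases b with
  | true => exact smul_of i ξ
  | false =>
    have : FreeGroup.mk [(i, false)] = (FreeGroup.of i)⁻¹ := by
      rw [FreeGroup.of, FreeGroup.inv_mk]; rfl
    rw [this]
    exact smul_of_inv i ξ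

/-- The approximating sequences of `g • ξ` and of `ξ` agree up to a shift. -/
theorem smul_pre (g : FreeGroup (Fin N)) : ∀ ξ : Boundary N,
    ∃ k l : ℕ, ∀ n, (g • ξ).pre (n + k) = g * ξ.pre (n + l) := by
  induction g using FreeGroup.induction_on with
  | C1 => intro ξ; exact ⟨0, 0, fun n => by rw [one_smul, one_mul]⟩
  | of i =>
    intro ξ
    obtain ⟨k, l, h⟩ := letterMul_pre (i, true) ξ
    refine ⟨k, l, fun n => ?_⟩
    rw [smul_of, h]
    rfl
  | inv_of i _ =>
    intro ξ
    obtain ⟨k, l, h⟩ := letterMul_pre (i, false) ξ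
    refine ⟨k, l, fun n => ?_⟩
    rw [smul_of_inv, h]
    congr 1
  | mul g h ihg ihh =>
    intro ξ
    obtain ⟨k, l, h1⟩ := ihh ξ
    obtain ⟨k', l', h2⟩ := ihg (h • ξ)
    refine ⟨k + k', l' + l, fun n => ?_⟩
    rw [mul_smul, ← add_assoc, h2]
    have : n + k + l' = (n + l') + k := by ring
    rw [this, h1, mul_assoc, add_assoc]

theorem continuous_letter (n : ℕ) : Continuous fun ξ : Boundary N => ξ.letter n :=
  (continuous_apply n).comp continuous_induced_dom

theorem continuous_pre_comp {α : Type*} (f : FreeGroup (Fin N) → α) (n : ℕ) :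
    @Continuous _ _ _ ⊥ fun ξ : Boundary N => f (ξ.pre n) := by
  let _ : TopologicalSpace α := ⊥
  have h1 : Continuous fun ξ : Boundary N => fun i : Fin n => ξ.letter i :=
    continuous_pi fun i => continuous_letter i
  have h2 : (fun ξ : Boundary N => f (ξ.pre n)) =
      (fun w : Fin n → Fin N × Bool => f (FreeGroup.mk (List.ofFn w))) ∘
        (fun ξ : Boundary N => fun i : Fin n => ξ.letter i) := by
    funext ξ
    simp only [Function.comp]
    congr 1
    unfold pre
    congr 1
    apply List.ext_getElem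
    · simp
    · intro i h1 h2; simp
  rw [h2]
  exact Continuous.comp continuous_of_discreteTopology h1

theorem isClopen_pre (n : ℕ) (S : Set (FreeGroup (Fin N))) :
    IsClopen {ξ : Boundary N | ξ.pre n ∈ S} := by
  let _ : TopologicalSpace Prop := ⊥
  have : DiscreteTopology Prop := ⟨rfl⟩
  have h := continuous_pre_comp (N := N) (fun g => g ∈ S) n
  have h2 : {ξ : Boundary N | ξ.pre n ∈ S} = (fun ξ : Boundary N => ξ.pre n ∈ S) ⁻¹' {True} := by
    ext ξ; simp
  rw [h2]
  exact (isClopen_discrete _).preimage h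

end Pool.Agent.OuterSpace.Boundary
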