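import Pool.Agent.Lib.MP_fee052_al.Tree
import Pool.Agent.Lib.MP_fee052_al.Bdry

open SimpleGraph MeasureTheory Filter Topology
open scoped ENNReal NNReal

namespace Pool.Agent.OuterSpace.OuterTree

variable {N : ℕ} (T : OuterTree N)

@[simp] theorem smul_fst (g : FreeGroup (Fin N)) (d : T.graph.Dart) :
    (g • d).fst = g • d.fst := rfl

@[simp] theorem smul_snd (g : FreeGroup (Fin N)) (d : T.graph.Dart) :
    (g • d).snd = g • d.snd := rfl

theorem smul_symm (g : FreeGroup (Fin N)) (d : T.graph.Dart) :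
    (g • d).symm = g • d.symm := rfl

theorem dlen_smul (g : FreeGroup (Fin N)) (d : T.graph.Dart) : T.dlen (g • d) = T.dlen d :=
  T.len_smul g d.fst d.snd d.adj

theorem smul_mem_halfTree_aux (g : FreeGroup (Fin N)) (e : T.graph.Dart) {z : T.V}
    (h : z ∈ T.halfTree e) : g • z ∈ T.halfTree (g • e) := by
  let f : (T.graph.deleteEdges {e.edge}) →g (T.graph.deleteEdges {(g • e).edge}) :=
    { toFun := fun v => g • v
      map_rel' := by
        intro a b hab
        rw [deleteEdges_adj] at hab ⊢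
        refine ⟨T.adj_smul g a b hab.1, ?_⟩
        intro hmem
        apply hab.2
        have h1 : s(g • a, g • b) = s(g • e.fst, g • e.snd) := hmem
        have h2 : s(a, b) = s(e.fst, e.snd) := by
          rw [Sym2.eq_iff] at h1 ⊢
          rcases h1 with ⟨h1, h2⟩ | ⟨h1, h2⟩
          · exact Or.inl ⟨smul_left_cancel g h1, smul_left_cancel g h2⟩
          · exact Or.inr ⟨smul_left_cancel g h1, smul_left_cancel g h2⟩
        exact h2 }
  exact Reachable.map f h

theorem smul_mem_halfTree (g : FreeGroup (Fin N)) (e : T.graph.Dart) (z : T.V) :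
    g • z ∈ T.halfTree (g • e) ↔ z ∈ T.halfTree e := by
  constructor
  · intro h
    have := T.smul_mem_halfTree_aux g⁻¹ _ h
    rwa [inv_smul_smul, inv_smul_smul] at this
  · exact T.smul_mem_halfTree_aux g e

theorem mem_halfTree_smul (g : FreeGroup (Fin N)) (e : T.graph.Dart) (z : T.V) :
    z ∈ T.halfTree (g • e) ↔ g⁻¹ • z ∈ T.halfTree e := by
  rw [← T.smul_mem_halfTree g e (g⁻¹ • z), smul_inv_smul]

theorem dist_smul (g : FreeGroup (Fin N)) (x y : T.V) :
    T.dist (g • x) (g • y) = T.dist x y := by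
  rw [dist_eq_sum, dist_eq_sum]
  refine Finset.sum_bij (fun e _ => g⁻¹ • e) ?_ ?_ ?_ ?_
  · intro e he
    rw [mem_sepF] at he ⊢
    rwa [mem_halfTree_smul, mem_halfTree_smul, inv_inv]
  · intro e _ e' _ h
    exact smul_left_cancel _ h
  · intro e he
    refine ⟨g • e, ?_, inv_smul_smul g e⟩
    rw [mem_sepF] at he ⊢
    rwa [smul_mem_halfTree, smul_mem_halfTree]
  · intro e _
    exact (T.dlen_smul g⁻¹ e).symm

theorem dart_free (g : FreeGroup (Fin N)) (d : T.graph.Dart) (h : g • d = d) : g = 1 := by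
  apply T.free g d.fst
  have := congrArg (fun d : T.graph.Dart => d.fst) h
  exact this

/-- The orbits of oriented edges. -/
abbrev DQ := MulAction.orbitRel.Quotient (FreeGroup (Fin N)) T.graph.Dart

/-- The orbits of vertices. -/
abbrev VQ := MulAction.orbitRel.Quotient (FreeGroup (Fin N)) T.V

theorem finite_darts_aux : ∃ B : Set T.graph.Dart, B.Finite ∧
    ∀ d : T.graph.Dart, ∃ g : FreeGroup (Fin N), g • d ∈ B := by
  classical
  obtain ⟨x0⟩ := T.isTree.connected.nonempty
  choose p hp using fun i : Fin N => T.exists_path x0 (FreeGroup.of i • x0)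
  let B : Set T.graph.Dart := ⋃ i : Fin N, {d | d ∈ (p i).darts ∨ d.symm ∈ (p i).darts}
  have hBfin : B.Finite := by
    apply Set.finite_iUnion
    intro i
    apply Set.Finite.union
    · exact (p i).darts.finite_toSet
    · exact ((p i).darts.finite_toSet).preimage
        (fun a _ b _ h => by have := congrArg Dart.symm h; simpa using this)
  refine ⟨B, hBfin, ?_⟩
  -- the graph of the covered edges
  let R : Set T.graph.Dart := {d | ∃ g : FreeGroup (Fin N), g • d ∈ B}
  have hBs : ∀ d, d ∈ B → d.symm ∈ B := by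
    intro d hd
    rw [Set.mem_iUnion] at hd ⊢
    obtain ⟨i, hi⟩ := hd
    refine ⟨i, ?_⟩
    rcases hi with hi | hi
    · right; simpa using hi
    · left; exact hi
  have hRs : ∀ d, d ∈ R → d.symm ∈ R := by
    rintro d ⟨g, hg⟩
    exact ⟨g, by rw [← smul_symm]; exact hBs _ hg⟩
  have hRg : ∀ (g : FreeGroup (Fin N)) d, d ∈ R → g • d ∈ R := by
    rintro g d ⟨h, hh⟩
    exact ⟨h * g⁻¹, by rwa [mul_smul, inv_smul_smul]⟩
  let T' : SimpleGraph T.V :=
    { Adj := fun u v => ∃ h : T.graph.Adj u v, (⟨(u, v), h⟩ : T.graph.Dart) ∈ R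
      symm := ⟨by
        rintro u v ⟨h, hR⟩
        exact ⟨h.symm, hRs _ hR⟩⟩
      loopless := ⟨by
        rintro u ⟨h, _⟩
        exact h.ne rfl⟩ }
  have hT'adj : ∀ {u v : T.V}, T'.Adj u v ↔ ∃ h : T.graph.Adj u v,
      (⟨(u, v), h⟩ : T.graph.Dart) ∈ R := Iff.rfl
  let act (g : FreeGroup (Fin N)) : T' →g T' :=
    { toFun := fun v => g • v
      map_rel' := by
        rintro a b ⟨hab, hR⟩
        exact ⟨T.adj_smul g a b hab, hRg g _ hR⟩ }
  have hact : ∀ (g : FreeGroup (Fin N)) {u v : T.V}, T'.Reachable u v →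
      T'.Reachable (g • u) (g • v) := fun g u v h => Reachable.map (act g) h
  -- paths in B give reachability
  have hwalk : ∀ {u v : T.V} (w : T.graph.Walk u v), (∀ d ∈ w.darts, d ∈ R) →
      T'.Reachable u v := by
    intro u v w
    induction w with
    | nil => intro _; exact Reachable.refl _
    | @cons a b c hab w ih =>
      intro h
      have h1 : (⟨(a, b), hab⟩ : T.graph.Dart) ∈ R := h _ (by simp)
      have h2 : T'.Adj a b := hT'adj.2 ⟨hab, h1⟩
      exact h2.reachable.trans (ih fun d hd => h d (by simp [hd]))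
  have hof : ∀ i : Fin N, T'.Reachable x0 (FreeGroup.of i • x0) := by
    intro i
    apply hwalk (p i)
    intro d hd
    exact ⟨1, by rw [one_smul]; exact Set.mem_iUnion.2 ⟨i, Or.inl hd⟩⟩
  have hall : ∀ g : FreeGroup (Fin N), T'.Reachable x0 (g • x0) := by
    intro g
    induction g using FreeGroup.induction_on with
    | C1 => rw [one_smul]
    | of i => exact hof i
    | inv_of i _ =>
      have := hact (FreeGroup.of i)⁻¹ (hof i)
      rw [inv_smul_smul] at this
      exact this.symm
    | mul g h ihg ihh =>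
      rw [mul_smul]
      exact ihg.trans (hact g ihh)
  let A : Set T.V := {v | T'.Reachable x0 v}
  have hle : T' ≤ T.graph := by
    intro a b h
    exact (hT'adj.1 h).1
  have hconn : ∀ {a b : T.V} (w : T'.Walk a b) (ha : a ∈ A), ∃ hb : b ∈ A,
      (T.graph.induce A).Reachable ⟨a, ha⟩ ⟨b, hb⟩ := by
    intro a b w
    induction w with
    | nil => intro ha; exact ⟨ha, Reachable.refl _⟩
    | @cons a b c hab w ih =>
      intro ha
      have hb : b ∈ A := Reachable.trans ha hab.reachable
      obtain ⟨hc, h2⟩ := ih hb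
      refine ⟨hc, Reachable.trans (Adj.reachable ?_) h2⟩
      show T.graph.Adj a b
      exact hle hab
  have hA : A = Set.univ := by
    apply T.minimal A
    · intro g v hv
      exact (hall g).trans (hact g hv)
    · have hx0 : x0 ∈ A := Reachable.refl _
      have hr : ∀ v : A, (T.graph.induce A).Reachable ⟨x0, hx0⟩ v := by
        rintro ⟨v, hv⟩
        obtain ⟨w⟩ : T'.Reachable x0 v := hv
        exact (hconn w hx0).2
      have : Nonempty A := ⟨⟨x0, hx0⟩⟩
      exact ⟨fun a b => (hr a).symm.trans (hr b)⟩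
  intro d
  by_contra hd
  have hd' : d ∉ R := hd
  have hle2 : T' ≤ T.graph.deleteEdges {d.edge} := by
    intro a b h
    rw [deleteEdges_adj]
    refine ⟨hle h, ?_⟩
    intro hmem
    obtain ⟨hab, hR⟩ := hT'adj.1 h
    have h1 : (⟨(a, b), hab⟩ : T.graph.Dart).edge = d.edge := hmem
    rw [dart_edge_eq_iff] at h1
    rcases h1 with h1 | h1
    · rw [h1] at hR; exact hd' hR
    · rw [h1] at hR
      apply hd'
      have := hRs _ hR
      simpa using this
  have h1 : T'.Reachable d.fst d.snd := by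
    have ha : d.fst ∈ A := hA ▸ Set.mem_univ _
    have hb : d.snd ∈ A := hA ▸ Set.mem_univ _
    exact Reachable.trans (Reachable.symm ha) hb
  have hb := isAcyclic_iff_forall_adj_isBridge.1 T.isTree.isAcyclic d.adj
  exact hb (h1.mono hle2)

instance finite_DQ : Finite T.DQ := by
  obtain ⟨B, hB, h⟩ := T.finite_darts_aux
  have : Finite B := hB
  apply Finite.of_surjective (fun b : B => (Quotient.mk'' (b : T.graph.Dart) : T.DQ))
  intro q
  induction q using Quotient.inductionOn' with
  | h d =>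
    obtain ⟨g, hg⟩ := h d
    refine ⟨⟨g • d, hg⟩, ?_⟩
    apply Quotient.sound'
    exact ⟨g, rfl⟩

instance countable_dart : Countable T.graph.Dart := by
  have hs : Function.Surjective (fun p : T.DQ × FreeGroup (Fin N) => p.2 • p.1.out) := by
    intro d
    have h1 : (Quotient.mk'' (Quotient.out (Quotient.mk'' d : T.DQ)) : T.DQ) = Quotient.mk'' d :=
      Quotient.out_eq' _
    have h2 := Quotient.exact' h1
    obtain ⟨g, hg⟩ := h2
    refine ⟨(Quotient.mk'' d, g⁻¹), ?_⟩
    show g⁻¹ • (Quotient.out (Quotient.mk'' d : T.DQ)) = d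
    rw [← hg]
    exact inv_smul_smul g d
  have : Countable (FreeGroup (Fin N)) := by infer_instance
  exact hs.countable

instance countable_V : Countable T.V := by
  obtain ⟨x0⟩ := T.isTree.connected.nonempty
  have hs : Function.Surjective (fun o : Option T.graph.Dart => o.elim x0 (fun d => d.fst)) := by
    intro v
    by_cases hv : v = x0
    · exact ⟨none, hv.symm⟩
    · obtain ⟨d, hd, _⟩ := T.exists_dart hv
      exact ⟨some d, hd⟩
  exact hs.countable

instance finite_VQ : Finite T.VQ := by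
  obtain ⟨x0⟩ := T.isTree.connected.nonempty
  have hs : Function.Surjective (fun o : Option T.DQ =>
      o.elim (Quotient.mk'' x0 : T.VQ) (fun q => Quotient.mk'' q.out.fst)) := by
    intro q
    induction q using Quotient.inductionOn' with
    | h v =>
      by_cases hv : v = x0
      · exact ⟨none, by rw [hv]; rfl⟩
      · obtain ⟨d, hd, _⟩ := T.exists_dart hv
        refine ⟨some (Quotient.mk'' d), ?_⟩
        apply Quotient.sound'
        have h1 : (Quotient.mk'' (Quotient.out (Quotient.mk'' d : T.DQ)) : T.DQ) =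
          Quotient.mk'' d := Quotient.out_eq' _
        obtain ⟨g, hg⟩ := Quotient.exact' h1
        refine ⟨g, ?_⟩
        rw [← hd]
        have := congrArg (fun d : T.graph.Dart => d.fst) hg
        exact this
  exact Finite.of_surjective _ hs

/-- Every dart is a translate of the representative of its orbit. -/
theorem exists_rep (d : T.graph.Dart) : ∃ (g : FreeGroup (Fin N)) (q : T.DQ), g • q.out = d := by
  have h1 : (Quotient.mk'' (Quotient.out (Quotient.mk'' d : T.DQ)) : T.DQ) =
    Quotient.mk'' d := Quotient.out_eq' _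
  obtain ⟨g, hg⟩ := Quotient.exact' h1
  have hg' : g • d = Quotient.out (Quotient.mk'' d : T.DQ) := hg
  exact ⟨g⁻¹, Quotient.mk'' d, by rw [← hg', inv_smul_smul]⟩

theorem exists_repV (v : T.V) : ∃ (g : FreeGroup (Fin N)) (q : T.VQ), g • q.out = v := by
  have h1 : (Quotient.mk'' (Quotient.out (Quotient.mk'' v : T.VQ)) : T.VQ) =
    Quotient.mk'' v := Quotient.out_eq' _
  obtain ⟨g, hg⟩ := Quotient.exact' h1
  have hg' : g • v = Quotient.out (Quotient.mk'' v : T.VQ) := hg
  exact ⟨g⁻¹, Quotient.mk'' v, by rw [← hg', inv_smul_smul]⟩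

theorem darts_at_finite (u : T.V) : {d : T.graph.Dart | d.fst = u}.Finite := by
  apply Set.Finite.of_injOn (f := fun d : T.graph.Dart => (Quotient.mk'' d : T.DQ))
    (t := Set.univ) (fun _ _ => Set.mem_univ _) _ Set.finite_univ
  intro d hd d' hd' h
  obtain ⟨g, hg⟩ := Quotient.exact' h
  have hg' : g • d' = d := hg
  have h1 : g • u = u := by
    have := congrArg (fun d : T.graph.Dart => d.fst) hg'
    simp only [smul_fst] at this
    rwa [show d.fst = u from hd, show d'.fst = u from hd'] at this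
  have h2 := T.free g u h1
  rw [h2, one_smul] at hg'
  exact hg'.symm

theorem exists_dlen_lower : ∃ δ : ℝ, 0 < δ ∧ ∀ d : T.graph.Dart, δ ≤ T.dlen d := by
  by_cases hne : Nonempty T.DQ
  · obtain ⟨q0, hq0⟩ := Finite.exists_min (fun q : T.DQ => T.dlen q.out)
    refine ⟨T.dlen q0.out, T.dlen_pos _, ?_⟩
    intro d
    obtain ⟨g, q, hg⟩ := T.exists_rep d
    rw [← hg, dlen_smul]
    exact hq0 q
  · refine ⟨1, one_pos, ?_⟩
    intro d
    exact absurd ⟨Quotient.mk'' d⟩ hne

theorem card_ball_finite (x : T.V) (k : ℕ) : {z : T.V | (T.sepF x z).card ≤ k}.Finite := by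
  classical
  induction k with
  | zero =>
    apply (Set.finite_singleton x).subset
    intro z hz
    rw [Set.mem_singleton_iff]
    by_contra hne
    obtain ⟨d, hd, hx⟩ := T.exists_dart (u := z) (z := x) hne
    have h1 : d.symm ∈ T.sepF x z := by
      rw [mem_sepF, mem_symm_iff, not_not]
      refine ⟨hx, ?_⟩
      rw [← hd]; exact T.fst_mem_halfTree_symm d
    have h2 : (T.sepF x z).card ≤ 0 := hz
    have h3 := Finset.card_pos.2 ⟨_, h1⟩
    omega
  | succ k ih =>
    have hfin : ({x} ∪ ⋃ w ∈ {z : T.V | (T.sepF x z).card ≤ k},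
        (fun d : T.graph.Dart => d.snd) '' {d : T.graph.Dart | d.fst = w}).Finite := by
      apply (Set.finite_singleton x).union
      apply ih.biUnion
      intro w _
      exact (T.darts_at_finite w).image _
    apply hfin.subset
    intro z hz
    by_cases hne : z = x
    · left; exact hne
    · right
      obtain ⟨d, hd, hx⟩ := T.exists_dart (u := z) (z := x) hne
      rw [Set.mem_iUnion₂]
      refine ⟨d.snd, ?_, ⟨d.symm, rfl, hd⟩⟩
      have hsub : T.sepF x d.snd ⊆ (T.sepF x z).erase d.symm := by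
        intro e he
        rw [mem_sepF] at he
        rw [Finset.mem_erase, mem_sepF]
        have hz' : z ∈ T.halfTree e := by
          by_contra hz'
          rw [← hd] at hz'
          have := T.dart_eq_of_cross e d hz' he.2
          rw [this] at hx
          exact he.1 hx
        refine ⟨?_, he.1, hz'⟩
        rintro rfl
        exact T.fst_not_mem d.symm he.2
      have hmem : d.symm ∈ T.sepF x z := by
        rw [mem_sepF, mem_symm_iff, not_not]
        refine ⟨hx, ?_⟩
        rw [← hd]; exact T.fst_mem_halfTree_symm d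
      have h1 := Finset.card_le_card hsub
      rw [Finset.card_erase_of_mem hmem] at h1
      have h2 : (T.sepF x z).card ≤ k + 1 := hz
      have h3 := Finset.card_pos.2 ⟨_, hmem⟩
      show (T.sepF x d.snd).card ≤ k
      omega

theorem ball_finite (x : T.V) (R : ℝ) : {z : T.V | T.dist x z ≤ R}.Finite := by
  obtain ⟨δ, hδ, h⟩ := T.exists_dlen_lower
  apply (T.card_ball_finite x ⌈R / δ⌉₊).subset
  intro z hz
  have h1 : T.dist x z ≤ R := hz
  rw [dist_eq_sum] at h1
  have h2 : ((T.sepF x z).card : ℝ) * δ ≤ ∑ e ∈ T.sepF x z, T.dlen e := by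
    rw [← nsmul_eq_mul]
    exact Finset.card_nsmul_le_sum _ _ _ fun e _ => h e
  show (T.sepF x z).card ≤ ⌈R / δ⌉₊
  have h3 : ((T.sepF x z).card : ℝ) ≤ R / δ := by
    rw [le_div_iff₀ hδ]; linarith
  exact_mod_cast h3.trans (Nat.le_ceil _)

theorem orbit_ball_finite (x y : T.V) (R : ℝ) :
    {g : FreeGroup (Fin N) | T.dist x (g • y) ≤ R}.Finite := by
  apply (T.ball_finite x R).preimage
  intro g _ h _ heq
  have heq' : g • y = h • y := heq
  have h1 : (h⁻¹ * g) • y = y := by rw [mul_smul, heq', inv_smul_smul]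
  have := T.free _ _ h1
  rwa [inv_mul_eq_one, eq_comm] at this

/-- Far out on an orbit sequence the side of a dart does not change. -/
theorem exists_bound (e : T.graph.Dart) (x : T.V) : ∃ n0 : ℕ, ∀ (ξ : Boundary N) (n : ℕ), n0 ≤ n →
    (ξ.pre n • x ∈ T.halfTree e ↔ ξ.pre n0 • x ∈ T.halfTree e) := by
  obtain ⟨L, hL⟩ : ∃ L : ℝ, ∀ a : Fin N × Bool, T.dist x (FreeGroup.mk [a] • x) ≤ L := by
    obtain ⟨L, hL⟩ := (Set.finite_range fun a : Fin N × Bool =>
      T.dist x (FreeGroup.mk [a] • x)).bddAbove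
    exact ⟨L, fun a => hL ⟨a, rfl⟩⟩
  have hfin := ((T.orbit_ball_finite e.fst x L).union (T.orbit_ball_finite e.snd x L)).image
    FreeGroup.norm
  obtain ⟨n0, hn0⟩ := hfin.bddAbove
  refine ⟨n0 + 1, ?_⟩
  have hstep : ∀ (ξ : Boundary N) (n : ℕ), n0 + 1 ≤ n →
      (ξ.pre (n + 1) • x ∈ T.halfTree e ↔ ξ.pre n • x ∈ T.halfTree e) := by
    intro ξ n hn
    have hnot : ξ.pre n ∉ {g : FreeGroup (Fin N) | T.dist e.fst (g • x) ≤ L} ∪
        {g : FreeGroup (Fin N) | T.dist e.snd (g • x) ≤ L} := by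
      intro hmem
      have h1 := hn0 ⟨_, hmem, rfl⟩
      rw [ξ.norm_pre] at h1
      omega
    rw [Set.mem_union, not_or, Set.mem_ofPred_eq, Set.mem_ofPred_eq] at hnot
    have hd : T.dist (ξ.pre n • x) (ξ.pre (n + 1) • x) ≤ L := by
      rw [ξ.pre_succ, mul_smul, dist_smul]
      exact hL _
    by_contra hcon
    rcases not_iff.1 hcon with hc
    by_cases h1 : ξ.pre n • x ∈ T.halfTree e
    · have h2 : ξ.pre (n + 1) • x ∉ T.halfTree e := fun h => hcon ⟨fun _ => h1, fun _ => h⟩
      have h3 : e.symm ∈ T.sep (ξ.pre n • x) (ξ.pre (n + 1) • x) := by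
        rw [symm_mem_sep_iff]; exact ⟨h2, h1⟩
      have h4 := T.dist_fst_le h3
      apply hnot.2
      rw [T.dist_comm]
      exact h4.trans hd
    · have h2 : ξ.pre (n + 1) • x ∈ T.halfTree e := by
        by_contra h; exact hcon ⟨fun h' => absurd h' h, fun h' => absurd h' h1⟩
      have h3 : e ∈ T.sep (ξ.pre n • x) (ξ.pre (n + 1) • x) := ⟨h1, h2⟩
      have h4 := T.dist_fst_le h3
      apply hnot.1
      rw [T.dist_comm]
      exact h4.trans hd
  intro ξ n hn
  induction n, hn using Nat.le_induction with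
  | base => exact Iff.rfl
  | succ n hn ih => rw [hstep ξ n hn, ih]

theorem exists_bound' (e : T.graph.Dart) (x y : T.V) : ∃ n0 : ℕ, ∀ (ξ : Boundary N) (n : ℕ),
    n0 ≤ n → (ξ.pre n • x ∈ T.halfTree e ↔ ξ.pre n • y ∈ T.halfTree e) := by
  have hfin := ((T.orbit_ball_finite e.fst x (T.dist x y)).union
    (T.orbit_ball_finite e.snd x (T.dist x y))).image FreeGroup.norm
  obtain ⟨n0, hn0⟩ := hfin.bddAbove
  refine ⟨n0 + 1, fun ξ n hn => ?_⟩
  have hnot : ξ.pre n ∉ {g : FreeGroup (Fin N) | T.dist e.fst (g • x) ≤ T.dist x y} ∪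
      {g : FreeGroup (Fin N) | T.dist e.snd (g • x) ≤ T.dist x y} := by
    intro hmem
    have h1 := hn0 ⟨_, hmem, rfl⟩
    rw [ξ.norm_pre] at h1
    omega
  rw [Set.mem_union, not_or, Set.mem_ofPred_eq, Set.mem_ofPred_eq] at hnot
  have hd : T.dist (ξ.pre n • x) (ξ.pre n • y) = T.dist x y := by rw [dist_smul]
  constructor
  · intro h1
    by_contra h2
    have h3 : e.symm ∈ T.sep (ξ.pre n • x) (ξ.pre n • y) := by
      rw [symm_mem_sep_iff]; exact ⟨h2, h1⟩
    have h4 := T.dist_fst_le h3
    apply hnot.2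
    rw [T.dist_comm]
    exact h4.trans hd.le
  · intro h2
    by_contra h1
    have h3 : e ∈ T.sep (ξ.pre n • x) (ξ.pre n • y) := ⟨h1, h2⟩
    have h4 := T.dist_fst_le h3
    apply hnot.1
    rw [T.dist_comm]
    exact h4.trans hd.le

/-- The shadow of a dart is determined by an initial segment of fixed length. -/
theorem exists_shadow_bound (e : T.graph.Dart) (x : T.V) : ∃ n0 : ℕ, ∀ (ξ : Boundary N) (n : ℕ),
    n0 ≤ n → (ξ ∈ T.shadow e ↔ ξ.pre n • x ∈ T.halfTree e) := by
  obtain ⟨n0, hn0⟩ := T.exists_bound e x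
  refine ⟨n0, fun ξ n hn => ?_⟩
  constructor
  · intro h
    have h1 := (h x).and (eventually_ge_atTop n0)
    obtain ⟨m, hm1, hm2⟩ := h1.exists
    rw [hn0 ξ n hn, ← hn0 ξ m hm2]
    exact hm1
  · intro h y
    obtain ⟨n1, hn1⟩ := T.exists_bound' e x y
    filter_upwards [eventually_ge_atTop n0, eventually_ge_atTop n1] with m hm0 hm1
    rw [← hn1 ξ m hm1, hn0 ξ m hm0, ← hn0 ξ n hn]
    exact h

theorem mem_shadow_symm_iff (e : T.graph.Dart) (ξ : Boundary N) :
    ξ ∈ T.shadow e.symm ↔ ξ ∉ T.shadow e := by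
  obtain ⟨x0⟩ := T.isTree.connected.nonempty
  obtain ⟨n0, hn0⟩ := T.exists_shadow_bound e x0
  obtain ⟨n1, hn1⟩ := T.exists_shadow_bound e.symm x0
  rw [hn0 ξ (max n0 n1) (le_max_left _ _), hn1 ξ (max n0 n1) (le_max_right _ _), mem_symm_iff]

theorem isClopen_shadow (e : T.graph.Dart) : IsClopen (T.shadow e) := by
  obtain ⟨x0⟩ := T.isTree.connected.nonempty
  obtain ⟨n0, hn0⟩ := T.exists_shadow_bound e x0
  have : T.shadow e = {ξ : Boundary N | ξ.pre n0 ∈ {g | g • x0 ∈ T.halfTree e}} := by
    ext ξ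
    rw [hn0 ξ n0 le_rfl]
    rfl
  rw [this]
  exact Boundary.isClopen_pre n0 _

theorem measurableSet_shadow (e : T.graph.Dart) : MeasurableSet (T.shadow e) :=
  (T.isClopen_shadow e).isOpen.measurableSet

theorem smul_mem_shadow_aux (g : FreeGroup (Fin N)) (e : T.graph.Dart) (ξ : Boundary N)
    (h : ξ ∈ T.shadow e) : g • ξ ∈ T.shadow (g • e) := by
  obtain ⟨k, l, hkl⟩ := Boundary.smul_pre g ξ
  intro x
  have h1 := h x
  have h2 : ∀ᶠ n in atTop, (g • ξ).pre (n + k) • x ∈ T.halfTree (g • e) := by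
    have h3 := (tendsto_add_atTop_nat l).eventually h1
    filter_upwards [h3] with n hn
    rw [hkl, mul_smul, smul_mem_halfTree]
    exact hn
  exact (Filter.tendsto_add_atTop_iff_nat (f := fun n => (g • ξ).pre n • x)
    (l := 𝓟 (T.halfTree (g • e))) k).1 (tendsto_principal.2 h2) |> tendsto_principal.1

theorem smul_mem_shadow (g : FreeGroup (Fin N)) (e : T.graph.Dart) (ξ : Boundary N) :
    g • ξ ∈ T.shadow (g • e) ↔ ξ ∈ T.shadow e := by
  constructor
  · intro h
    have := T.smul_mem_shadow_aux g⁻¹ _ _ h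
    rwa [inv_smul_smul, inv_smul_smul] at this
  · exact T.smul_mem_shadow_aux g e ξ

end Pool.Agent.OuterSpace.OuterTree
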