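import Pool.Agent.Lib.MP_fee052_al.Unfold

open SimpleGraph MeasureTheory Filter Topology
open scoped ENNReal NNReal

namespace Pool.Agent.OuterSpace

namespace OuterTree

open Boundary

variable {N : ℕ} (T : OuterTree N)

open Classical in
theorem dist_sub_eq (x y z : T.V) : T.dist x z - T.dist y z =
    ∑ e ∈ T.sepF x y, T.dlen e * (if z ∈ T.halfTree e then 1 else -1) := by
  rw [dist_eq_sum, dist_eq_sum,
    ← Finset.sum_filter_add_sum_filter_not (T.sepF x z) (fun e => y ∈ T.halfTree e),
    ← Finset.sum_filter_add_sum_filter_not (T.sepF y z) (fun e => x ∈ T.halfTree e),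
    ← Finset.sum_filter_add_sum_filter_not (T.sepF x y) (fun e => z ∈ T.halfTree e)]
  have h1 : (T.sepF x z).filter (fun e => ¬ y ∈ T.halfTree e) =
      (T.sepF y z).filter (fun e => ¬ x ∈ T.halfTree e) := by
    ext e
    simp only [Finset.mem_filter, mem_sepF]
    tauto
  have h2 : ∑ e ∈ (T.sepF x y).filter (fun e => z ∈ T.halfTree e),
      T.dlen e * (if z ∈ T.halfTree e then 1 else -1) =
      ∑ e ∈ (T.sepF x z).filter (fun e => y ∈ T.halfTree e), T.dlen e := by
    apply Finset.sum_congr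
    · ext e
      simp only [Finset.mem_filter, mem_sepF]
      tauto
    · intro e he
      rw [Finset.mem_filter, mem_sepF] at he
      rw [if_pos he.1.2, mul_one]
  have h3 : ∑ e ∈ (T.sepF x y).filter (fun e => ¬ z ∈ T.halfTree e),
      T.dlen e * (if z ∈ T.halfTree e then 1 else -1) =
      - ∑ e ∈ (T.sepF y z).filter (fun e => x ∈ T.halfTree e), T.dlen e := by
    rw [← Finset.sum_neg_distrib]
    refine Finset.sum_bij (fun e _ => e.symm) ?_ ?_ ?_ ?_
    · intro e he
      simp only [Finset.mem_filter, mem_sepF, mem_symm_iff] at he ⊢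
      tauto
    · intro e _ e' _ h
      have := congrArg Dart.symm h
      simpa using this
    · intro e he
      refine ⟨e.symm, ?_, by simp⟩
      simp only [Finset.mem_filter, mem_sepF, mem_symm_iff] at he ⊢
      tauto
    · intro e he
      simp only [Finset.mem_filter] at he
      rw [if_neg he.2, dlen_symm]
      ring
  rw [h1, h2, h3]
  ring

open Classical in
/-- explicit formula for the Busemann function -/
noncomputable def bus (ξ : Boundary N) (x y : T.V) : ℝ :=
  ∑ e ∈ T.sepF x y, T.dlen e * (if ξ ∈ T.shadow e then 1 else -1)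

theorem eventually_bus (ξ : Boundary N) (x y z : T.V) :
    ∀ᶠ n in atTop, T.dist x (ξ.pre n • z) - T.dist y (ξ.pre n • z) = T.bus ξ x y := by
  classical
  have h1 : ∀ᶠ n in atTop, ∀ e ∈ T.sepF x y, (ξ.pre n • z ∈ T.halfTree e ↔ ξ ∈ T.shadow e) := by
    rw [Filter.eventually_all_finset]
    intro e _
    obtain ⟨n0, hn0⟩ := T.exists_shadow_bound e z
    filter_upwards [eventually_ge_atTop n0] with n hn
    exact (hn0 ξ n hn).symm
  filter_upwards [h1] with n hn
  rw [dist_sub_eq]
  unfold bus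
  apply Finset.sum_congr rfl
  intro e he
  simp only [hn e he]

theorem busemann_eq (ξ : Boundary N) (x y : T.V) : T.busemann ξ x y = T.bus ξ x y := by
  unfold busemann
  apply Tendsto.limUnder_eq
  apply Tendsto.congr' _ tendsto_const_nhds
  filter_upwards [T.eventually_bus ξ x y x] with n hn
  exact hn.symm

theorem eventually_busemann (ξ : Boundary N) (x y z : T.V) :
    ∀ᶠ n in atTop, T.dist x (ξ.pre n • z) - T.dist y (ξ.pre n • z) = T.busemann ξ x y := by
  rw [busemann_eq]; exact T.eventually_bus ξ x y z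

theorem busemann_cocycle (ξ : Boundary N) (x y z : T.V) :
    T.busemann ξ x z = T.busemann ξ x y + T.busemann ξ y z := by
  obtain ⟨n, ⟨h1, h2⟩, h3⟩ := (((T.eventually_busemann ξ x y x).and
    (T.eventually_busemann ξ y z x)).and (T.eventually_busemann ξ x z x)).exists
  rw [← h1, ← h2, ← h3]
  ring

theorem busemann_self (ξ : Boundary N) (x : T.V) : T.busemann ξ x x = 0 := by
  have := T.busemann_cocycle ξ x x x
  linarith

theorem busemann_symm (ξ : Boundary N) (x y : T.V) : T.busemann ξ x y = - T.busemann ξ y x := by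
  have := T.busemann_cocycle ξ x y x
  rw [busemann_self] at this
  linarith

theorem abs_busemann_le (ξ : Boundary N) (x y : T.V) : |T.busemann ξ x y| ≤ T.dist x y := by
  obtain ⟨n, h⟩ := (T.eventually_busemann ξ x y x).exists
  rw [← h]
  exact T.abs_dist_sub_le x y _

theorem busemann_le (ξ : Boundary N) (x y : T.V) : T.busemann ξ x y ≤ T.dist x y :=
  (abs_le.1 (T.abs_busemann_le ξ x y)).2

theorem busemann_step (ξ : Boundary N) (u : T.V) :
    T.busemann ξ u (T.step ξ u) = T.dist u (T.step ξ u) := by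
  have h1 := T.mem_shadow_dir u ξ
  obtain ⟨n, h2, h3⟩ := ((T.eventually_busemann ξ u (T.step ξ u) u).and (h1 u)).exists
  rw [← h2]
  have h4 : u ∉ T.halfTree (T.dir u ξ) := by
    have := T.fst_not_mem (T.dir u ξ)
    rwa [dir_fst] at this
  have h5 := T.snd_on_path h4 h3
  show T.dist u _ - T.dist (T.dir u ξ).snd _ = T.dist u (T.dir u ξ).snd
  linarith

theorem busemann_iterate (ξ : Boundary N) (n : ℕ) (u : T.V) :
    T.busemann ξ u ((T.step ξ)^[n] u) = T.dist u ((T.step ξ)^[n] u) := by
  apply le_antisymm (T.busemann_le _ _ _)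
  induction n with
  | zero => simp [busemann_self, dist_self]
  | succ n ih =>
    rw [Function.iterate_succ_apply']
    rw [T.busemann_cocycle ξ u ((T.step ξ)^[n] u), busemann_step]
    have := T.dist_triangle u ((T.step ξ)^[n] u) (T.step ξ ((T.step ξ)^[n] u))
    linarith

theorem measurable_busemann (x y : T.V) : Measurable fun ξ : Boundary N => T.busemann ξ x y := by
  classical
  simp_rw [busemann_eq]
  unfold bus
  apply Finset.measurable_sum
  intro e _
  apply Measurable.const_mul
  exact Measurable.ite (T.measurableSet_shadow e) measurable_const measurable_const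

theorem gromov_eq {ξ ζ : Boundary N} {u : T.V} (hu : u ∈ T.line ξ ζ) (x : T.V) :
    T.gromov x ξ ζ = (T.busemann ξ x u + T.busemann ζ x u) / 2 := by
  unfold gromov
  apply Tendsto.limUnder_eq
  apply Tendsto.congr' _ tendsto_const_nhds
  have h1 := T.mem_shadow_dir u ζ
  have h2 : ξ ∈ T.shadow (T.dir u ζ).symm := by
    rw [mem_shadow_symm_iff]; exact T.not_mem_shadow_dir hu
  filter_upwards [T.eventually_busemann ξ x u x, T.eventually_busemann ζ x u x, h1 x, h2 x]
    with n h3 h4 h5 h6
  rw [← h3, ← h4]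
  rw [mem_symm_iff] at h6
  have h7 := T.fst_on_path h6 h5
  rw [dir_fst] at h7
  have h8 := T.dist_comm u (ξ.pre n • x)
  linarith

/-! ### Distinct boundary points are separated -/

theorem halfTree_dir_step_subset (ζ : Boundary N) (u : T.V) :
    T.halfTree (T.dir (T.step ζ u) ζ) ⊆ T.halfTree (T.dir u ζ) := by
  intro z hz
  have h1 : (T.dir u ζ).fst ∉ T.halfTree (T.dir (T.step ζ u) ζ) := by
    intro h
    have h2 := T.dart_eq_of_cross (T.dir (T.step ζ u) ζ) (T.dir u ζ).symm (by
      show (T.dir u ζ).snd ∉ _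
      have := T.fst_not_mem (T.dir (T.step ζ u) ζ)
      rwa [dir_fst] at this) h
    have h3 := T.mem_shadow_dir (T.step ζ u) ζ
    rw [← h2, mem_shadow_symm_iff] at h3
    exact h3 (T.mem_shadow_dir u ζ)
  rw [T.nested (Or.inl h1) hz]
  exact T.step_mem (T.mem_shadow_dir u ζ) (T.snd_mem_halfTree _)

theorem halfTree_dir_iterate_subset (ζ : Boundary N) (n : ℕ) (u : T.V) :
    T.halfTree (T.dir ((T.step ζ)^[n] u) ζ) ⊆ T.halfTree (T.dir u ζ) := by
  induction n with
  | zero => exact subset_rfl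
  | succ n ih =>
    rw [Function.iterate_succ_apply']
    exact (T.halfTree_dir_step_subset ζ _).trans ih

theorem shadow_mono {d d' : T.graph.Dart} (h : T.halfTree d ⊆ T.halfTree d') :
    T.shadow d ⊆ T.shadow d' := by
  intro ξ hξ x
  filter_upwards [hξ x] with n hn
  exact h hn

theorem iterate_congr (ζ ζ' : Boundary N) (n : ℕ) : ∀ u : T.V,
    ζ' ∈ T.shadow (T.dir ((T.step ζ)^[n] u) ζ) →
    (T.step ζ')^[n + 1] u = (T.step ζ)^[n + 1] u := by
  induction n with
  | zero =>
    intro u h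
    show (T.dir u ζ').snd = (T.dir u ζ).snd
    rw [T.dir_eq (T.dir_fst u ζ) h]
  | succ n ih =>
    intro u h
    rw [Function.iterate_succ_apply, Function.iterate_succ_apply]
    have h1 : ζ' ∈ T.shadow (T.dir u ζ) :=
      T.shadow_mono (T.halfTree_dir_iterate_subset ζ (n + 1) u) h
    have h2 : T.step ζ' u = T.step ζ u := by
      show (T.dir u ζ').snd = (T.dir u ζ).snd
      rw [T.dir_eq (T.dir_fst u ζ) h1]
    rw [h2]
    exact ih (T.step ζ u) h

theorem iterate_not_mem (ζ : Boundary N) (n k : ℕ) (u : T.V) :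
    (T.step ζ)^[n] u ∉ T.halfTree (T.dir ((T.step ζ)^[n + k] u) ζ) := by
  intro h
  rw [add_comm, Function.iterate_add_apply] at h
  have h1 := T.halfTree_dir_iterate_subset ζ k _ h
  have h2 := T.fst_not_mem (T.dir ((T.step ζ)^[n] u) ζ)
  rw [dir_fst] at h2
  exact h2 h1

theorem iterate_mem (ζ : Boundary N) (n k : ℕ) (u : T.V) :
    (T.step ζ)^[n + (k + 1)] u ∈ T.halfTree (T.dir ((T.step ζ)^[n] u) ζ) := by
  rw [add_comm, Function.iterate_add_apply, Function.iterate_succ_apply]
  exact T.step_iterate_mem (T.mem_shadow_dir _ _) (T.snd_mem_halfTree _) k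

theorem iterate_injective (ζ : Boundary N) (u : T.V) :
    Function.Injective fun n : ℕ => (T.step ζ)^[n] u := by
  have key : ∀ n m : ℕ, n < m → (T.step ζ)^[n] u ≠ (T.step ζ)^[m] u := by
    intro n m hnm h
    obtain ⟨k, rfl⟩ : ∃ k, m = n + (k + 1) := ⟨m - n - 1, by omega⟩
    have h1 := T.iterate_mem ζ n k u
    rw [← h] at h1
    exact T.iterate_not_mem ζ n 0 u h1
  intro n m h
  rcases lt_trichotomy n m with h1 | h1 | h1
  · exact absurd h (key n m h1)
  · exact h1
  · exact absurd h.symm (key m n h1)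

end OuterTree

namespace Boundary

variable {N : ℕ}

/-- remove the first `k` letters -/
def drop (k : ℕ) (ξ : Boundary N) : Boundary N where
  letter n := ξ.letter (k + n)
  reduced n := ξ.reduced (k + n)

theorem pre_add (ξ : Boundary N) (k n : ℕ) : ξ.pre (k + n) = ξ.pre k * (ξ.drop k).pre n := by
  induction n with
  | zero => simp
  | succ n ih =>
    rw [← add_assoc, pre_succ, ih, pre_succ, mul_assoc]
    rfl

theorem norm_inv_mul (ξ ζ : Boundary N) (h : ξ.letter 0 ≠ ζ.letter 0) (i j : ℕ) :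
    ((ξ.pre i)⁻¹ * ζ.pre j).norm = i + j := by
  have h1 : (ξ.pre i)⁻¹ * ζ.pre j = FreeGroup.mk
      (FreeGroup.invRev ((List.range i).map ξ.letter) ++ (List.range j).map ζ.letter) := by
    unfold pre
    rw [FreeGroup.inv_mk, FreeGroup.mul_mk]
  have hr1 : FreeGroup.IsReduced (FreeGroup.invRev ((List.range i).map ξ.letter)) := by
    apply FreeGroup.IsReduced.of_reduce_eq
    rw [FreeGroup.reduce_invRev, (ξ.isReduced_word i).reduce_eq]
  have hr2 := ζ.isReduced_word j
  have hred : FreeGroup.IsReduced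
      (FreeGroup.invRev ((List.range i).map ξ.letter) ++ (List.range j).map ζ.letter) := by
    unfold FreeGroup.IsReduced at hr1 hr2 ⊢
    rw [List.isChain_append]
    refine ⟨hr1, hr2, ?_⟩
    intro x hx y hy hxy
    have hx' : x = ((ξ.letter 0).1, !(ξ.letter 0).2) := by
      unfold FreeGroup.invRev at hx
      cases i with
      | zero => simp at hx
      | succ i =>
        rw [List.range_succ_eq_map] at hx
        simp at hx
        exact hx.symm
    have hy' : y = ζ.letter 0 := by
      cases j with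
      | zero => simp at hy
      | succ j =>
        rw [List.range_succ_eq_map] at hy
        simp at hy
        exact hy.symm
    rw [hx', hy'] at hxy
    rw [hx', hy']
    simp only at hxy ⊢
    by_contra hne
    apply h
    apply Prod.ext hxy
    revert hne
    cases (ξ.letter 0).2 <;> cases (ζ.letter 0).2 <;> simp
  rw [h1]
  unfold FreeGroup.norm
  rw [FreeGroup.toWord_mk, hred.reduce_eq]
  simp

theorem norm_bound (ξ ζ : Boundary N) (hne : ξ ≠ ζ) : ∃ k : ℕ, ∀ n m M : ℕ,
    ((ξ.pre n)⁻¹ * ζ.pre m).norm ≤ M → n ≤ M + k := by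
  have h1 : ∃ k, ξ.letter k ≠ ζ.letter k := by
    by_contra hcon
    push Not at hcon
    apply hne
    cases ξ; cases ζ
    congr
    funext k
    exact hcon k
  classical
  let k := Nat.find h1
  have hk : ξ.letter k ≠ ζ.letter k := Nat.find_spec h1
  have hlt : ∀ i < k, ξ.letter i = ζ.letter i := fun i hi => by
    by_contra h; exact Nat.find_min h1 hi h
  have hpre : ξ.pre k = ζ.pre k := by
    unfold pre
    congr 1
    apply List.map_congr_left
    intro i hi
    exact hlt i (List.mem_range.1 hi)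
  refine ⟨k, fun n m M hM => ?_⟩
  by_cases hm : m < k
  · have h2 : (ξ.pre n)⁻¹.norm ≤ ((ξ.pre n)⁻¹ * ζ.pre m).norm + (ζ.pre m)⁻¹.norm := by
      have := FreeGroup.norm_mul_le ((ξ.pre n)⁻¹ * ζ.pre m) (ζ.pre m)⁻¹
      rwa [mul_inv_cancel_right] at this
    rw [FreeGroup.norm_inv_eq, FreeGroup.norm_inv_eq, norm_pre, norm_pre] at h2
    omega
  · by_cases hn : n < k
    · omega
    · obtain ⟨i, rfl⟩ : ∃ i, n = k + i := ⟨n - k, by omega⟩
      obtain ⟨j, rfl⟩ : ∃ j, m = k + j := ⟨m - k, by omega⟩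
      rw [pre_add, pre_add, hpre, mul_inv_rev, mul_assoc, inv_mul_cancel_left] at hM
      rw [norm_inv_mul (ξ.drop k) (ζ.drop k) (by exact hk) i j] at hM
      omega

end Boundary

namespace OuterTree

open Boundary

variable {N : ℕ} (T : OuterTree N)

/-- along the orbit sequence of `ξ` one passes near every vertex of a ray towards `ξ` -/
theorem exists_near (ξ : Boundary N) (x : T.V) (L : ℝ)
    (hL : ∀ a : Fin N × Bool, T.dist x (FreeGroup.mk [a] • x) ≤ L) (d : T.graph.Dart)
    (hd : ξ ∈ T.shadow d) (hx : x ∉ T.halfTree d) :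
    ∃ n, T.dist (ξ.pre n • x) d.fst ≤ L := by
  classical
  have h1 : ∃ n, ξ.pre n • x ∈ T.halfTree d := (hd x).exists
  let n := Nat.find h1
  have h2 : ξ.pre n • x ∈ T.halfTree d := Nat.find_spec h1
  have h3 : n ≠ 0 := by
    intro h
    rw [h] at h2
    rw [pre_zero, one_smul] at h2
    exact hx h2
  obtain ⟨m, hm⟩ := Nat.exists_eq_succ_of_ne_zero h3
  have h4 : ξ.pre m • x ∉ T.halfTree d := Nat.find_min h1 (by omega)
  refine ⟨m, ?_⟩
  rw [hm] at h2
  have h5 : d ∈ T.sep (ξ.pre m • x) (ξ.pre (m + 1) • x) := ⟨h4, h2⟩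
  refine (T.dist_fst_le h5).trans ?_
  rw [ξ.pre_succ, mul_smul, dist_smul]
  exact hL _

theorem line_nonempty {ξ ζ : Boundary N} (hne : ξ ≠ ζ) : (T.line ξ ζ).Nonempty := by
  by_contra hcon
  rw [Set.not_nonempty_iff_eq_empty] at hcon
  have hdir : ∀ u, T.dir u ξ = T.dir u ζ := by
    intro u
    by_contra h
    have : u ∈ T.line ξ ζ := h
    rw [hcon] at this
    exact this
  obtain ⟨x⟩ := T.isTree.connected.nonempty
  obtain ⟨L, hL⟩ : ∃ L : ℝ, ∀ a : Fin N × Bool, T.dist x (FreeGroup.mk [a] • x) ≤ L := by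
    obtain ⟨L, hL⟩ := (Set.finite_range fun a : Fin N × Bool =>
      T.dist x (FreeGroup.mk [a] • x)).bddAbove
    exact ⟨L, fun a => hL ⟨a, rfl⟩⟩
  obtain ⟨M, hM⟩ := ((T.orbit_ball_finite x x (L + L)).image FreeGroup.norm).bddAbove
  obtain ⟨k, hk⟩ := norm_bound ξ ζ hne
  have key : ∀ i : ℕ, ∃ n ≤ M + k, T.dist (ξ.pre n • x) ((T.step ξ)^[i] x) ≤ L := by
    intro i
    have hx : x ∉ T.halfTree (T.dir ((T.step ξ)^[i] x) ξ) := by
      have := T.iterate_not_mem ξ 0 i x
      rwa [zero_add] at this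
    obtain ⟨n, hn⟩ := T.exists_near ξ x L hL _ (T.mem_shadow_dir _ _) hx
    obtain ⟨m, hm⟩ := T.exists_near ζ x L hL (T.dir ((T.step ξ)^[i] x) ξ) (by
      rw [hdir]; exact T.mem_shadow_dir _ _) hx
    rw [dir_fst] at hn hm
    refine ⟨n, ?_, hn⟩
    apply hk n m M
    apply hM
    refine ⟨(ξ.pre n)⁻¹ * ζ.pre m, ?_, rfl⟩
    show T.dist x (((ξ.pre n)⁻¹ * ζ.pre m) • x) ≤ L + L
    rw [← T.dist_smul (ξ.pre n), mul_smul, smul_inv_smul]
    have := T.dist_triangle (ξ.pre n • x) ((T.step ξ)^[i] x) (ζ.pre m • x)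
    have := T.dist_comm ((T.step ξ)^[i] x) (ζ.pre m • x)
    linarith
  have hfin : (⋃ n ∈ Finset.range (M + k + 1), {z : T.V | T.dist (ξ.pre n • x) z ≤ L}).Finite :=
    (Finset.range (M + k + 1)).finite_toSet.biUnion fun n _ => T.ball_finite _ _
  have hinf : (Set.range fun i : ℕ => (T.step ξ)^[i] x).Infinite :=
    Set.infinite_range_of_injective (T.iterate_injective ξ x)
  apply hinf
  apply hfin.subset
  rintro _ ⟨i, rfl⟩
  obtain ⟨n, hn, h⟩ := key i
  rw [Set.mem_iUnion₂]
  exact ⟨n, Finset.mem_range.2 (by omega), h⟩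

end OuterTree

end Pool.Agent.OuterSpace
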