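import Pool.Agent.Lib.MP_fee052_al.Count

open SimpleGraph MeasureTheory Filter Topology
open scoped ENNReal NNReal

namespace Pool.Agent.OuterSpace.OuterTree

variable {N : ℕ} (T S : OuterTree N)

/-- There is an equivariant map between the vertex sets of two trees. -/
theorem exists_equivariant : ∃ f : T.V → S.V, ∀ (g : FreeGroup (Fin N)) (u : T.V),
    f (g • u) = g • f u := by
  obtain ⟨y0⟩ := S.isTree.connected.nonempty
  choose c r hc using T.exists_repV
  have hr : ∀ (g : FreeGroup (Fin N)) (u : T.V), c (g • u) = g * c u := by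
    intro g u
    have hq : r (g • u) = r u := by
      have h1 : (Quotient.mk'' (g • u) : T.VQ) = Quotient.mk'' u := Quotient.sound' ⟨g, rfl⟩
      have h2 : ∀ v : T.V, r v = Quotient.mk'' v := by
        intro v
        have h3 : (Quotient.mk'' (c v • (r v).out) : T.VQ) = Quotient.mk'' (r v).out :=
          Quotient.sound' ⟨c v, rfl⟩
        rw [hc v] at h3
        rw [h3]
        exact (Quotient.out_eq' _).symm
      rw [h2, h2, h1]
    have h4 := hc (g • u)
    rw [hq] at h4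
    have h5 : g • u = (g * c u) • (r u).out := by rw [mul_smul, hc u]
    rw [h5] at h4
    have h6 : ((g * c u)⁻¹ * c (g • u)) • (r u).out = (r u).out := by
      rw [h5, mul_smul, h4, inv_smul_smul]
    have h7 := T.free _ _ h6
    rwa [inv_mul_eq_one, eq_comm] at h7
  refine ⟨fun u => c u • y0, fun g u => ?_⟩
  show c (g • u) • y0 = g • c u • y0
  rw [hr, mul_smul]

variable {T S}
variable {f : T.V → S.V} (hf : ∀ (g : FreeGroup (Fin N)) (u : T.V), f (g • u) = g • f u)

include hf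

theorem exists_lip : ∃ L : ℝ, 0 ≤ L ∧ ∀ d : T.graph.Dart, S.dist (f d.fst) (f d.snd) ≤ L := by
  obtain ⟨L, hL⟩ := (Set.finite_range fun q : T.DQ =>
    S.dist (f q.out.fst) (f q.out.snd)).bddAbove
  refine ⟨max L 0, le_max_right _ _, fun d => ?_⟩
  obtain ⟨g, q, hg⟩ := T.exists_rep d
  rw [← hg, smul_fst, smul_snd, hf, hf, dist_smul]
  exact (hL ⟨q, rfl⟩).trans (le_max_left _ _)

theorem preimage_ball_finite (y : S.V) (R : ℝ) : {u : T.V | S.dist y (f u) ≤ R}.Finite := by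
  have h1 : {u : T.V | S.dist y (f u) ≤ R} ⊆ ⋃ q : T.VQ, (fun g : FreeGroup (Fin N) => g • q.out) ''
      {g | S.dist y (g • f q.out) ≤ R} := by
    intro u hu
    obtain ⟨g, q, hg⟩ := T.exists_repV u
    rw [Set.mem_iUnion]
    refine ⟨q, g, ?_, hg⟩
    show S.dist y (g • f q.out) ≤ R
    rw [← hf, hg]
    exact hu
  apply Set.Finite.subset _ h1
  apply Set.finite_iUnion
  intro q
  exact (S.orbit_ball_finite y (f q.out) R).image _

omit hf in
theorem card_sepF_smul (g : FreeGroup (Fin N)) (x y : T.V) :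
    (T.sepF (g • x) (g • y)).card = (T.sepF x y).card := by
  refine Finset.card_bij (fun e _ => g⁻¹ • e) ?_ ?_ ?_
  · intro e he
    rw [mem_sepF] at he ⊢
    rwa [mem_halfTree_smul, mem_halfTree_smul, inv_inv]
  · intro e _ e' _ h
    exact smul_left_cancel _ h
  · intro e he
    refine ⟨g • e, ?_, inv_smul_smul g e⟩
    rw [mem_sepF] at he ⊢
    rwa [smul_mem_halfTree, smul_mem_halfTree]

theorem exists_proper (R : ℝ) : ∃ K : ℕ, ∀ x y : T.V, S.dist (f x) (f y) ≤ R →
    (T.sepF x y).card ≤ K := by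
  have h1 : ∀ q : T.VQ, ∃ K : ℕ, ∀ y : T.V, S.dist (f q.out) (f y) ≤ R →
      (T.sepF q.out y).card ≤ K := by
    intro q
    obtain ⟨K, hK⟩ := ((preimage_ball_finite hf (f q.out) R).image
      (fun y => (T.sepF q.out y).card)).bddAbove
    exact ⟨K, fun y hy => hK ⟨y, hy, rfl⟩⟩
  choose K hK using h1
  obtain ⟨K0, hK0⟩ := (Set.finite_range K).bddAbove
  refine ⟨K0, fun x y hxy => ?_⟩
  obtain ⟨g, q, hg⟩ := T.exists_repV x
  have h2 : y = g • (g⁻¹ • y) := (smul_inv_smul g y).symm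
  rw [← hg, h2, card_sepF_smul]
  apply (hK q _ _).trans (hK0 ⟨q, rfl⟩)
  rw [← hg, h2, hf, hf, dist_smul] at hxy
  exact hxy

omit hf in
/-- the coboundary in `T` of the preimage of a half tree of `S` is near the dart -/
theorem dist_of_cross (e : S.graph.Dart) (L : ℝ)
    (hL : ∀ d : T.graph.Dart, S.dist (f d.fst) (f d.snd) ≤ L) (d : T.graph.Dart)
    (hd : ¬ (f d.fst ∈ S.halfTree e ↔ f d.snd ∈ S.halfTree e)) :
    S.dist e.fst (f d.fst) ≤ L + S.dist e.fst e.snd := by
  by_cases h1 : f d.fst ∈ S.halfTree e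
  · have h2 : f d.snd ∉ S.halfTree e := fun h => hd ⟨fun _ => h, fun _ => h1⟩
    have h3 : e.symm ∈ S.sep (f d.fst) (f d.snd) := by
      rw [symm_mem_sep_iff]; exact ⟨h2, h1⟩
    have h4 := S.dist_fst_le h3
    have h5 : e.symm.fst = e.snd := rfl
    rw [h5] at h4
    have h6 := S.dist_triangle e.fst e.snd (f d.fst)
    have h7 := S.dist_comm e.snd (f d.fst)
    linarith [hL d]
  · have h2 : f d.snd ∈ S.halfTree e := by
      by_contra h; exact hd ⟨fun h' => absurd h' h1, fun h' => absurd h' h⟩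
    have h3 : e ∈ S.sep (f d.fst) (f d.snd) := ⟨h1, h2⟩
    have h4 := S.dist_fst_le h3
    have h7 := S.dist_comm e.fst (f d.fst)
    linarith [hL d, S.dist_nonneg e.fst e.snd]

theorem coboundary_finite (e : S.graph.Dart) :
    {d : T.graph.Dart | ¬ (f d.fst ∈ S.halfTree e ↔ f d.snd ∈ S.halfTree e)}.Finite := by
  obtain ⟨L, _, hL⟩ := exists_lip hf
  have h1 := preimage_ball_finite hf e.fst (L + S.dist e.fst e.snd)
  have h2 : (⋃ u ∈ {u : T.V | S.dist e.fst (f u) ≤ L + S.dist e.fst e.snd},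
      {d : T.graph.Dart | d.fst = u}).Finite := h1.biUnion fun u _ => T.darts_at_finite u
  apply h2.subset
  intro d hd
  rw [Set.mem_iUnion₂]
  exact ⟨d.fst, dist_of_cross e L hL d hd, rfl⟩

theorem exists_crossBound (e : S.graph.Dart) : ∃ K : ℕ, ∀ d d' : T.graph.Dart,
    ¬ (f d.fst ∈ S.halfTree e ↔ f d.snd ∈ S.halfTree e) →
    ¬ (f d'.fst ∈ S.halfTree e ↔ f d'.snd ∈ S.halfTree e) →
    (T.sepF d.fst d'.fst).card ≤ K := by
  obtain ⟨L, _, hL⟩ := exists_lip hf
  obtain ⟨K, hK⟩ := exists_proper hf (2 * (L + S.dist e.fst e.snd))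
  refine ⟨K, fun d d' hd hd' => hK _ _ ?_⟩
  have h1 := dist_of_cross e L hL d hd
  have h2 := dist_of_cross e L hL d' hd'
  have h3 := S.dist_triangle (f d.fst) e.fst (f d'.fst)
  have h4 := S.dist_comm e.fst (f d.fst)
  linarith

theorem eventually_side_iff (e : S.graph.Dart) (x : T.V) (ζ : Boundary N) :
    ∀ᶠ n in atTop, (f (ζ.pre n • x) ∈ S.halfTree e ↔ ζ ∈ S.shadow e) := by
  obtain ⟨n0, hn0⟩ := S.exists_shadow_bound e (f x)
  filter_upwards [eventually_ge_atTop n0] with n hn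
  rw [hf, hn0 ζ n hn]

open Classical in
/-- The key counting estimate. -/
theorem exists_count (e : S.graph.Dart) : ∃ (K : ℕ) (B : Set T.V), B.Finite ∧
    ∀ (ξ ζ : Boundary N) (n : ℕ), (crossSet T (fun u => f u ∈ S.halfTree e) n ξ ζ).encard ≤
      ((if (ξ, ζ) ∈ S.cyl e then n else 0) +
        (if (T.line ξ ζ ∩ B).Nonempty then 2 * K else 0) : ℕ) := by
  obtain ⟨K, hK⟩ := exists_crossBound hf e
  have hfin := coboundary_finite hf e
  refine ⟨K, (fun d : T.graph.Dart => d.fst) ''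
    {d : T.graph.Dart | ¬ (f d.fst ∈ S.halfTree e ↔ f d.snd ∈ S.halfTree e)},
    hfin.image _, fun ξ ζ n => ?_⟩
  obtain ⟨x0⟩ := T.isTree.connected.nonempty
  have h1 := encard_crossSet_le (fun u => f u ∈ S.halfTree e) hfin K hK x0 (ξ ∈ S.shadow e)
    (ζ ∈ S.shadow e) (eventually_side_iff hf e x0 ξ) (eventually_side_iff hf e x0 ζ) n
  refine h1.trans ?_
  have h2 : (if ¬ ξ ∈ S.shadow e ∧ ζ ∈ S.shadow e then n else 0) =
      (if (ξ, ζ) ∈ S.cyl e then n else 0) := by
    congr 1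
    unfold cyl
    rw [Set.mem_prod, mem_shadow_symm_iff]
  have h3 : (if ∃ d : T.graph.Dart, ¬ (f d.fst ∈ S.halfTree e ↔ f d.snd ∈ S.halfTree e) ∧
      d.fst ∈ T.line ξ ζ then 2 * K else 0) = (if (T.line ξ ζ ∩ (fun d : T.graph.Dart => d.fst) ''
    {d : T.graph.Dart | ¬ (f d.fst ∈ S.halfTree e ↔ f d.snd ∈ S.halfTree e)}).Nonempty
      then 2 * K else 0) := by
    congr 1
    apply propext
    constructor
    · rintro ⟨d, hd, hl⟩
      exact ⟨d.fst, hl, d, hd, rfl⟩
    · rintro ⟨_, hl, d, hd, rfl⟩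
      exact ⟨d, hd, hl⟩
  rw [h2, h3]

end Pool.Agent.OuterSpace.OuterTree
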