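import Pool.Agent.Lib.MP_fee052_al.Lines

open SimpleGraph MeasureTheory Filter Topology
open scoped ENNReal NNReal

namespace Pool.Agent.OuterSpace.OuterTree

variable {N : ℕ} {T : OuterTree N} {ξ ζ : Boundary N}

theorem par_reverse (u : T.line ξ ζ) (k : ℤ) :
    T.par (⟨u, T.mem_line_comm.1 u.2⟩ : T.line ζ ξ) k = T.par u (-k) := by
  rcases le_total 0 k with h | h
  · obtain ⟨n, rfl⟩ := Int.eq_ofNat_of_zero_le h
    have h1 := par_add_nat (⟨u, T.mem_line_comm.1 u.2⟩ : T.line ζ ξ) 0 n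
    have h2 := par_sub_nat u 0 n
    rw [zero_add, par_zero] at h1
    rw [zero_sub, par_zero] at h2
    rw [h1, h2]
  · obtain ⟨n, hn⟩ := Int.eq_ofNat_of_zero_le (neg_nonneg.2 h)
    have hk : k = -n := by omega
    subst hk
    have h1 := par_sub_nat (⟨u, T.mem_line_comm.1 u.2⟩ : T.line ζ ξ) 0 n
    have h2 := par_add_nat u 0 n
    rw [zero_sub, par_zero] at h1
    rw [zero_add, par_zero] at h2
    rw [h1, neg_neg, h2]

/-- A set of vertices with finite coboundary is constant on the half trees far out on a ray. -/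
theorem side_eventually (χ : T.V → Prop) (hfin : {d : T.graph.Dart | ¬ (χ d.fst ↔ χ d.snd)}.Finite)
    (u : T.line ξ ζ) : ∃ i0 : ℤ, ∀ i, i0 ≤ i → ∀ z ∈ T.halfTree (dpar u i),
      (χ z ↔ χ (dpar u i).snd) := by
  choose b hb using fun z : T.V => exists_not_mem_halfTree u z
  obtain ⟨i0, hi0⟩ := (hfin.image (fun d => b d.fst)).bddAbove
  refine ⟨i0, fun i hi z hz => ?_⟩
  have hno : ∀ d : T.graph.Dart, d.fst ∈ T.halfTree (dpar u i) → (χ d.fst ↔ χ d.snd) := by
    intro d hd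
    by_contra hcon
    exact hb d.fst i ((hi0 ⟨d, hcon, rfl⟩).trans hi) hd
  have key : ∀ {a c : T.V} (p : (T.graph.deleteEdges {(dpar u i).edge}).Walk a c),
      a ∈ T.halfTree (dpar u i) → (χ c ↔ χ a) := by
    intro a c p
    induction p with
    | nil => intro _; exact Iff.rfl
    | @cons a b' c hab p ih =>
      intro ha
      have hb' : b' ∈ T.halfTree (dpar u i) := by
        unfold halfTree at ha ⊢
        exact ha.trans hab.reachable
      rw [ih hb']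
      have hab' : T.graph.Adj a b' := (deleteEdges_adj.1 hab).1
      exact (hno ⟨(a, b'), hab'⟩ ha).symm
  obtain ⟨p⟩ := hz
  exact key p (T.snd_mem_halfTree _)

theorem side_right (χ : T.V → Prop) (hfin : {d : T.graph.Dart | ¬ (χ d.fst ↔ χ d.snd)}.Finite)
    (u : T.line ξ ζ) (α : Prop) (x : T.V) (hx : ∀ᶠ n in atTop, (χ (ζ.pre n • x) ↔ α)) :
    ∃ i0 : ℤ, ∀ i, i0 ≤ i → (χ (T.par u i) ↔ α) := by
  obtain ⟨i0, hi0⟩ := side_eventually χ hfin u
  refine ⟨i0 + 1, fun i hi => ?_⟩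
  have h1 := mem_shadow_dpar u (i - 1) x
  obtain ⟨n, h2, h3⟩ := (h1.and hx).exists
  have h4 := hi0 (i - 1) (by omega) _ h2
  rw [dpar_snd, sub_add_cancel] at h4
  rw [← h4, h3]

theorem side_left (χ : T.V → Prop) (hfin : {d : T.graph.Dart | ¬ (χ d.fst ↔ χ d.snd)}.Finite)
    (u : T.line ξ ζ) (α : Prop) (x : T.V) (hx : ∀ᶠ n in atTop, (χ (ξ.pre n • x) ↔ α)) :
    ∃ i0 : ℤ, ∀ i, i ≤ i0 → (χ (T.par u i) ↔ α) := by
  obtain ⟨i0, hi0⟩ := side_right χ hfin (⟨u, T.mem_line_comm.1 u.2⟩ : T.line ζ ξ) α x hx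
  refine ⟨-i0, fun i hi => ?_⟩
  have h1 := hi0 (-i) (by omega)
  rwa [par_reverse, neg_neg] at h1

/-- The vertices `u` of the line for which `χ` fails at `u` but holds `n` steps later. -/
def crossSet (T : OuterTree N) (χ : T.V → Prop) (n : ℕ) (ξ ζ : Boundary N) : Set T.V :=
  {u | u ∈ T.line ξ ζ ∧ ¬ χ u ∧ χ ((T.step ζ)^[n] u)}

theorem encard_crossSet_le (χ : T.V → Prop)
    (hfin : {d : T.graph.Dart | ¬ (χ d.fst ↔ χ d.snd)}.Finite) (K : ℕ)
    (hK : ∀ d d' : T.graph.Dart, ¬ (χ d.fst ↔ χ d.snd) → ¬ (χ d'.fst ↔ χ d'.snd) →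
      (T.sepF d.fst d'.fst).card ≤ K) (x : T.V) (αm αp : Prop)
    (hm : ∀ᶠ n in atTop, (χ (ξ.pre n • x) ↔ αm)) (hp : ∀ᶠ n in atTop, (χ (ζ.pre n • x) ↔ αp))
    (n : ℕ) [Decidable (¬ αm ∧ αp)]
    [Decidable (∃ d : T.graph.Dart, ¬ (χ d.fst ↔ χ d.snd) ∧ d.fst ∈ T.line ξ ζ)] :
    (crossSet T χ n ξ ζ).encard ≤ ((if ¬ αm ∧ αp then n else 0) +
      (if ∃ d : T.graph.Dart, ¬ (χ d.fst ↔ χ d.snd) ∧ d.fst ∈ T.line ξ ζ then 2 * K else 0) : ℕ) := by
  classical
  by_cases hne : (T.line ξ ζ).Nonempty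
  · obtain ⟨u0, hu0⟩ := hne
    let u : T.line ξ ζ := ⟨u0, hu0⟩
    have hsub : crossSet T χ n ξ ζ ⊆
        (T.par u) '' {i : ℤ | ¬ χ (T.par u i) ∧ χ (T.par u (i + n))} := by
      rintro v ⟨h1, h2, h3⟩
      obtain ⟨k, hk⟩ := exists_par v h1 u
      refine ⟨k, ⟨?_, ?_⟩, hk⟩
      · rw [hk]; exact h2
      · rw [par_add_nat, hk]; exact h3
    have hK' : ∀ i j : ℤ, ¬ (χ (T.par u i) ↔ χ (T.par u (i + 1))) →
        ¬ (χ (T.par u j) ↔ χ (T.par u (j + 1))) → |i - j| ≤ K := by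
      have aux : ∀ i j : ℤ, i ≤ j → ¬ (χ (T.par u i) ↔ χ (T.par u (i + 1))) →
          ¬ (χ (T.par u j) ↔ χ (T.par u (j + 1))) → |i - j| ≤ K := by
        intro i j hij hi hj
        have h1 := hK (dpar u i) (dpar u j) (by rwa [dpar_fst, dpar_snd])
          (by rwa [dpar_fst, dpar_snd])
        rw [dpar_fst, dpar_fst] at h1
        have h2 := le_card_sepF u hij
        rw [abs_le]
        omega
      intro i j hi hj
      rcases le_total i j with h | h
      · exact aux i j h hi hj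
      · rw [abs_sub_comm]; exact aux j i h hj hi
    have h1 := int_count (fun i => χ (T.par u i)) K αm αp hK' (side_right χ hfin u αp x hp)
      (side_left χ hfin u αm x hm) n
    refine ((Set.encard_le_encard hsub).trans (Set.encard_image_le _ _)).trans (h1.trans ?_)
    have h2 : (if ∃ i, ¬ (χ (T.par u i) ↔ χ (T.par u (i + 1))) then 2 * K else 0) ≤
        (if ∃ d : T.graph.Dart, ¬ (χ d.fst ↔ χ d.snd) ∧ d.fst ∈ T.line ξ ζ then 2 * K else 0) := by
      split_ifs with h3 h4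
      · exact le_rfl
      · exfalso
        apply h4
        obtain ⟨i, hi⟩ := h3
        exact ⟨dpar u i, by rwa [dpar_fst, dpar_snd], by rw [dpar_fst]; exact par_mem u i⟩
      · exact Nat.zero_le _
      · exact le_rfl
    exact_mod_cast Nat.add_le_add_left h2 _
  · have : crossSet T χ n ξ ζ = ∅ := by
      rw [Set.eq_empty_iff_forall_notMem]
      rintro v ⟨h1, _⟩
      exact hne ⟨v, h1⟩
    rw [this, Set.encard_empty]
    exact bot_le

theorem le_encard_crossSet (e : T.graph.Dart) (h : (ξ, ζ) ∈ T.cyl e) (n : ℕ) :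
    (n : ℕ∞) ≤ (crossSet T (fun u => u ∈ T.halfTree e) n ξ ζ).encard := by
  obtain ⟨h1, h2⟩ := h
  have hd : T.dir e.fst ζ = e := T.dir_eq rfl h2
  have hu : e.fst ∈ T.line ξ ζ := by
    intro h3
    rw [hd] at h3
    rw [mem_shadow_symm_iff] at h1
    apply h1
    rw [← h3]
    exact T.mem_shadow_dir _ _
  let u : T.line ξ ζ := ⟨e.fst, hu⟩
  have hdp : dpar u 0 = e := by
    unfold dpar
    rw [par_zero]
    exact hd
  have hsub : (T.par u) '' ((Finset.Ioc (-(n : ℤ)) 0 : Finset ℤ) : Set ℤ) ⊆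
      crossSet T (fun u => u ∈ T.halfTree e) n ξ ζ := by
    rintro v ⟨k, hk, rfl⟩
    rw [Finset.coe_Ioc, Set.mem_Ioc] at hk
    refine ⟨par_mem u k, ?_, ?_⟩
    · rw [← hdp]; exact par_not_mem_halfTree u hk.2
    · show _ ∈ T.halfTree e
      rw [← par_add_nat]
      have h5 : T.par u (k + n) ∈ T.halfTree (dpar u 0) := par_mem_halfTree u (by omega)
      rw [hdp] at h5
      exact h5
  have h3 := Set.encard_le_encard hsub
  rw [(par_injective u).encard_image, Set.encard_coe_eq_coe_finsetCard, Int.card_Ioc] at h3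
  have h4 : (0 - -(n : ℤ)).toNat = n := by omega
  rwa [h4] at h3

end Pool.Agent.OuterSpace.OuterTree
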