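import Mathlib

/-!
# Outer space, the boundary of a free group, and Patterson-Sullivan currents

Basic definitions used for the problem on the Patterson-Sullivan intersection function.
-/

open MeasureTheory Filter Topology
open scoped ENNReal NNReal

namespace Pool.Agent.OuterSpace

/-- The Gromov boundary `∂F_N` of the free group `F_N = FreeGroup (Fin N)`, as the space of
infinite reduced words in the letters `a_i^{±1}`: the pair `(i, true)` stands for the generator
`a_i`, the pair `(i, false)` for its inverse, and a word is reduced when no letter is followed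
by its inverse. -/
@[ext]
structure Boundary (N : ℕ) where
  /-- the letters of the word -/
  letter : ℕ → Fin N × Bool
  /-- no letter is followed by its inverse -/
  reduced : ∀ n, (letter n).1 = (letter (n + 1)).1 → (letter n).2 = (letter (n + 1)).2

namespace Boundary

variable {N : ℕ}

/-- The topology of pointwise convergence of infinite words. -/
instance : TopologicalSpace (Boundary N) := TopologicalSpace.induced letter inferInstance

/-- The Borel sigma-algebra. -/
instance : MeasurableSpace (Boundary N) := borel _

instance : BorelSpace (Boundary N) := ⟨rfl⟩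

/-- The element of `F_N` spelled by the first `n` letters of the infinite word `ξ`. -/
def pre (ξ : Boundary N) (n : ℕ) : FreeGroup (Fin N) :=
  FreeGroup.mk ((List.range n).map ξ.letter)

/-- The infinite word `ξ` with the letter `a` put in front (if the outcome is reduced). -/
def cons (a : Fin N × Bool) (ξ : Boundary N)
    (h : a.1 = (ξ.letter 0).1 → a.2 = (ξ.letter 0).2) : Boundary N where
  letter n := Nat.casesOn n a fun k => ξ.letter k
  reduced n := Nat.casesOn n h fun k => ξ.reduced k

/-- The infinite word `ξ` with the first letter removed. -/
def tail (ξ : Boundary N) : Boundary N where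
  letter n := ξ.letter (n + 1)
  reduced n := ξ.reduced (n + 1)

/-- Left multiplication of the infinite reduced word `ξ` by the letter `a`: put `a` in front of
`ξ` if the outcome is reduced, and otherwise cancel `a` against the first letter of `ξ`. -/
def letterMul (a : Fin N × Bool) (ξ : Boundary N) : Boundary N :=
  if h : a.1 = (ξ.letter 0).1 → a.2 = (ξ.letter 0).2 then cons a ξ h else tail ξ

theorem letterMul_letterMul_inv (i : Fin N) (b : Bool) (ξ : Boundary N) :
    letterMul (i, b) (letterMul (i, !b) ξ) = ξ := by
  by_cases h : i = (ξ.letter 0).1 → (!b) = (ξ.letter 0).2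
  · have h1 : letterMul (i, !b) ξ = cons (i, !b) ξ h := dif_pos h
    rw [h1]
    unfold letterMul
    rw [dif_neg (by simp [cons])]
    rfl
  · have h1 : letterMul (i, !b) ξ = tail ξ := dif_neg h
    rw [h1]
    have h2 : i = (ξ.letter 0).1 ∧ b = (ξ.letter 0).2 := by
      push Not at h
      refine ⟨h.1, ?_⟩
      have := h.2
      revert this
      cases b <;> cases (ξ.letter 0).2 <;> simp
    have h3 : i = (ξ.letter 1).1 → b = (ξ.letter 1).2 := by
      intro hi
      rw [h2.2]
      exact ξ.reduced 0 (h2.1 ▸ hi)
    unfold letterMul
    rw [dif_pos (by exact h3)]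
    ext n
    · cases n with
      | zero => exact congrArg Fin.val h2.1
      | succ k => rfl
    · cases n with
      | zero => exact h2.2
      | succ k => rfl

/-- The permutation of `∂F_N` given by left multiplication by the generator `a_i`. -/
def genPerm (i : Fin N) : Equiv.Perm (Boundary N) where
  toFun := letterMul (i, true)
  invFun := letterMul (i, false)
  left_inv := fun ξ => letterMul_letterMul_inv i false ξ
  right_inv := fun ξ => letterMul_letterMul_inv i true ξ

/-- The left action of `F_N` on its boundary `∂F_N`. -/
instance : MulAction (FreeGroup (Fin N)) (Boundary N) :=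
  MulAction.compHom (Boundary N) (FreeGroup.lift genPerm : FreeGroup (Fin N) →* _)

end Boundary

/-- A point `T` of (unprojectivized) outer space `cv_N`: a minimal free isometric action of
`F_N = FreeGroup (Fin N)` on a metric simplicial tree. The tree is given by its vertex set `V`,
its edges (a graph on `V` that is a tree) and the lengths of its edges. -/
structure OuterTree (N : ℕ) where
  /-- the vertices of the tree -/
  V : Type
  /-- the tree, as a graph -/
  graph : SimpleGraph V
  isTree : graph.IsTree
  /-- the length of an edge -/
  len : Sym2 V → ℝ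
  len_pos : ∀ e ∈ graph.edgeSet, 0 < len e
  /-- the action of `F_N` on the vertices -/
  [act : MulAction (FreeGroup (Fin N)) V]
  adj_smul : ∀ (g : FreeGroup (Fin N)) (u v : V), graph.Adj u v → graph.Adj (g • u) (g • v)
  len_smul : ∀ (g : FreeGroup (Fin N)) (u v : V), graph.Adj u v →
    len s(g • u, g • v) = len s(u, v)
  /-- the action is free -/
  free : ∀ (g : FreeGroup (Fin N)) (v : V), g • v = v → g = 1
  /-- the action is minimal: there is no proper `F_N`-invariant subtree -/
  minimal : ∀ A : Set V, (∀ g : FreeGroup (Fin N), ∀ v ∈ A, g • v ∈ A) →
    (graph.induce A).Connected → A = Set.univ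

namespace OuterTree

attribute [instance] OuterTree.act

variable {N : ℕ} (T : OuterTree N)

/-- The distance of two vertices of the metric tree `T`: the infimum of the lengths of the
edge paths from `x` to `y`. -/
noncomputable def dist (x y : T.V) : ℝ :=
  ⨅ p : T.graph.Walk x y, (p.edges.map T.len).sum

/-- The critical exponent `h_T` of the action of `F_N` on `T`. -/
noncomputable def critExp : ℝ :=
  sInf {s : ℝ | ∀ x : T.V, Summable fun g : FreeGroup (Fin N) => Real.exp (-s * T.dist x (g • x))}

/-- `F_N` acts on the oriented edges (darts) of `T`. -/
instance : MulAction (FreeGroup (Fin N)) T.graph.Dart where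
  smul g d := ⟨(g • d.fst, g • d.snd), T.adj_smul g _ _ d.adj⟩
  one_smul d := by
    apply SimpleGraph.Dart.ext
    show ((1 : FreeGroup (Fin N)) • d.fst, (1 : FreeGroup (Fin N)) • d.snd) = _
    simp
  mul_smul g h d := by
    apply SimpleGraph.Dart.ext
    show ((g * h) • d.fst, (g * h) • d.snd) = (g • (h • d.fst), g • (h • d.snd))
    simp [mul_smul]

/-- For an oriented edge `e` of `T`, the half tree at the head of `e`: the component that
contains the head of `e` of the tree with the (open) edge `e` removed. -/
def halfTree (e : T.graph.Dart) : Set T.V :=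
  {z | (T.graph.deleteEdges {e.edge}).Reachable e.snd z}

/-- For an oriented edge `e` of `T`, the set of the boundary points `ξ ∈ ∂F_N = ∂T` that lie
beyond `e`: for every vertex `x` the points `ξ_n x` of the tree, where `ξ_n` is the product of
the first `n` letters of `ξ`, are eventually in the half tree at the head of `e`. -/
def shadow (e : T.graph.Dart) : Set (Boundary N) :=
  {ξ | ∀ x : T.V, ∀ᶠ n in atTop, ξ.pre n • x ∈ T.halfTree e}

/-- The cylinder of the oriented edge `e`: the pairs `(ξ, ζ)` such that the oriented geodesic
of `T` from `ξ` to `ζ` runs over the oriented edge `e`. -/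
def cyl (e : T.graph.Dart) : Set (Boundary N × Boundary N) :=
  T.shadow e.symm ×ˢ T.shadow e

/-- The intersection form `⟨T, μ⟩`: the sum over the (unoriented) edges `e` of the quotient
graph `T / F_N` of the length of `e` times the `μ`-measure of the set of the geodesics that run
over a lift of `e` with a fixed orientation. It is written as one half of the sum over the
`F_N`-orbits of oriented edges of `T`. -/
noncomputable def pairing (μ : Measure (Boundary N × Boundary N)) : ℝ≥0∞ :=
  (∑' o : MulAction.orbitRel.Quotient (FreeGroup (Fin N)) T.graph.Dart,
    ENNReal.ofReal (T.len o.out.edge) * μ (T.cyl o.out)) / 2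

/-- The Busemann function `β_ξ(x, y) = lim_{z → ξ} (d(x, z) - d(y, z))`. -/
noncomputable def busemann (ξ : Boundary N) (x y : T.V) : ℝ :=
  limUnder atTop fun n => T.dist x (ξ.pre n • x) - T.dist y (ξ.pre n • x)

/-- The Gromov product `(ξ | ζ)_x` of two distinct boundary points, computed in `T`. -/
noncomputable def gromov (x : T.V) (ξ ζ : Boundary N) : ℝ :=
  limUnder atTop fun n =>
    (T.dist x (ξ.pre n • x) + T.dist x (ζ.pre n • x) - T.dist (ξ.pre n • x) (ζ.pre n • x)) / 2

/-- `ν` is a family of Patterson-Sullivan measures for `T`: the nonzero finite measures `ν x` on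
`∂F_N = ∂T` based at the vertices `x` of `T` are equivariant and transform under a change of the
base point by the Busemann function with exponent the critical exponent `h_T`. -/
structure IsPattersonSullivan (ν : T.V → Measure (Boundary N)) : Prop where
  finite : ∀ x, IsFiniteMeasure (ν x)
  ne_zero : ∀ x, ν x ≠ 0
  map_smul : ∀ (g : FreeGroup (Fin N)) (x : T.V), (ν x).map (fun ξ => g • ξ) = ν (g • x)
  conformal : ∀ x y : T.V, ν y =
    (ν x).withDensity fun ξ => ENNReal.ofReal (Real.exp (-T.critExp * T.busemann ξ y x))

/-- `μ` is the Patterson-Sullivan current `μ_T` of `T`: the measure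
`e^{2 h_T (ξ | ζ)_x} dν_x(ξ) dν_x(ζ)` on the set of pairs of distinct boundary points, scaled
so that `⟨T, μ⟩ = 1`. -/
def IsPSCurrent (μ : Measure (Boundary N × Boundary N)) : Prop :=
  (∃ (ν : T.V → Measure (Boundary N)) (x : T.V) (c : ℝ≥0), T.IsPattersonSullivan ν ∧
    μ = c • (((ν x).prod (ν x)).restrict {p | p.1 ≠ p.2}).withDensity
      fun p => ENNReal.ofReal (Real.exp (2 * T.critExp * T.gromov x p.1 p.2))) ∧
  T.pairing μ = 1

end OuterTree

end Pool.Agent.OuterSpace
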