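import Pool.Agent.Lib.MP_fee052_al.Stretch

open SimpleGraph MeasureTheory Filter Topology
open scoped ENNReal NNReal

namespace Pool.Agent.OuterSpace

namespace OuterTree

open Boundary

variable {N : ℕ} {T S : OuterTree N}

/-- The cylinder of a dart of `S` is covered by the lines of `T` through finitely many vertices. -/
theorem cyl_subset {f : T.V → S.V}
    (hf : ∀ (g : FreeGroup (Fin N)) (u : T.V), f (g • u) = g • f u) (e : S.graph.Dart) :
    ∃ B : Set T.V, B.Finite ∧ S.cyl e ⊆ ⋃ b ∈ B, T.lineSet b := by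
  have hfin := coboundary_finite hf e
  refine ⟨(fun d : T.graph.Dart => d.fst) ''
    {d : T.graph.Dart | ¬ (f d.fst ∈ S.halfTree e ↔ f d.snd ∈ S.halfTree e)},
    hfin.image _, ?_⟩
  rintro ⟨ξ, ζ⟩ ⟨h1, h2⟩
  have h1' : ξ ∉ S.shadow e := (S.mem_shadow_symm_iff e ξ).1 h1
  have h2' : ζ ∈ S.shadow e := h2
  have hne : ξ ≠ ζ := by
    rintro rfl
    exact h1' h2'
  obtain ⟨u0, hu0⟩ := T.line_nonempty hne
  let u : T.line ξ ζ := ⟨u0, hu0⟩
  obtain ⟨x0⟩ := T.isTree.connected.nonempty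
  obtain ⟨i1, hi1⟩ := side_right (fun v => f v ∈ S.halfTree e) hfin u (ζ ∈ S.shadow e) x0
    (eventually_side_iff hf e x0 ζ)
  obtain ⟨i0, hi0⟩ := side_left (fun v => f v ∈ S.halfTree e) hfin u (ξ ∈ S.shadow e) x0
    (eventually_side_iff hf e x0 ξ)
  have hcross : ∃ i : ℤ, ¬ (f (T.par u i) ∈ S.halfTree e ↔ f (T.par u (i + 1)) ∈ S.halfTree e) := by
    by_contra hcon
    push Not at hcon
    have hall : ∀ (m : ℕ) (i : ℤ), (f (T.par u i) ∈ S.halfTree e ↔
        f (T.par u (i + m)) ∈ S.halfTree e) := by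
      intro m
      induction m with
      | zero => intro i; simp
      | succ m ih =>
        intro i
        rw [ih i, Nat.cast_succ, ← add_assoc]
        exact hcon _
    have h3 := hall (i1 - min i0 i1).toNat (min i0 i1)
    have h4 : min i0 i1 + ((i1 - min i0 i1).toNat : ℤ) = i1 := by
      have : min i0 i1 ≤ i1 := min_le_right _ _
      omega
    rw [h4] at h3
    have h5 := hi0 (min i0 i1) (min_le_left _ _)
    have h6 := hi1 i1 le_rfl
    exact h1' (h5.1 (h3.2 (h6.2 h2')))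
  obtain ⟨i, hi⟩ := hcross
  rw [Set.mem_iUnion₂]
  refine ⟨(dpar u i).fst, ⟨dpar u i, ?_, rfl⟩, ?_⟩
  · show ¬ _
    rw [dpar_fst, dpar_snd]
    exact hi
  · rw [dpar_fst]
    exact par_mem u i

theorem pairing_ne_top {μ : Measure (Boundary N × Boundary N)}
    (hfin : ∀ u : T.V, μ (T.lineSet u) ≠ ∞) : S.pairing μ ≠ ∞ := by
  classical
  obtain ⟨f, hf⟩ := exists_equivariant T S
  unfold pairing
  apply ENNReal.div_ne_top _ (by simp)
  have := Fintype.ofFinite S.DQ
  rw [tsum_fintype]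
  apply ENNReal.sum_ne_top.2
  intro q _
  apply ENNReal.mul_ne_top ENNReal.ofReal_ne_top
  obtain ⟨B, hB, hsub⟩ := cyl_subset hf q.out
  have h1 : μ (⋃ b ∈ B, T.lineSet b) ≤ ∑ b ∈ hB.toFinset, μ (T.lineSet b) := by
    have : (⋃ b ∈ B, T.lineSet b) = ⋃ b ∈ hB.toFinset, T.lineSet b := by simp
    rw [this]
    exact measure_biUnion_finset_le _ _
  exact ne_top_of_le_ne_top (ENNReal.sum_ne_top.2 fun b _ => hfin b) ((measure_mono hsub).trans h1)

theorem psCurrent_lineSet_ne_top {μ : Measure (Boundary N × Boundary N)} (hμ : T.IsPSCurrent μ)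
    (u : T.V) : μ (T.lineSet u) ≠ ∞ := by
  obtain ⟨⟨νT, x, c, hT, rfl⟩, _⟩ := hμ
  have hfu : IsFiniteMeasure (νT u) := hT.finite u
  rw [Measure.coe_nnreal_smul_apply]
  have h1 := withDensity_lineSet hT x u (measurableSet_lineSet u) subset_rfl
  unfold psDens at h1
  rw [h1]
  exact ENNReal.mul_ne_top ENNReal.coe_ne_top (measure_ne_top _ _)

theorem pairing_psCurrent_ne_top {μ : Measure (Boundary N × Boundary N)} (hμ : T.IsPSCurrent μ) :
    S.pairing μ ≠ ∞ :=
  pairing_ne_top fun u => psCurrent_lineSet_ne_top hμ u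

/-- The Patterson-Sullivan intersection function is at least one (real-valued form). -/
theorem one_le_intersection_real (hN : 2 ≤ N) {μT μS : Measure (Boundary N × Boundary N)}
    (hμT : T.IsPSCurrent μT) (hμS : S.IsPSCurrent μS) :
    1 ≤ (S.pairing μT).toReal * (T.pairing μS).toReal := by
  have h1 := one_le_intersection hN hμT hμS
  rw [← ENNReal.toReal_mul]
  have h2 : S.pairing μT * T.pairing μS ≠ ∞ :=
    ENNReal.mul_ne_top (pairing_psCurrent_ne_top hμT) (pairing_psCurrent_ne_top hμS)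
  rw [← ENNReal.toReal_one]
  exact ENNReal.toReal_mono h2 h1

end OuterTree

end Pool.Agent.OuterSpace
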