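import Pool.Agent.Lib.MP_fee052_al.Action

open SimpleGraph MeasureTheory Filter Topology
open scoped ENNReal NNReal

namespace Pool.Agent.OuterSpace.OuterTree

variable {N : ℕ} (T : OuterTree N)

theorem exists_dir (u : T.V) (ζ : Boundary N) : ∃ d : T.graph.Dart, d.fst = u ∧ ζ ∈ T.shadow d := by
  by_contra hcon
  push Not at hcon
  choose n0 hn0 using fun d : T.graph.Dart => T.exists_shadow_bound d u
  have hfin := (T.darts_at_finite u).image n0
  obtain ⟨n1, hn1⟩ := hfin.bddAbove
  have hne : u ≠ ζ.pre (n1 + 1) • u := by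
    intro h
    have h1 := T.free _ _ h.symm
    have h2 := ζ.norm_pre (n1 + 1)
    rw [h1, FreeGroup.norm_one] at h2
    omega
  obtain ⟨d, hd, hz⟩ := T.exists_dart hne
  have h1 : n0 d ≤ n1 + 1 := (hn1 ⟨d, hd, rfl⟩).trans (Nat.le_succ _)
  exact hcon d hd ((hn0 d ζ _ h1).2 hz)

theorem shadow_unique {d d' : T.graph.Dart} (h : d.fst = d'.fst) {ζ : Boundary N}
    (hz : ζ ∈ T.shadow d) (hz' : ζ ∈ T.shadow d') : d = d' := by
  obtain ⟨n, h1, h2⟩ := ((hz d.fst).and (hz' d.fst)).exists
  exact T.dart_unique h h1 h2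

/-- The dart at `u` in the direction of `ζ`. -/
noncomputable def dir (u : T.V) (ζ : Boundary N) : T.graph.Dart := (T.exists_dir u ζ).choose

@[simp] theorem dir_fst (u : T.V) (ζ : Boundary N) : (T.dir u ζ).fst = u :=
  (T.exists_dir u ζ).choose_spec.1

theorem mem_shadow_dir (u : T.V) (ζ : Boundary N) : ζ ∈ T.shadow (T.dir u ζ) :=
  (T.exists_dir u ζ).choose_spec.2

theorem dir_eq {u : T.V} {ζ : Boundary N} {d : T.graph.Dart} (h : d.fst = u)
    (hζ : ζ ∈ T.shadow d) : T.dir u ζ = d :=
  T.shadow_unique (by rw [dir_fst, h]) (T.mem_shadow_dir u ζ) hζ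

theorem dir_eq_iff {u : T.V} {ζ : Boundary N} {d : T.graph.Dart} :
    T.dir u ζ = d ↔ d.fst = u ∧ ζ ∈ T.shadow d :=
  ⟨fun h => by rw [← h]; exact ⟨T.dir_fst u ζ, T.mem_shadow_dir u ζ⟩, fun h => T.dir_eq h.1 h.2⟩

theorem dir_smul (g : FreeGroup (Fin N)) (u : T.V) (ζ : Boundary N) :
    T.dir (g • u) (g • ζ) = g • T.dir u ζ := by
  apply T.dir_eq
  · rw [smul_fst, dir_fst]
  · rw [smul_mem_shadow]; exact T.mem_shadow_dir u ζ

/-- One step from `u` in the direction of `ζ`. -/
noncomputable def step (ζ : Boundary N) (u : T.V) : T.V := (T.dir u ζ).snd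

theorem step_smul (g : FreeGroup (Fin N)) (u : T.V) (ζ : Boundary N) :
    T.step (g • ζ) (g • u) = g • T.step ζ u := by
  unfold step; rw [dir_smul, smul_snd]

theorem step_iterate_smul (g : FreeGroup (Fin N)) (ζ : Boundary N) (n : ℕ) (u : T.V) :
    (T.step (g • ζ))^[n] (g • u) = g • (T.step ζ)^[n] u := by
  induction n generalizing u with
  | zero => rfl
  | succ n ih => rw [Function.iterate_succ_apply, Function.iterate_succ_apply, step_smul, ih]

/-- Moving in the direction of `ζ` one stays in any half tree whose shadow contains `ζ`. -/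
theorem step_mem {d : T.graph.Dart} {ζ : Boundary N} (hζ : ζ ∈ T.shadow d) {u : T.V}
    (hu : u ∈ T.halfTree d) : T.step ζ u ∈ T.halfTree d := by
  by_contra h
  have h1 := T.dart_eq_of_cross d (T.dir u ζ).symm h (by
    show (T.dir u ζ).fst ∈ _
    rwa [dir_fst])
  have h2 : T.dir u ζ = d.symm := by rw [← h1, Dart.symm_symm]
  have h3 := T.mem_shadow_dir u ζ
  rw [h2, mem_shadow_symm_iff] at h3
  exact h3 hζ

theorem step_iterate_mem {d : T.graph.Dart} {ζ : Boundary N} (hζ : ζ ∈ T.shadow d) {u : T.V}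
    (hu : u ∈ T.halfTree d) (n : ℕ) : (T.step ζ)^[n] u ∈ T.halfTree d := by
  induction n with
  | zero => exact hu
  | succ n ih => rw [Function.iterate_succ_apply']; exact T.step_mem hζ ih

/-- The vertices of the geodesic line from `ξ` to `ζ`. -/
def line (ξ ζ : Boundary N) : Set T.V := {u | T.dir u ξ ≠ T.dir u ζ}

theorem line_symm (ξ ζ : Boundary N) : T.line ξ ζ = T.line ζ ξ := by
  ext u; exact ne_comm

theorem mem_line_comm {ξ ζ : Boundary N} {u : T.V} : u ∈ T.line ξ ζ ↔ u ∈ T.line ζ ξ := ne_comm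

theorem mem_line_smul (g : FreeGroup (Fin N)) (ξ ζ : Boundary N) (u : T.V) :
    g • u ∈ T.line (g • ξ) (g • ζ) ↔ u ∈ T.line ξ ζ := by
  show T.dir _ _ ≠ T.dir _ _ ↔ T.dir _ _ ≠ T.dir _ _
  rw [dir_smul, dir_smul, not_iff_not]
  exact ⟨fun h => smul_left_cancel g h, fun h => by rw [h]⟩

theorem not_mem_shadow_dir {ξ ζ : Boundary N} {u : T.V} (hu : u ∈ T.line ξ ζ) :
    ξ ∉ T.shadow (T.dir u ζ) := fun h => hu (T.dir_eq (T.dir_fst u ζ) h)

theorem dir_step {ξ ζ : Boundary N} {u : T.V} (hu : u ∈ T.line ξ ζ) :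
    T.dir (T.step ζ u) ξ = (T.dir u ζ).symm := by
  refine T.dir_eq (d := (T.dir u ζ).symm) rfl ?_
  rw [mem_shadow_symm_iff]
  exact T.not_mem_shadow_dir hu

theorem step_mem_line {ξ ζ : Boundary N} {u : T.V} (hu : u ∈ T.line ξ ζ) :
    T.step ζ u ∈ T.line ξ ζ := by
  intro h
  rw [T.dir_step hu] at h
  have h1 := T.mem_shadow_dir (T.step ζ u) ζ
  rw [← h, mem_shadow_symm_iff] at h1
  exact h1 (T.mem_shadow_dir u ζ)

theorem step_step {ξ ζ : Boundary N} {u : T.V} (hu : u ∈ T.line ξ ζ) :
    T.step ξ (T.step ζ u) = u := by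
  show (T.dir (T.step ζ u) ξ).snd = u
  rw [T.dir_step hu]
  exact T.dir_fst u ζ

/-- The shift of the geodesic line from `ξ` to `ζ`. -/
noncomputable def shift (ξ ζ : Boundary N) : Equiv.Perm (T.line ξ ζ) where
  toFun u := ⟨T.step ζ u, T.step_mem_line u.2⟩
  invFun u := ⟨T.step ξ u, T.mem_line_comm.1 (T.step_mem_line (T.mem_line_comm.1 u.2))⟩
  left_inv u := Subtype.ext (T.step_step u.2)
  right_inv u := Subtype.ext (T.step_step (T.mem_line_comm.1 u.2))

/-- The parametrization of the line from `ξ` to `ζ` with base vertex `u`. -/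
noncomputable def par {ξ ζ : Boundary N} (u : T.line ξ ζ) (k : ℤ) : T.V :=
  ((T.shift ξ ζ ^ k) u : T.line ξ ζ)

variable {T}
variable {ξ ζ : Boundary N}

theorem par_mem (u : T.line ξ ζ) (k : ℤ) : T.par u k ∈ T.line ξ ζ :=
  ((T.shift ξ ζ ^ k) u : T.line ξ ζ).2

@[simp] theorem par_zero (u : T.line ξ ζ) : T.par u 0 = u := by
  unfold par; rw [zpow_zero]; rfl

theorem par_add_one (u : T.line ξ ζ) (k : ℤ) : T.par u (k + 1) = T.step ζ (T.par u k) := by
  unfold par
  rw [add_comm, zpow_one_add, Equiv.Perm.mul_apply]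
  rfl

theorem par_sub_one (u : T.line ξ ζ) (k : ℤ) : T.par u (k - 1) = T.step ξ (T.par u k) := by
  have h := par_add_one u (k - 1)
  rw [sub_add_cancel] at h
  rw [h, T.step_step (par_mem u _)]

theorem par_add_nat (u : T.line ξ ζ) (k : ℤ) (n : ℕ) :
    T.par u (k + n) = (T.step ζ)^[n] (T.par u k) := by
  induction n with
  | zero => simp
  | succ n ih =>
    rw [Function.iterate_succ_apply', ← ih, Nat.cast_succ, ← add_assoc, par_add_one]

theorem par_sub_nat (u : T.line ξ ζ) (k : ℤ) (n : ℕ) :
    T.par u (k - n) = (T.step ξ)^[n] (T.par u k) := by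
  induction n with
  | zero => simp
  | succ n ih =>
    rw [Function.iterate_succ_apply', ← ih, Nat.cast_succ, ← sub_sub, par_sub_one]

/-- the forward dart of the line at position `k` -/
noncomputable def dpar (u : T.line ξ ζ) (k : ℤ) : T.graph.Dart := T.dir (T.par u k) ζ

@[simp] theorem dpar_fst (u : T.line ξ ζ) (k : ℤ) : (dpar u k).fst = T.par u k :=
  T.dir_fst _ _

theorem dpar_snd (u : T.line ξ ζ) (k : ℤ) : (dpar u k).snd = T.par u (k + 1) :=
  (par_add_one u k).symm

theorem mem_shadow_dpar (u : T.line ξ ζ) (k : ℤ) : ζ ∈ T.shadow (dpar u k) :=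
  T.mem_shadow_dir _ _

theorem mem_shadow_dpar_symm (u : T.line ξ ζ) (k : ℤ) : ξ ∈ T.shadow (dpar u k).symm := by
  rw [mem_shadow_symm_iff]
  exact T.not_mem_shadow_dir (par_mem u k)

theorem par_mem_halfTree (u : T.line ξ ζ) {i k : ℤ} (h : i < k) :
    T.par u k ∈ T.halfTree (dpar u i) := by
  obtain ⟨n, hn⟩ : ∃ n : ℕ, k = i + 1 + n := ⟨(k - i - 1).toNat, by omega⟩
  rw [hn, par_add_nat]
  apply T.step_iterate_mem (mem_shadow_dpar u i)
  rw [← dpar_snd]
  exact T.snd_mem_halfTree _

theorem par_not_mem_halfTree (u : T.line ξ ζ) {i k : ℤ} (h : k ≤ i) :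
    T.par u k ∉ T.halfTree (dpar u i) := by
  obtain ⟨n, hn⟩ : ∃ n : ℕ, k = i - n := ⟨(i - k).toNat, by omega⟩
  rw [hn, par_sub_nat, ← mem_symm_iff]
  apply T.step_iterate_mem (mem_shadow_dpar_symm u i)
  rw [← dpar_fst u i]
  exact T.fst_mem_halfTree_symm _

theorem par_injective (u : T.line ξ ζ) : Function.Injective (T.par u) := by
  intro i j h
  rcases lt_trichotomy i j with hij | hij | hij
  · exact absurd (h ▸ par_mem_halfTree u hij) (par_not_mem_halfTree u le_rfl)
  · exact hij
  · exact absurd (h.symm ▸ par_mem_halfTree u hij) (par_not_mem_halfTree u le_rfl)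

theorem dpar_injective (u : T.line ξ ζ) : Function.Injective (dpar u) := by
  intro i j h
  apply par_injective u
  rw [← dpar_fst, ← dpar_fst, h]

/-- The number of darts separating two points of a line is at least their distance. -/
theorem le_card_sepF (u : T.line ξ ζ) {i j : ℤ} (_h : i ≤ j) :
    (j - i).toNat ≤ (T.sepF (T.par u i) (T.par u j)).card := by
  classical
  have h1 : (Finset.Ico i j).image (dpar u) ⊆ T.sepF (T.par u i) (T.par u j) := by
    intro e he
    rw [Finset.mem_image] at he
    obtain ⟨k, hk, rfl⟩ := he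
    rw [Finset.mem_Ico] at hk
    rw [mem_sepF]
    exact ⟨par_not_mem_halfTree u hk.1, par_mem_halfTree u hk.2⟩
  have h2 := Finset.card_le_card h1
  rw [Finset.card_image_of_injective _ (dpar_injective u), Int.card_Ico] at h2
  exact h2

/-- A vertex lies in the half trees of only finitely many forward darts. -/
theorem exists_not_mem_halfTree (u : T.line ξ ζ) (z : T.V) : ∃ i0 : ℤ, ∀ i, i0 ≤ i →
    z ∉ T.halfTree (dpar u i) := by
  classical
  refine ⟨((T.sepF (T.par u 0) z).card : ℤ), fun i hi hz => ?_⟩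
  have h1 : (Finset.Icc 0 i).image (dpar u) ⊆ T.sepF (T.par u 0) z := by
    intro e he
    rw [Finset.mem_image] at he
    obtain ⟨k, hk, rfl⟩ := he
    rw [Finset.mem_Icc] at hk
    rw [mem_sepF]
    refine ⟨par_not_mem_halfTree u hk.1, ?_⟩
    have h2 : (dpar u k).fst ∉ T.halfTree (dpar u i) := by
      rw [dpar_fst]; exact par_not_mem_halfTree u hk.2
    rw [T.nested (e := dpar u i) (d := dpar u k) (Or.inl h2) hz, dpar_snd]
    exact par_mem_halfTree u (by omega)
  have h2 := Finset.card_le_card h1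
  rw [Finset.card_image_of_injective _ (dpar_injective u), Int.card_Icc] at h2
  omega

/-- Every vertex of the line is reached by the parametrization. -/
theorem exists_par (v : T.V) (hv : v ∈ T.line ξ ζ) : ∀ u : T.line ξ ζ, ∃ k : ℤ, T.par u k = v := by
  have key : ∀ m : ℕ, ∀ u : T.line ξ ζ, (T.sepF v u).card ≤ m → ∃ k : ℤ, T.par u k = v := by
    intro m
    induction m with
    | zero =>
      intro u hm
      refine ⟨0, ?_⟩
      rw [par_zero]
      by_contra hne
      obtain ⟨d, hd, hx⟩ := T.exists_dart (u := u) (z := v) hne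
      have h1 : d.symm ∈ T.sepF v u := by
        rw [mem_sepF, mem_symm_iff, not_not]
        refine ⟨hx, ?_⟩
        rw [← hd]; exact T.fst_mem_halfTree_symm d
      have h3 := Finset.card_pos.2 ⟨_, h1⟩
      omega
    | succ m ih =>
      intro u hm
      by_cases hne : (u : T.V) = v
      · exact ⟨0, by rw [par_zero]; exact hne⟩
      obtain ⟨d, hd, hx⟩ := T.exists_dart (u := u) (z := v) hne
      have hcard : (T.sepF v d.snd).card ≤ m := by
        classical
        have hsub : T.sepF v d.snd ⊆ (T.sepF v u).erase d.symm := by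
          intro e he
          rw [mem_sepF] at he
          rw [Finset.mem_erase, mem_sepF]
          have hz' : (u : T.V) ∈ T.halfTree e := by
            by_contra hz'
            rw [← hd] at hz'
            have := T.dart_eq_of_cross e d hz' he.2
            rw [this] at hx
            exact he.1 hx
          refine ⟨?_, he.1, hz'⟩
          rintro rfl
          exact T.fst_not_mem d.symm he.2
        have hmem : d.symm ∈ T.sepF v u := by
          rw [mem_sepF, mem_symm_iff, not_not]
          refine ⟨hx, ?_⟩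
          rw [← hd]; exact T.fst_mem_halfTree_symm d
        have h1 := Finset.card_le_card hsub
        rw [Finset.card_erase_of_mem hmem] at h1
        have h3 := Finset.card_pos.2 ⟨_, hmem⟩
        omega
      -- `d` points to `ζ` or to `ξ`
      have hdir : ζ ∈ T.shadow d ∨ ξ ∈ T.shadow d := by
        by_contra hcon
        push Not at hcon
        obtain ⟨d', hd', hx'⟩ := T.exists_dart (u := v) (z := u) (Ne.symm hne)
        have hsub : ∀ z, z ∈ T.halfTree d.symm → z ∈ T.halfTree d' := by
          intro z hz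
          have h1 : d'.fst ∉ T.halfTree d.symm := by
            rw [mem_symm_iff, not_not, hd']; exact hx
          rw [T.nested (e := d.symm) (d := d') (Or.inl h1) hz]
          show d.fst ∈ _
          rw [hd]; exact hx'
        have hsh : ∀ η : Boundary N, η ∉ T.shadow d → η ∈ T.shadow d' := by
          intro η hη x
          rw [← mem_shadow_symm_iff] at hη
          filter_upwards [hη x] with n hn
          exact hsub _ hn
        apply hv
        rw [T.dir_eq hd' (hsh ξ hcon.2), T.dir_eq hd' (hsh ζ hcon.1)]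
      rcases hdir with h | h
      · have h1 : T.dir u ζ = d := T.dir_eq hd h
        have h2 : T.step ζ u = d.snd := by unfold step; rw [h1]
        obtain ⟨k, hk⟩ := ih ((T.shift ξ ζ) u) (by
          show (T.sepF v (T.step ζ u)).card ≤ m
          rw [h2]; exact hcard)
        refine ⟨k + 1, ?_⟩
        rw [← hk]
        unfold par
        rw [zpow_add_one, Equiv.Perm.mul_apply]
      · have h1 : T.dir u ξ = d := T.dir_eq hd h
        have h2 : T.step ξ u = d.snd := by unfold step; rw [h1]
        obtain ⟨k, hk⟩ := ih ((T.shift ξ ζ)⁻¹ u) (by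
          show (T.sepF v (T.step ξ u)).card ≤ m
          rw [h2]; exact hcard)
        refine ⟨k - 1, ?_⟩
        rw [← hk]
        unfold par
        rw [zpow_sub_one, Equiv.Perm.mul_apply]
  intro u
  exact key _ u le_rfl

/-- Integer counting lemma. -/
theorem int_count (a : ℤ → Prop) (K : ℕ) (αm αp : Prop)
    (hK : ∀ i j : ℤ, ¬ (a i ↔ a (i + 1)) → ¬ (a j ↔ a (j + 1)) → |i - j| ≤ K)
    (hp : ∃ i0 : ℤ, ∀ i, i0 ≤ i → (a i ↔ αp)) (hm : ∃ i0 : ℤ, ∀ i, i ≤ i0 → (a i ↔ αm))
    (n : ℕ) [Decidable (¬ αm ∧ αp)] [Decidable (∃ i, ¬ (a i ↔ a (i + 1)))] :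
    {i : ℤ | ¬ a i ∧ a (i + n)}.encard ≤
      ((if ¬ αm ∧ αp then n else 0) + (if ∃ i, ¬ (a i ↔ a (i + 1)) then 2 * K else 0) : ℕ) := by
  by_cases hZ : ∃ i, ¬ (a i ↔ a (i + 1))
  · obtain ⟨z, hz⟩ := hZ
    have hright : ∀ i, z + K + 1 ≤ i → (a i ↔ αp) := by
      obtain ⟨i0, hi0⟩ := hp
      have h1 : ∀ m : ℕ, ∀ i, z + K + 1 ≤ i → (a i ↔ a (i + m)) := by
        intro m
        induction m with
        | zero => intro i _; simp
        | succ m ih =>
          intro i hi
          rw [ih i hi]
          by_contra hne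
          have hne' : ¬ (a (i + m) ↔ a (i + m + 1)) := by
            rwa [Nat.cast_succ, ← add_assoc] at hne
          have := hK (i + m) z hne' hz
          rw [abs_le] at this
          omega
      intro i hi
      rw [h1 (i0 - i).toNat i hi]
      exact hi0 _ (by omega)
    have hleft : ∀ i, i ≤ z - K → (a i ↔ αm) := by
      obtain ⟨i0, hi0⟩ := hm
      have h1 : ∀ m : ℕ, ∀ i, i ≤ z - K → (a i ↔ a (i - m)) := by
        intro m
        induction m with
        | zero => intro i _; simp
        | succ m ih =>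
          intro i hi
          rw [ih i hi]
          by_contra hne
          have hne' : ¬ (a (i - m - 1) ↔ a (i - m - 1 + 1)) := by
            rw [sub_add_cancel]
            rw [Nat.cast_succ, ← sub_sub] at hne
            exact fun h => hne h.symm
          have := hK (i - m - 1) z hne' hz
          rw [abs_le] at this
          omega
      intro i hi
      rw [h1 (i - i0).toNat i hi]
      exact hi0 _ (by omega)
    have hZ' : ∃ i, ¬ (a i ↔ a (i + 1)) := ⟨z, hz⟩
    rw [if_pos hZ']
    have hub : ∀ i, ¬ a i → a (i + n) → i ≤ z + K := by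
      intro i h1 h2
      by_contra hcon
      rw [hright i (by omega)] at h1
      rw [hright (i + n) (by omega)] at h2
      exact h1 h2
    have hlb : ∀ i, ¬ a i → a (i + n) → z - K + 1 ≤ i + n := by
      intro i h1 h2
      by_contra hcon
      rw [hleft i (by omega)] at h1
      rw [hleft (i + n) (by omega)] at h2
      exact h1 h2
    by_cases hcase : ¬ αm ∧ αp
    · rw [if_pos hcase]
      have hsub : {i : ℤ | ¬ a i ∧ a (i + n)} ⊆ (Finset.Icc (z - K + 1 - n) (z + K) : Finset ℤ) := by
        rintro i ⟨h1, h2⟩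
        rw [Finset.coe_Icc, Set.mem_Icc]
        have := hub i h1 h2
        have := hlb i h1 h2
        omega
      refine (Set.encard_le_encard hsub).trans ?_
      rw [Set.encard_coe_eq_coe_finsetCard, Int.card_Icc]
      have : (z + K + 1 - (z - K + 1 - n)).toNat = n + 2 * K := by omega
      rw [this]
    · rw [if_neg hcase, zero_add]
      by_cases hαm : αm
      · have hsub : {i : ℤ | ¬ a i ∧ a (i + n)} ⊆ (Finset.Icc (z - K + 1) (z + K) : Finset ℤ) := by
          rintro i ⟨h1, h2⟩
          rw [Finset.coe_Icc, Set.mem_Icc]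
          have := hub i h1 h2
          refine ⟨?_, this⟩
          by_contra hcon
          exact h1 ((hleft i (by omega)).2 hαm)
        refine (Set.encard_le_encard hsub).trans ?_
        rw [Set.encard_coe_eq_coe_finsetCard, Int.card_Icc]
        have : (z + K + 1 - (z - K + 1)).toNat = 2 * K := by omega
        rw [this]
      · have hαp : ¬ αp := fun h => hcase ⟨hαm, h⟩
        have hsub : {i : ℤ | ¬ a i ∧ a (i + n)} ⊆
            (Finset.Icc (z - K + 1 - n) (z + K - n) : Finset ℤ) := by
          rintro i ⟨h1, h2⟩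
          rw [Finset.coe_Icc, Set.mem_Icc]
          have := hlb i h1 h2
          refine ⟨by omega, ?_⟩
          by_contra hcon
          exact hαp ((hright (i + n) (by omega)).1 h2)
        refine (Set.encard_le_encard hsub).trans ?_
        rw [Set.encard_coe_eq_coe_finsetCard, Int.card_Icc]
        have : (z + K - n + 1 - (z - K + 1 - n)).toNat = 2 * K := by omega
        rw [this]
  · have hempty : {i : ℤ | ¬ a i ∧ a (i + n)} = ∅ := by
      push Not at hZ
      have h1 : ∀ (m : ℕ) (i : ℤ), a i ↔ a (i + m) := by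
        intro m
        induction m with
        | zero => intro i; simp
        | succ m ih =>
          intro i
          rw [ih i, Nat.cast_succ, ← add_assoc]
          exact hZ _
      ext i
      simp only [Set.mem_ofPred_eq, Set.mem_empty_iff_false, iff_false, not_and]
      intro h1' h2
      exact h1' ((h1 n i).2 h2)
    rw [hempty, Set.encard_empty]
    exact bot_le

end Pool.Agent.OuterSpace.OuterTree
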