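import Pool.Agent.Lib.MP_fee052_al.Busemann

open SimpleGraph MeasureTheory Filter Topology
open scoped ENNReal NNReal

namespace Pool.Agent.OuterSpace

namespace Boundary

variable {N : ℕ}

/-- Every word can be moved by the group onto a prescribed initial segment. -/
theorem exists_smul_agree (η : Boundary N) (n : ℕ) : ∀ ζ : Boundary N,
    (n ≠ 0 → (η.letter (n - 1)).1 = (ζ.letter 0).1 → (η.letter (n - 1)).2 = (ζ.letter 0).2) →
    ∃ g : FreeGroup (Fin N), ∀ i < n, (g • ζ).letter i = η.letter i := by
  induction n with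
  | zero => intro ζ _; exact ⟨1, fun i hi => absurd hi (Nat.not_lt_zero _)⟩
  | succ n ih =>
    intro ζ h
    have hc : (η.letter n).1 = (ζ.letter 0).1 → (η.letter n).2 = (ζ.letter 0).2 :=
      h (Nat.succ_ne_zero n)
    have h1 : FreeGroup.mk [η.letter n] • ζ = cons (η.letter n) ζ hc := by
      rw [smul_mk_singleton]
      exact dif_pos hc
    -- generalize the statement so that the later letters are kept
    have key : ∀ (m : ℕ), m ≤ n → ∀ ζ' : Boundary N,
        (m ≠ 0 → (η.letter (m - 1)).1 = (ζ'.letter 0).1 →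
          (η.letter (m - 1)).2 = (ζ'.letter 0).2) →
        ∃ g : FreeGroup (Fin N), (∀ i < m, (g • ζ').letter i = η.letter i) ∧
          ∀ j, (g • ζ').letter (m + j) = ζ'.letter j := by
      intro m
      induction m with
      | zero =>
        intro _ ζ' _
        exact ⟨1, fun i hi => absurd hi (Nat.not_lt_zero _), fun j => by rw [one_smul, zero_add]⟩
      | succ m ihm =>
        intro hm ζ' hζ'
        have hc' : (η.letter m).1 = (ζ'.letter 0).1 → (η.letter m).2 = (ζ'.letter 0).2 :=
          hζ' (Nat.succ_ne_zero m)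
        have h2 : FreeGroup.mk [η.letter m] • ζ' = cons (η.letter m) ζ' hc' := by
          rw [smul_mk_singleton]
          exact dif_pos hc'
        obtain ⟨g, hg1, hg2⟩ := ihm (by omega) (cons (η.letter m) ζ' hc') (by
          intro hm0
          show (η.letter (m - 1)).1 = (η.letter m).1 → (η.letter (m - 1)).2 = (η.letter m).2
          obtain ⟨m', rfl⟩ := Nat.exists_eq_succ_of_ne_zero hm0
          exact η.reduced m')
        refine ⟨g * FreeGroup.mk [η.letter m], ?_, ?_⟩
        · intro i hi
          rw [mul_smul, h2]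
          by_cases him : i < m
          · exact hg1 i him
          · have : i = m + 0 := by omega
            rw [this, hg2 0]
            rfl
        · intro j
          rw [mul_smul, h2]
          have : m + 1 + j = m + (j + 1) := by ring
          rw [this, hg2 (j + 1)]
          rfl
    obtain ⟨g, hg1, hg2⟩ := key n le_rfl (cons (η.letter n) ζ hc) (by
      intro hm0
      show (η.letter (n - 1)).1 = (η.letter n).1 → (η.letter (n - 1)).2 = (η.letter n).2
      obtain ⟨m', rfl⟩ := Nat.exists_eq_succ_of_ne_zero hm0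
      exact η.reduced m')
    refine ⟨g * FreeGroup.mk [η.letter n], ?_⟩
    intro i hi
    rw [mul_smul, h1]
    by_cases him : i < n
    · exact hg1 i him
    · have : i = n + 0 := by omega
      rw [this, hg2 0]
      rfl

/-- There is a letter that cancels neither with `a` on the left nor with `b` on the right. -/
theorem exists_letter (hN : 2 ≤ N) (a b : Fin N × Bool) : ∃ c : Fin N × Bool,
    (a.1 = c.1 → a.2 = c.2) ∧ (c.1 = b.1 → c.2 = b.2) := by
  by_cases h : a.1 = b.1
  · obtain ⟨i, hi⟩ : ∃ i : Fin N, i ≠ a.1 := by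
      by_contra hcon
      push Not at hcon
      have h0 := hcon ⟨0, by omega⟩
      have h1 := hcon ⟨1, by omega⟩
      rw [← h1] at h0
      have := congrArg Fin.val h0
      simp at this
    exact ⟨(i, true), fun h' => absurd h'.symm hi, fun h' => absurd (h'.trans h.symm) hi⟩
  · exact ⟨a, fun _ => rfl, fun h' => absurd h' h⟩

/-- The action of `F_N` on the boundary is minimal. -/
theorem exists_smul_mem (hN : 2 ≤ N) (U : Set (Boundary N)) (hU : IsOpen U) (hne : U.Nonempty)
    (ζ : Boundary N) : ∃ g : FreeGroup (Fin N), g • ζ ∈ U := by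
  obtain ⟨η, hη⟩ := hne
  rw [isOpen_induced_iff] at hU
  obtain ⟨W, hW, hWU⟩ := hU
  have h1 : η.letter ∈ W := by rw [← hWU] at hη; exact hη
  rw [isOpen_pi_iff] at hW
  obtain ⟨I, u, hu, hIu⟩ := hW _ h1
  -- choose `n` beyond all the constrained positions
  obtain ⟨n, hn⟩ : ∃ n, ∀ i ∈ I, i < n := by
    obtain ⟨n, hn⟩ := I.bddAbove
    exact ⟨n + 1, fun i hi => Nat.lt_succ_of_le (hn hi)⟩
  obtain ⟨c, hc1, hc2⟩ := exists_letter hN (η.letter (n - 1)) (ζ.letter 0)
  obtain ⟨g, hg⟩ := exists_smul_agree η n (cons c ζ hc2) (fun _ => hc1)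
  refine ⟨g * FreeGroup.mk [c], ?_⟩
  have h2 : FreeGroup.mk [c] • ζ = cons c ζ hc2 := by
    rw [smul_mk_singleton]
    exact dif_pos hc2
  rw [mul_smul, h2, ← hWU]
  apply hIu
  intro i hi
  rw [hg i (hn i hi)]
  exact (hu i hi).2

end Boundary

namespace OuterTree

open Boundary

variable {N : ℕ} {T : OuterTree N} {ν : T.V → Measure (Boundary N)}

theorem critExp_nonneg (hN : 2 ≤ N) (T : OuterTree N) : 0 ≤ T.critExp := by
  apply Real.sInf_nonneg
  intro s hs
  by_contra hneg
  push Not at hneg
  obtain ⟨x⟩ := T.isTree.connected.nonempty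
  have : Nonempty (Fin N) := ⟨⟨0, by omega⟩⟩
  have h1 := (hs x).tendsto_cofinite_zero
  have h2 : ∀ᶠ g : FreeGroup (Fin N) in cofinite, Real.exp (-s * T.dist x (g • x)) < 1 :=
    h1.eventually (gt_mem_nhds one_pos)
  obtain ⟨g, hg⟩ := h2.exists
  have h3 : 1 ≤ Real.exp (-s * T.dist x (g • x)) := by
    apply Real.one_le_exp
    have := T.dist_nonneg x (g • x)
    nlinarith
  linarith

theorem isFinite (hν : T.IsPattersonSullivan ν) (x : T.V) : IsFiniteMeasure (ν x) := hν.finite x

theorem univ_ne_zero (hν : T.IsPattersonSullivan ν) (x : T.V) : ν x Set.univ ≠ 0 := by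
  intro h
  exact hν.ne_zero x (Measure.measure_univ_eq_zero.1 h)

theorem map_apply' (hν : T.IsPattersonSullivan ν) (g : FreeGroup (Fin N)) (x : T.V)
    {A : Set (Boundary N)} (hA : MeasurableSet A) :
    ν (g • x) A = ν x ((fun ξ => g • ξ) ⁻¹' A) := by
  rw [← hν.map_smul, Measure.map_apply (measurable_smul' g) hA]

theorem absCont (hν : T.IsPattersonSullivan ν) (x y : T.V) : ν y ≪ ν x := by
  rw [hν.conformal x y]
  exact withDensity_absolutelyContinuous _ _

theorem pos_of_isOpen (hN : 2 ≤ N) (hν : T.IsPattersonSullivan ν) (y : T.V)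
    (U : Set (Boundary N)) (hU : IsOpen U) (hne : U.Nonempty) : ν y U ≠ 0 := by
  intro h0
  have h1 : ∀ g : FreeGroup (Fin N), ν y ((fun ξ => g • ξ) ⁻¹' U) = 0 := by
    intro g
    rw [← map_apply' hν g y hU.measurableSet]
    exact absCont hν y (g • y) h0
  have h2 : (⋃ g : FreeGroup (Fin N), (fun ξ : Boundary N => g • ξ) ⁻¹' U) = Set.univ := by
    rw [Set.eq_univ_iff_forall]
    intro ζ
    obtain ⟨g, hg⟩ := exists_smul_mem hN U hU hne ζ
    rw [Set.mem_iUnion]
    exact ⟨g, hg⟩
  have h3 : ν y Set.univ = 0 := by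
    rw [← h2]
    exact measure_iUnion_null h1
  exact univ_ne_zero hν y h3

theorem critExp_pos (hN : 2 ≤ N) (hν : T.IsPattersonSullivan ν) : 0 < T.critExp := by
  rcases (critExp_nonneg hN T).lt_or_eq with h | h
  · exact h
  exfalso
  have hinv : ∀ x y, ν y = ν x := by
    intro x y
    rw [hν.conformal x y, ← h]
    simp
  obtain ⟨x⟩ := T.isTree.connected.nonempty
  have hfin : IsFiniteMeasure (ν x) := hν.finite x
  let C : Fin N × Bool → Set (Boundary N) := fun a => {ξ | ξ.letter 0 = a}
  have hC : ∀ a, MeasurableSet (C a) := by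
    intro a
    exact ((isClopen_discrete {a}).preimage (continuous_letter 0)).isOpen.measurableSet
  have hsum : ∀ i : Fin N, ν x (C (i, true) ∪ C (i, false)) = ν x Set.univ := by
    intro i
    have h1 : ν x (C (i, true)) = ν x (C (i, false))ᶜ := by
      have h2 : ν x (C (i, true)) = ν (FreeGroup.of i • x) (C (i, true)) := by
        rw [hinv x (FreeGroup.of i • x)]
      rw [h2, map_apply' hν _ _ (hC _)]
      congr 1
      ext ξ
      show (FreeGroup.of i • ξ).letter 0 = (i, true) ↔ ¬ ξ.letter 0 = (i, false)
      rw [smul_of]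
      unfold letterMul
      split_ifs with h3
      · constructor
        · intro _ h4
          rw [h4] at h3
          simp at h3
        · intro _; rfl
      · constructor
        · intro h4 h5
          have h6 : ξ.letter 1 = (i, true) := h4
          have h7 := ξ.reduced 0
          rw [h5, zero_add, h6] at h7
          simp at h7
        · intro h4
          exfalso
          apply h4
          push Not at h3
          have h8 : (ξ.letter 0).2 = false := by
            have := h3.2
            revert this
            cases (ξ.letter 0).2 <;> simp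
          exact Prod.ext h3.1.symm h8
    rw [measure_union _ (hC _), h1, measure_compl (hC _) (measure_ne_top _ _),
      tsub_add_cancel_of_le (measure_mono (Set.subset_univ _))]
    rw [Set.disjoint_left]
    intro ξ h3 h4
    have h5 : ξ.letter 0 = (i, true) := h3
    have h6 : ξ.letter 0 = (i, false) := h4
    rw [h5] at h6
    simp at h6
  let i0 : Fin N := ⟨0, by omega⟩
  let i1 : Fin N := ⟨1, by omega⟩
  have hdis : Disjoint (C (i0, true) ∪ C (i0, false)) (C (i1, true) ∪ C (i1, false)) := by
    rw [Set.disjoint_left]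
    intro ξ h3 h4
    have h5 : (ξ.letter 0).1 = i0 := by
      rcases h3 with h3 | h3
      · rw [show ξ.letter 0 = (i0, true) from h3]
      · rw [show ξ.letter 0 = (i0, false) from h3]
    have h6 : (ξ.letter 0).1 = i1 := by
      rcases h4 with h4 | h4
      · rw [show ξ.letter 0 = (i1, true) from h4]
      · rw [show ξ.letter 0 = (i1, false) from h4]
    rw [h5] at h6
    have := congrArg Fin.val h6
    simp [i0, i1] at this
  have h7 : ν x Set.univ + ν x Set.univ ≤ ν x Set.univ := by
    calc ν x Set.univ + ν x Set.univ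
        = ν x (C (i0, true) ∪ C (i0, false)) + ν x (C (i1, true) ∪ C (i1, false)) := by
          rw [hsum, hsum]
      _ = ν x ((C (i0, true) ∪ C (i0, false)) ∪ (C (i1, true) ∪ C (i1, false))) :=
          (measure_union hdis ((hC _).union (hC _))).symm
      _ ≤ ν x Set.univ := measure_mono (Set.subset_univ _)
  have h8 : ν x Set.univ = 0 := by
    by_contra hne
    have := ENNReal.lt_add_right (measure_ne_top (ν x) Set.univ) hne
    exact absurd h7 (not_le.2 this)
  exact univ_ne_zero hν x h8

/-- the density of the Patterson-Sullivan current with respect to `ν_x × ν_x` -/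
noncomputable def psDens (T : OuterTree N) (x : T.V) (p : Boundary N × Boundary N) : ℝ≥0∞ :=
  ENNReal.ofReal (Real.exp (2 * T.critExp * T.gromov x p.1 p.2))

theorem withDensity_lineSet (hν : T.IsPattersonSullivan ν) (x u : T.V)
    {A : Set (Boundary N × Boundary N)} (hA : MeasurableSet A) (hAu : A ⊆ T.lineSet u) :
    (((ν x).prod (ν x)).restrict {p | p.1 ≠ p.2}).withDensity (psDens T x) A =
      ((ν u).prod (ν u)) A := by
  have hfx : IsFiniteMeasure (ν x) := hν.finite x
  let ρ : Boundary N → ℝ≥0∞ := fun ξ =>
    ENNReal.ofReal (Real.exp (-T.critExp * T.busemann ξ u x))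
  have hρ : Measurable ρ :=
    (((T.measurable_busemann u x).const_mul _).exp).ennreal_ofReal
  have h1 : ν u = (ν x).withDensity ρ := hν.conformal x u
  have h2 : (ν u).prod (ν u) = ((ν x).prod (ν x)).withDensity (fun p => ρ p.1 * ρ p.2) := by
    rw [h1]
    have : SFinite ((ν x).withDensity ρ) := inferInstance
    rw [prod_withDensity hρ hρ]
  rw [h2, withDensity_apply _ hA, withDensity_apply _ hA, Measure.restrict_restrict hA]
  have h3 : A ∩ {p | p.1 ≠ p.2} = A := by
    rw [Set.inter_eq_left]
    intro p hp
    have h4 : p ∈ T.lineSet u := hAu hp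
    intro heq
    apply (show T.dir u p.1 ≠ T.dir u p.2 from h4)
    rw [show p.1 = p.2 from heq]
  rw [h3]
  apply setLIntegral_congr_fun hA
  intro p hp
  have h4 : u ∈ T.line p.1 p.2 := hAu hp
  show psDens T x p = ρ p.1 * ρ p.2
  unfold psDens
  simp only [ρ]
  rw [T.gromov_eq h4, ← ENNReal.ofReal_mul (Real.exp_pos _).le, ← Real.exp_add,
    T.busemann_symm p.1 x u, T.busemann_symm p.2 x u]
  congr 2
  ring

theorem cover_lineSet (T : OuterTree N) :
    (⋃ o : Option T.V, o.elim {p : Boundary N × Boundary N | p.1 = p.2} T.lineSet) = Set.univ := by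
  rw [Set.eq_univ_iff_forall]
  intro p
  rw [Set.mem_iUnion]
  by_cases h : p.1 = p.2
  · exact ⟨none, h⟩
  · obtain ⟨u, hu⟩ := T.line_nonempty h
    exact ⟨some u, hu⟩

instance : SecondCountableTopology (Boundary N) :=
  (Topology.IsInducing.mk rfl : Topology.IsInducing (Boundary.letter (N := N))).secondCountableTopology

instance : T2Space (Boundary N) := by
  apply T2Space.of_injective_continuous (f := Boundary.letter (N := N)) _ continuous_induced_dom
  intro ξ ζ h
  cases ξ; cases ζ; congr

theorem measurableSet_diagonal' : MeasurableSet {p : Boundary N × Boundary N | p.1 = p.2} := by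
  have : {p : Boundary N × Boundary N | p.1 = p.2} = Set.diagonal (Boundary N) := rfl
  rw [this]
  exact isClosed_diagonal.measurableSet

theorem ps_null_diagonal (_hν : T.IsPattersonSullivan ν) (x : T.V) :
    (((ν x).prod (ν x)).restrict {p | p.1 ≠ p.2}).withDensity (psDens T x)
      {p : Boundary N × Boundary N | p.1 = p.2} = 0 := by
  apply withDensity_absolutelyContinuous
  rw [Measure.restrict_apply measurableSet_diagonal']
  have : {p : Boundary N × Boundary N | p.1 = p.2} ∩ {p | p.1 ≠ p.2} = ∅ := by
    ext p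
    simp only [Set.mem_inter_iff, Set.mem_ofPred_eq, Set.mem_empty_iff_false, iff_false]
    exact fun h => h.2 h.1
  rw [this, measure_empty]

/-- The Patterson-Sullivan current is invariant. -/
theorem ps_invariant (hν : T.IsPattersonSullivan ν) (x : T.V) :
    Invariant ((((ν x).prod (ν x)).restrict {p | p.1 ≠ p.2}).withDensity (psDens T x)) := by
  intro g
  rw [Measure.ext_iff_of_iUnion_eq_univ (cover_lineSet T)]
  rintro (_ | u)
  · -- the diagonal
    show Measure.restrict _ {p : Boundary N × Boundary N | p.1 = p.2} =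
      Measure.restrict _ {p : Boundary N × Boundary N | p.1 = p.2}
    rw [Measure.restrict_eq_zero.2 (ps_null_diagonal hν x), Measure.restrict_eq_zero,
      Measure.map_apply (measurable_diag g) measurableSet_diagonal']
    have : diag g ⁻¹' {p : Boundary N × Boundary N | p.1 = p.2} = {p | p.1 = p.2} := by
      ext p
      show g • p.1 = g • p.2 ↔ p.1 = p.2
      exact ⟨fun h => smul_left_cancel g h, fun h => by rw [h]⟩
    rw [this]
    exact ps_null_diagonal hν x
  · show Measure.restrict _ (T.lineSet u) = Measure.restrict _ (T.lineSet u)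
    ext A hA
    rw [Measure.restrict_apply hA, Measure.restrict_apply hA,
      Measure.map_apply (measurable_diag g) (hA.inter (measurableSet_lineSet u)),
      withDensity_lineSet hν x u (hA.inter (measurableSet_lineSet u)) Set.inter_subset_right]
    have hpre : diag g ⁻¹' (A ∩ T.lineSet u) ⊆ T.lineSet (g⁻¹ • u) := by
      rintro p ⟨_, h⟩
      have h2 : u ∈ T.line (g • p.1) (g • p.2) := h
      show g⁻¹ • u ∈ T.line p.1 p.2
      rw [← T.mem_line_smul g, smul_inv_smul]
      exact h2
    rw [withDensity_lineSet hν x (g⁻¹ • u) ((measurable_diag g) (hA.inter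
      (measurableSet_lineSet u))) hpre]
    have hf1 : IsFiniteMeasure (ν (g⁻¹ • u)) := hν.finite _
    have hmap : ((ν (g⁻¹ • u)).prod (ν (g⁻¹ • u))).map (diag g) = (ν u).prod (ν u) := by
      have h3 := Measure.map_prod_map (ν (g⁻¹ • u)) (ν (g⁻¹ • u)) (measurable_smul' g)
        (measurable_smul' g)
      rw [hν.map_smul, smul_inv_smul] at h3
      exact h3.symm
    rw [← hmap, Measure.map_apply (measurable_diag g) (hA.inter (measurableSet_lineSet u))]

end OuterTree

end Pool.Agent.OuterSpace
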