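import Pool.Agent.Lib.MP_fee052_al.PS

open SimpleGraph MeasureTheory Filter Topology
open scoped ENNReal NNReal

namespace Pool.Agent.OuterSpace

namespace OuterTree

open Boundary

variable {N : ℕ} {T S : OuterTree N}

theorem exists_mass {ν : T.V → Measure (Boundary N)} (hν : T.IsPattersonSullivan ν) :
    ∃ M : ℝ≥0∞, M ≠ ∞ ∧ M ≠ 0 ∧ ∀ u, ν u Set.univ ≤ M := by
  have hle : ∀ u, ν u Set.univ ≤ ∑' q : T.VQ, ν q.out Set.univ := by
    intro u
    obtain ⟨g, q, hg⟩ := T.exists_repV u
    rw [← hg, map_apply' hν g q.out MeasurableSet.univ, Set.preimage_univ]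
    exact ENNReal.le_tsum q
  refine ⟨∑' q : T.VQ, ν q.out Set.univ, ?_, ?_, hle⟩
  · have := Fintype.ofFinite T.VQ
    rw [tsum_fintype]
    apply ENNReal.sum_ne_top.2
    intro q _
    have := hν.finite q.out
    exact measure_ne_top _ _
  · obtain ⟨x⟩ := T.isTree.connected.nonempty
    intro h
    have := hle x
    rw [h] at this
    exact univ_ne_zero hν x (le_antisymm this bot_le)

theorem exists_lower (hN : 2 ≤ N) {ν : S.V → Measure (Boundary N)} (hν : S.IsPattersonSullivan ν)
    {f : T.V → S.V} (hf : ∀ (g : FreeGroup (Fin N)) (u : T.V), f (g • u) = g • f u) :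
    ∃ c : ℝ≥0∞, c ≠ 0 ∧ c ≠ ∞ ∧ ∀ d : T.graph.Dart, (T.shadow d).Nonempty →
      c ≤ ν (f d.snd) (T.shadow d) := by
  classical
  have hinv : ∀ (g : FreeGroup (Fin N)) (d : T.graph.Dart),
      ν (f (g • d).snd) (T.shadow (g • d)) = ν (f d.snd) (T.shadow d) := by
    intro g d
    rw [smul_snd, hf, map_apply' hν g _ (T.measurableSet_shadow _)]
    congr 1
    ext ξ
    exact T.smul_mem_shadow g d ξ
  let F : T.DQ → ℝ≥0∞ := fun q => if (T.shadow q.out).Nonempty then ν (f q.out.snd) (T.shadow q.out)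
    else 1
  have hF : ∀ q, F q ≠ 0 := by
    intro q
    simp only [F]
    split_ifs with h
    · exact pos_of_isOpen hN hν _ _ (T.isClopen_shadow _).isOpen h
    · exact one_ne_zero
  have hFt : ∀ q, F q ≠ ∞ := by
    intro q
    simp only [F]
    split_ifs with h
    · have := hν.finite (f q.out.snd)
      exact measure_ne_top _ _
    · exact ENNReal.one_ne_top
  by_cases hne : Nonempty T.DQ
  · obtain ⟨q0, hq0⟩ := Finite.exists_min F
    refine ⟨F q0, hF q0, hFt q0, ?_⟩
    intro d hd
    obtain ⟨g, q, rfl⟩ := T.exists_rep d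
    rw [hinv]
    refine (hq0 q).trans (le_of_eq ?_)
    simp only [F]
    rw [if_pos]
    obtain ⟨ξ, hξ⟩ := hd
    refine ⟨g⁻¹ • ξ, ?_⟩
    rw [← T.smul_mem_shadow g, smul_inv_smul]
    exact hξ
  · exact ⟨1, one_ne_zero, ENNReal.one_ne_top, fun d => absurd ⟨Quotient.mk'' d⟩ hne⟩

/-- the boundary points towards which the `n`-th step from `u` is `v` -/
def stepEv (T : OuterTree N) (n : ℕ) (u v : T.V) : Set (Boundary N) := {ζ | (T.step ζ)^[n] u = v}

theorem measurableSet_stepEv (n : ℕ) (u v : T.V) : MeasurableSet (stepEv T n u v) :=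
  measurableSet_iterate n u v

theorem measure_stepEv_le {ν : T.V → Measure (Boundary N)} (hν : T.IsPattersonSullivan ν)
    (n : ℕ) (u v : T.V) : ν u (stepEv T n u v) ≤
      ENNReal.ofReal (Real.exp (-(T.critExp * T.dist u v))) * ν v Set.univ := by
  rw [hν.conformal v u, withDensity_apply _ (measurableSet_stepEv n u v)]
  calc ∫⁻ ξ in stepEv T n u v, ENNReal.ofReal (Real.exp (-T.critExp * T.busemann ξ u v)) ∂(ν v)
      = ∫⁻ ξ in stepEv T n u v, ENNReal.ofReal (Real.exp (-(T.critExp * T.dist u v))) ∂(ν v) := by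
        apply setLIntegral_congr_fun (measurableSet_stepEv n u v)
        intro ξ hξ
        have h1 : (T.step ξ)^[n] u = v := hξ
        have h2 := T.busemann_iterate ξ n u
        rw [h1] at h2
        show ENNReal.ofReal (Real.exp (-T.critExp * T.busemann ξ u v)) = _
        rw [h2]
        congr 2
        ring
    _ = ENNReal.ofReal (Real.exp (-(T.critExp * T.dist u v))) * ν v (stepEv T n u v) := by
        rw [setLIntegral_const]
    _ ≤ _ := by
        gcongr
        exact Set.subset_univ _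

theorem le_measure (hN : 2 ≤ N) {ν : S.V → Measure (Boundary N)} (hν : S.IsPattersonSullivan ν)
    (y z : S.V) {A : Set (Boundary N)} (hA : MeasurableSet A) :
    ENNReal.ofReal (Real.exp (-(S.critExp * S.dist y z))) * ν z A ≤ ν y A := by
  rw [hν.conformal z y, withDensity_apply _ hA, ← setLIntegral_const]
  apply setLIntegral_mono' hA
  intro ξ _
  apply ENNReal.ofReal_le_ofReal
  apply Real.exp_le_exp.2
  have h1 := S.busemann_le ξ y z
  have h2 := critExp_nonneg hN S
  nlinarith

theorem stepEv_lower {ν : S.V → Measure (Boundary N)} {f : T.V → S.V} {c : ℝ≥0∞}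
    (hc : ∀ d : T.graph.Dart, (T.shadow d).Nonempty → c ≤ ν (f d.snd) (T.shadow d))
    (n : ℕ) (u : T.V) (ζ : Boundary N) :
    c ≤ ν (f ((T.step ζ)^[n + 1] u)) (stepEv T (n + 1) u ((T.step ζ)^[n + 1] u)) := by
  have h1 := hc (T.dir ((T.step ζ)^[n] u) ζ) ⟨ζ, T.mem_shadow_dir _ _⟩
  have h2 : (T.dir ((T.step ζ)^[n] u) ζ).snd = (T.step ζ)^[n + 1] u := by
    rw [Function.iterate_succ_apply']; rfl
  rw [h2] at h1
  refine h1.trans (measure_mono ?_)
  intro ζ' hζ'
  exact T.iterate_congr ζ ζ' n u hζ'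

/-- The pointwise estimate. -/
theorem pointwise (hN : 2 ≤ N) {νT : T.V → Measure (Boundary N)} (hT : T.IsPattersonSullivan νT)
    {νS : S.V → Measure (Boundary N)} (hS : S.IsPattersonSullivan νS) {f : T.V → S.V}
    {c : ℝ≥0∞} (hc0 : c ≠ 0) (hct : c ≠ ∞)
    (hc : ∀ d : T.graph.Dart, (T.shadow d).Nonempty → c ≤ νS (f d.snd) (T.shadow d))
    {M : ℝ≥0∞} (hMt : M ≠ ∞) (hM0 : M ≠ 0) (hM : ∀ u, νT u Set.univ ≤ M)
    (n : ℕ) (u : T.V) (ζ : Boundary N) :
    ENNReal.ofReal T.critExp * ENNReal.ofReal (T.dist u ((T.step ζ)^[n + 1] u)) ≤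
      ENNReal.ofReal S.critExp * ENNReal.ofReal (S.dist (f u) (f ((T.step ζ)^[n + 1] u))) +
      (M / c) * (νS (f u) (stepEv T (n + 1) u ((T.step ζ)^[n + 1] u)) /
        νT u (stepEv T (n + 1) u ((T.step ζ)^[n + 1] u))) := by
  set v := (T.step ζ)^[n + 1] u with hv
  set dT := T.dist u v with hdT
  set dS := S.dist (f u) (f v) with hdS
  set w := νS (f u) (stepEv T (n + 1) u v) with hw
  set m := νT u (stepEv T (n + 1) u v) with hm
  have hTn := critExp_nonneg hN T
  have hSn := critExp_nonneg hN S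
  have hw1 : ENNReal.ofReal (Real.exp (-(S.critExp * dS))) * c ≤ w := by
    refine le_trans ?_ (le_measure hN hS (f u) (f v) (measurableSet_stepEv (n + 1) u v))
    gcongr
    exact stepEv_lower hc n u ζ
  have hm1 : m ≤ ENNReal.ofReal (Real.exp (-(T.critExp * dT))) * M := by
    refine (measure_stepEv_le hT (n + 1) u v).trans ?_
    gcongr
    exact hM v
  have hmt : m ≠ ∞ := ne_top_of_le_ne_top (ENNReal.mul_ne_top ENNReal.ofReal_ne_top hMt) hm1
  have hw0 : w ≠ 0 := by
    intro h
    rw [h] at hw1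
    have h2 := le_antisymm hw1 bot_le
    rw [mul_eq_zero] at h2
    rcases h2 with h2 | h2
    · rw [ENNReal.ofReal_eq_zero] at h2
      exact absurd h2 (not_le.2 (Real.exp_pos _))
    · exact hc0 h2
  set t := T.critExp * dT - S.critExp * dS with ht
  have h3 : ENNReal.ofReal (Real.exp t) ≤ (M / c) * (w / m) := by
    rw [← mul_div_assoc, ENNReal.le_div_iff_mul_le]
    · calc ENNReal.ofReal (Real.exp t) * m
          ≤ ENNReal.ofReal (Real.exp t) * (ENNReal.ofReal (Real.exp (-(T.critExp * dT))) * M) := by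
            gcongr
        _ = ENNReal.ofReal (Real.exp (-(S.critExp * dS))) * M := by
            rw [← mul_assoc, ← ENNReal.ofReal_mul (Real.exp_pos _).le, ← Real.exp_add]
            congr 3
            rw [ht]; ring
        _ = (M / c) * (ENNReal.ofReal (Real.exp (-(S.critExp * dS))) * c) := by
            rw [mul_comm (ENNReal.ofReal _) c, ← mul_assoc, ENNReal.div_mul_cancel hc0 hct,
              mul_comm]
        _ ≤ (M / c) * w := by gcongr
    · right
      exact mul_ne_zero (ENNReal.div_ne_zero.2 ⟨hM0, hct⟩) hw0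
    · left; exact hmt
  rw [← ENNReal.ofReal_mul hTn, ← ENNReal.ofReal_mul hSn]
  calc ENNReal.ofReal (T.critExp * dT) = ENNReal.ofReal (S.critExp * dS + t) := by
        congr 1; rw [ht]; ring
    _ ≤ ENNReal.ofReal (S.critExp * dS) + ENNReal.ofReal t := ENNReal.ofReal_add_le
    _ ≤ ENNReal.ofReal (S.critExp * dS) + ENNReal.ofReal (Real.exp t) := by
        gcongr
        linarith [Real.add_one_le_exp t]
    _ ≤ _ := by gcongr

theorem lintegral_ratio (νT νS : Measure (Boundary N)) (n : ℕ) (u : T.V) :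
    ∫⁻ ζ, (νS (stepEv T n u ((T.step ζ)^[n] u)) / νT (stepEv T n u ((T.step ζ)^[n] u))) ∂νT ≤
      νS Set.univ := by
  have h1 : ∀ ζ : Boundary N,
      (νS (stepEv T n u ((T.step ζ)^[n] u)) / νT (stepEv T n u ((T.step ζ)^[n] u))) =
      ∑' v : T.V, (νS (stepEv T n u v) / νT (stepEv T n u v)) * (stepEv T n u v).indicator 1 ζ := by
    intro ζ
    rw [tsum_eq_single ((T.step ζ)^[n] u)]
    · rw [Set.indicator_of_mem (show ζ ∈ stepEv T n u ((T.step ζ)^[n] u) from rfl)]
      simp
    · intro v hv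
      rw [Set.indicator_of_notMem, mul_zero]
      intro h
      exact hv (show (T.step ζ)^[n] u = v from h).symm
  simp_rw [h1]
  rw [lintegral_tsum]
  · calc ∑' v : T.V, ∫⁻ ζ, (νS (stepEv T n u v) / νT (stepEv T n u v)) *
          (stepEv T n u v).indicator 1 ζ ∂νT
        ≤ ∑' v : T.V, νS (stepEv T n u v) := by
          apply ENNReal.tsum_le_tsum
          intro v
          rw [lintegral_const_mul _ (measurable_one.indicator (measurableSet_stepEv n u v)),
            lintegral_indicator_one (measurableSet_stepEv n u v)]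
          exact ENNReal.mul_le_of_le_div le_rfl
      _ = νS (⋃ v, stepEv T n u v) := by
          rw [measure_iUnion]
          · intro v v' hvv'
            rw [Function.onFun, Set.disjoint_left]
            intro ζ h h'
            exact hvv' ((show (T.step ζ)^[n] u = v from h).symm.trans
              (show (T.step ζ)^[n] u = v' from h'))
          · exact fun v => measurableSet_stepEv n u v
      _ ≤ _ := measure_mono (Set.subset_univ _)
  · intro v
    exact ((measurable_one.indicator (measurableSet_stepEv n u v)).const_mul _).aemeasurable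

/-- The integrated estimate. -/
theorem avg_compare (hN : 2 ≤ N) {νS : S.V → Measure (Boundary N)} (hS : S.IsPattersonSullivan νS)
    {f : T.V → S.V} (hf : ∀ (g : FreeGroup (Fin N)) (u : T.V), f (g • u) = g • f u)
    {μ : Measure (Boundary N × Boundary N)} {νT : T.V → Measure (Boundary N)}
    (hT : T.IsPattersonSullivan νT) (c : ℝ≥0)
    (hμ : ∀ (u : T.V) (A : Set (Boundary N × Boundary N)), MeasurableSet A → A ⊆ T.lineSet u →
      μ A = c * ((νT u).prod (νT u)) A) :
    ∃ C : ℝ≥0∞, C ≠ ∞ ∧ ∀ n : ℕ, ENNReal.ofReal T.critExp * avg T T id μ (n + 1) ≤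
      ENNReal.ofReal S.critExp * avg T S f μ (n + 1) + C := by
  obtain ⟨c0, hc0, hct, hc⟩ := exists_lower hN hS hf
  obtain ⟨M, hMt, hM0, hM⟩ := exists_mass hT
  obtain ⟨MS, hMSt, hMS0, hMS⟩ := exists_mass hS
  have hfin := Fintype.ofFinite T.VQ
  refine ⟨∑' q : T.VQ, (M / c0) * (c * (M * MS)), ?_, fun n => ?_⟩
  · rw [tsum_fintype]
    apply ENNReal.sum_ne_top.2
    intro q _
    exact ENNReal.mul_ne_top (ENNReal.div_ne_top hMt hc0)
      (ENNReal.mul_ne_top ENNReal.coe_ne_top (ENNReal.mul_ne_top hMt hMSt))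
  · unfold avg
    rw [← ENNReal.tsum_mul_left, ← ENNReal.tsum_mul_left, ← ENNReal.tsum_add]
    apply ENNReal.tsum_le_tsum
    intro q
    set u : T.V := q.out with hu
    have hres : μ.restrict (T.lineSet u) = c • ((νT u).prod (νT u)).restrict (T.lineSet u) := by
      ext A hA
      rw [Measure.restrict_apply hA, Measure.coe_nnreal_smul_apply, Measure.restrict_apply hA]
      exact hμ u _ (hA.inter (measurableSet_lineSet u)) Set.inter_subset_right
    have hfu : IsFiniteMeasure (νT u) := hT.finite u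
    have hfSu : IsFiniteMeasure (νS (f u)) := hS.finite (f u)
    let F : T.V → ℝ≥0∞ := fun v =>
      νS (f u) (stepEv T (n + 1) u v) / νT u (stepEv T (n + 1) u v)
    have hFm : Measurable fun ζ : Boundary N => F ((T.step ζ)^[n + 1] u) :=
      measurable_comp_iterate (n + 1) u F
    have hbound : ∫⁻ p in T.lineSet u, F ((T.step p.2)^[n + 1] u) ∂μ ≤ c * (M * MS) := by
      rw [hres, lintegral_smul_measure, ENNReal.smul_def, smul_eq_mul]
      gcongr
      calc ∫⁻ p in T.lineSet u, F ((T.step p.2)^[n + 1] u) ∂((νT u).prod (νT u))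
          ≤ ∫⁻ p, F ((T.step p.2)^[n + 1] u) ∂((νT u).prod (νT u)) :=
            setLIntegral_le_lintegral _ _
        _ = ∫⁻ ζ, F ((T.step ζ)^[n + 1] u) ∂(((νT u).prod (νT u)).map Prod.snd) := by
            rw [lintegral_map hFm measurable_snd]
        _ = νT u Set.univ * ∫⁻ ζ, F ((T.step ζ)^[n + 1] u) ∂(νT u) := by
            rw [Measure.map_snd_prod, lintegral_smul_measure, smul_eq_mul]
        _ ≤ M * MS := by
            gcongr
            · exact hM u
            · exact (lintegral_ratio (νT u) (νS (f u)) (n + 1) u).trans (hMS (f u))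
    calc ENNReal.ofReal T.critExp * ∫⁻ p in T.lineSet u,
          ENNReal.ofReal (T.dist (id u) (id ((T.step p.2)^[n + 1] u))) ∂μ
        = ∫⁻ p in T.lineSet u, ENNReal.ofReal T.critExp *
            ENNReal.ofReal (T.dist u ((T.step p.2)^[n + 1] u)) ∂μ := by
          rw [lintegral_const_mul' _ _ ENNReal.ofReal_ne_top]; rfl
      _ ≤ ∫⁻ p in T.lineSet u, (ENNReal.ofReal S.critExp *
            ENNReal.ofReal (S.dist (f u) (f ((T.step p.2)^[n + 1] u))) +
            (M / c0) * F ((T.step p.2)^[n + 1] u)) ∂μ := by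
          apply lintegral_mono
          intro p
          exact pointwise hN hT hS hc0 hct hc hMt hM0 hM n u p.2
      _ = ENNReal.ofReal S.critExp * ∫⁻ p in T.lineSet u,
            ENNReal.ofReal (S.dist (f u) (f ((T.step p.2)^[n + 1] u))) ∂μ +
          (M / c0) * ∫⁻ p in T.lineSet u, F ((T.step p.2)^[n + 1] u) ∂μ := by
          have hGm : Measurable fun p : Boundary N × Boundary N =>
              (M / c0) * F ((T.step p.2)^[n + 1] u) := (hFm.comp measurable_snd).const_mul _
          rw [lintegral_add_right _ hGm,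
            lintegral_const_mul' _ _ ENNReal.ofReal_ne_top,
            lintegral_const_mul' _ _ (ENNReal.div_ne_top hMt hc0)]
      _ ≤ _ := by gcongr

theorem limit_arg (a b C1 : ℝ≥0∞) (hC : C1 ≠ ∞) (ha : a ≠ ∞)
    (h : ∀ n : ℕ, a * ((n + 1 : ℕ) * 2) ≤ b * ((n + 1 : ℕ) * 2) + C1) : a ≤ b := by
  by_contra hcon
  push Not at hcon
  have hb : b ≠ ∞ := (hcon.trans (lt_top_iff_ne_top.2 ha)).ne
  lift a to ℝ≥0 using ha
  lift b to ℝ≥0 using hb
  lift C1 to ℝ≥0 using hC
  have h' : ∀ n : ℕ, (a : ℝ) * ((n + 1) * 2) ≤ b * ((n + 1) * 2) + C1 := by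
    intro n
    have := h n
    exact_mod_cast this
  have hab : (b : ℝ) < a := by exact_mod_cast hcon
  obtain ⟨n, hn⟩ := exists_nat_gt ((C1 : ℝ) / (a - b))
  rw [div_lt_iff₀ (sub_pos.2 hab)] at hn
  have := h' n
  have hC0 : (0 : ℝ) ≤ C1 := C1.2
  nlinarith

/-- The generic stretching factor is at least the quotient of the critical exponents. -/
theorem stretch (hN : 2 ≤ N) {νS : S.V → Measure (Boundary N)} (hS : S.IsPattersonSullivan νS)
    {μ : Measure (Boundary N × Boundary N)} (hμ : T.IsPSCurrent μ) :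
    ENNReal.ofReal T.critExp ≤ ENNReal.ofReal S.critExp * S.pairing μ := by
  obtain ⟨⟨νT, x, c, hT, rfl⟩, hnorm⟩ := hμ
  set μ0 := (((νT x).prod (νT x)).restrict {p | p.1 ≠ p.2}).withDensity
      fun p => ENNReal.ofReal (Real.exp (2 * T.critExp * T.gromov x p.1 p.2)) with hμ0
  have hline : ∀ (u : T.V) (A : Set (Boundary N × Boundary N)), MeasurableSet A →
      A ⊆ T.lineSet u → (c • μ0) A = c * ((νT u).prod (νT u)) A := by
    intro u A hA hAu
    rw [Measure.coe_nnreal_smul_apply]
    congr 1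
    exact withDensity_lineSet hT x u hA hAu
  have hinv : Invariant (c • μ0) := by
    intro g
    have h1 := ps_invariant hT x g
    rw [Measure.map_smul]
    congr 1
  have hfin : ∀ u : T.V, (c • μ0) (T.lineSet u) ≠ ∞ := by
    intro u
    have hfu : IsFiniteMeasure (νT u) := hT.finite u
    rw [hline u _ (measurableSet_lineSet u) subset_rfl]
    exact ENNReal.mul_ne_top ENNReal.coe_ne_top (measure_ne_top _ _)
  obtain ⟨f, hf⟩ := exists_equivariant T S
  obtain ⟨C1, hC1, h1⟩ := avg_upper f hf (c • μ0) hinv hfin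
  obtain ⟨C2, hC2, h2⟩ := avg_compare hN hS hf hT c hline
  apply limit_arg _ _ (ENNReal.ofReal S.critExp * C1 + C2)
    (ENNReal.add_ne_top.2 ⟨ENNReal.mul_ne_top ENNReal.ofReal_ne_top hC1, hC2⟩)
    ENNReal.ofReal_ne_top
  intro n
  calc ENNReal.ofReal T.critExp * ((n + 1 : ℕ) * 2)
      = ENNReal.ofReal T.critExp * ((n + 1 : ℕ) * (2 * T.pairing (c • μ0))) := by
        rw [hnorm, mul_one]
    _ ≤ ENNReal.ofReal T.critExp * avg T T id (c • μ0) (n + 1) := by
        gcongr
        exact avg_lower (c • μ0) hinv (n + 1)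
    _ ≤ ENNReal.ofReal S.critExp * avg T S f (c • μ0) (n + 1) + C2 := h2 n
    _ ≤ ENNReal.ofReal S.critExp * ((n + 1 : ℕ) * (2 * S.pairing (c • μ0)) + C1) + C2 := by
        gcongr
        exact h1 (n + 1)
    _ = _ := by ring

/-- The Patterson-Sullivan intersection function is at least one. -/
theorem one_le_intersection (hN : 2 ≤ N) {μT μS : Measure (Boundary N × Boundary N)}
    (hμT : T.IsPSCurrent μT) (hμS : S.IsPSCurrent μS) :
    1 ≤ S.pairing μT * T.pairing μS := by
  obtain ⟨⟨νT, xT, cT, hT, _⟩, _⟩ := id hμT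
  obtain ⟨⟨νS, xS, cS, hS, _⟩, _⟩ := id hμS
  have h1 := stretch hN hS hμT
  have h2 := stretch hN hT hμS
  have hTp := critExp_pos hN hT
  have hSp := critExp_pos hN hS
  set a := ENNReal.ofReal T.critExp with ha
  set b := ENNReal.ofReal S.critExp with hb
  have ha0 : a ≠ 0 := by rw [ha]; simpa using hTp
  have hb0 : b ≠ 0 := by rw [hb]; simpa using hSp
  have hat : a ≠ ∞ := ENNReal.ofReal_ne_top
  have hbt : b ≠ ∞ := ENNReal.ofReal_ne_top
  have h3 : a * b ≤ a * b * (S.pairing μT * T.pairing μS) := by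
    calc a * b ≤ (b * S.pairing μT) * (a * T.pairing μS) := mul_le_mul' h1 h2
      _ = _ := by ring
  have h4 : a * b ≠ 0 := mul_ne_zero ha0 hb0
  have h5 : a * b ≠ ∞ := ENNReal.mul_ne_top hat hbt
  by_contra hcon
  push Not at hcon
  have h6 : a * b * (S.pairing μT * T.pairing μS) < a * b * 1 :=
    ENNReal.mul_lt_mul_right h4 h5 hcon
  rw [mul_one] at h6
  exact absurd h3 (not_le.2 h6)

end OuterTree

end Pool.Agent.OuterSpace
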