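import Pool.Agent.Lib.MP_fee052_al.Defs

open SimpleGraph MeasureTheory Filter Topology
open scoped ENNReal NNReal

namespace Pool.Agent.OuterSpace.OuterTree

variable {N : ℕ} (T : OuterTree N)

theorem snd_mem_halfTree (e : T.graph.Dart) : e.snd ∈ T.halfTree e := Reachable.refl _

theorem fst_mem_halfTree_symm (e : T.graph.Dart) : e.fst ∈ T.halfTree e.symm :=
  T.snd_mem_halfTree e.symm

theorem mem_halfTree_symm_iff (e : T.graph.Dart) (z : T.V) :
    z ∈ T.halfTree e.symm ↔ (T.graph.deleteEdges {e.edge}).Reachable e.fst z := by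
  unfold halfTree
  rw [Dart.edge_symm]
  rfl

theorem not_mem_both (e : T.graph.Dart) (z : T.V) (h1 : z ∈ T.halfTree e)
    (h2 : z ∈ T.halfTree e.symm) : False := by
  have hb := isAcyclic_iff_forall_adj_isBridge.1 T.isTree.isAcyclic e.adj
  rw [mem_halfTree_symm_iff] at h2
  exact hb (h2.trans h1.symm)

/-- Crossing lemma: an edge different from `e` does not change the side of `e`. -/
theorem mem_halfTree_iff_of_adj (e : T.graph.Dart) {z w : T.V} (h : T.graph.Adj z w)
    (hne : s(z, w) ≠ e.edge) : z ∈ T.halfTree e ↔ w ∈ T.halfTree e := by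
  have hadj : (T.graph.deleteEdges {e.edge}).Adj z w := by
    rw [deleteEdges_adj]
    exact ⟨h, by simpa using hne⟩
  unfold halfTree
  exact ⟨fun hz => hz.trans hadj.reachable, fun hw => hw.trans hadj.symm.reachable⟩

theorem mem_or (e : T.graph.Dart) (z : T.V) : z ∈ T.halfTree e ∨ z ∈ T.halfTree e.symm := by
  obtain ⟨p⟩ := T.isTree.connected.preconnected e.snd z
  generalize hx : e.snd = x at p
  have hx' : x ∈ T.halfTree e ∨ x ∈ T.halfTree e.symm := Or.inl (hx ▸ T.snd_mem_halfTree e)
  clear hx
  induction p with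
  | nil => exact hx'
  | @cons a b c hab p ih =>
    apply ih
    by_cases hne : s(a, b) = e.edge
    · rw [Dart.edge, Sym2.eq_iff] at hne
      rcases hne with ⟨_, h⟩ | ⟨_, h⟩
      · left; rw [h]; exact T.snd_mem_halfTree e
      · right; rw [h]; exact T.fst_mem_halfTree_symm e
    · rcases hx' with h | h
      · left; exact (T.mem_halfTree_iff_of_adj e hab hne).1 h
      · right; exact (T.mem_halfTree_iff_of_adj e.symm hab (by rwa [Dart.edge_symm])).1 h

theorem mem_symm_iff (e : T.graph.Dart) (z : T.V) : z ∈ T.halfTree e.symm ↔ z ∉ T.halfTree e :=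
  ⟨fun h h' => T.not_mem_both e z h' h, fun h => (T.mem_or e z).resolve_left h⟩

theorem fst_not_mem (e : T.graph.Dart) : e.fst ∉ T.halfTree e :=
  (T.mem_symm_iff e _).1 (T.fst_mem_halfTree_symm e)

/-- If an edge crosses `e` into its half tree, then it is `e`. -/
theorem eq_of_cross (e : T.graph.Dart) {z w : T.V} (h : T.graph.Adj z w)
    (hz : z ∉ T.halfTree e) (hw : w ∈ T.halfTree e) : z = e.fst ∧ w = e.snd := by
  by_cases hne : s(z, w) = e.edge
  · rw [Dart.edge, Sym2.eq_iff] at hne
    rcases hne with h | ⟨h1, h2⟩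
    · exact h
    · exfalso; rw [h1] at hz; exact hz (T.snd_mem_halfTree e)
  · exact absurd ((T.mem_halfTree_iff_of_adj e h hne).2 hw) hz

theorem dart_eq_of_cross (e d : T.graph.Dart)
    (hz : d.fst ∉ T.halfTree e) (hw : d.snd ∈ T.halfTree e) : d = e := by
  obtain ⟨h1, h2⟩ := T.eq_of_cross e d.adj hz hw
  exact Dart.ext _ _ (Prod.ext h1 h2)

/-- The darts that separate `x` from `y`. -/
def sep (x y : T.V) : Set T.graph.Dart := {e | x ∉ T.halfTree e ∧ y ∈ T.halfTree e}

theorem mem_sep_iff {x y : T.V} {e : T.graph.Dart} :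
    e ∈ T.sep x y ↔ x ∉ T.halfTree e ∧ y ∈ T.halfTree e := Iff.rfl

theorem symm_mem_sep_iff {x y : T.V} {e : T.graph.Dart} :
    e.symm ∈ T.sep x y ↔ e ∈ T.sep y x := by
  rw [mem_sep_iff, mem_sep_iff, mem_symm_iff, not_not, mem_symm_iff]
  tauto

theorem self_mem_sep (e : T.graph.Dart) : e ∈ T.sep e.fst e.snd :=
  ⟨T.fst_not_mem e, T.snd_mem_halfTree e⟩

theorem sep_subset_darts {x y : T.V} (p : T.graph.Walk x y) {e : T.graph.Dart}
    (he : e ∈ T.sep x y) : e ∈ p.darts := by
  induction p with
  | nil => exact absurd he.2 he.1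
  | @cons a b c hab p ih =>
    by_cases hb : b ∈ T.halfTree e
    · obtain ⟨h1, h2⟩ := T.eq_of_cross e hab he.1 hb
      subst h1; subst h2
      simp
    · simp [ih ⟨hb, he.2⟩]

theorem darts_subset_sep {x y : T.V} (p : T.graph.Walk x y) (hp : p.IsPath) {e : T.graph.Dart}
    (he : e ∈ p.darts) : e ∈ T.sep x y := by
  induction p with
  | nil => simp at he
  | @cons a b c hab p ih =>
    have htr := hp.isTrail
    have hpp : p.IsPath := hp.of_cons
    rw [Walk.isTrail_cons] at htr
    rw [Walk.darts_cons, List.mem_cons] at he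
    rcases he with rfl | he
    · refine ⟨T.fst_not_mem _, ?_⟩
      have hb : b ∈ T.halfTree ⟨(a, b), hab⟩ := T.snd_mem_halfTree ⟨(a, b), hab⟩
      have hnot : s(a, b) ∉ p.edges := htr.2
      clear ih hpp htr hp
      generalize hd : (⟨(a, b), hab⟩ : T.graph.Dart) = d at hb ⊢
      have hde : d.edge = s(a, b) := by rw [← hd]; rfl
      rw [← hde] at hnot
      clear hde hd hab
      induction p with
      | nil => exact hb
      | @cons a' b' c' hab' p' ih' =>
        rw [Walk.edges_cons, List.mem_cons, not_or] at hnot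
        exact ih' hnot.2 ((T.mem_halfTree_iff_of_adj d hab' (Ne.symm hnot.1)).1 hb)
    · obtain ⟨h1, h2⟩ := ih hpp he
      refine ⟨?_, h2⟩
      have hne : s(a, b) ≠ e.edge := by
        intro h
        apply htr.2
        rw [h]
        exact List.mem_map_of_mem he
      intro ha
      exact h1 ((T.mem_halfTree_iff_of_adj e hab hne).1 ha)

theorem exists_path (x y : T.V) : ∃ p : T.graph.Walk x y, p.IsPath :=
  (T.isTree.existsUnique_path x y).exists

theorem mem_darts_iff {x y : T.V} (p : T.graph.Walk x y) (hp : p.IsPath) (e : T.graph.Dart) :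
    e ∈ p.darts ↔ e ∈ T.sep x y := ⟨T.darts_subset_sep p hp, T.sep_subset_darts p⟩

theorem sep_finite (x y : T.V) : (T.sep x y).Finite := by
  classical
  obtain ⟨p, hp⟩ := T.exists_path x y
  refine (p.darts.toFinset.finite_toSet).subset ?_
  intro e he
  simpa using T.sep_subset_darts p he

/-- the separating darts as a finset -/
noncomputable def sepF (x y : T.V) : Finset T.graph.Dart := (T.sep_finite x y).toFinset

@[simp] theorem mem_sepF {x y : T.V} {e : T.graph.Dart} :
    e ∈ T.sepF x y ↔ x ∉ T.halfTree e ∧ y ∈ T.halfTree e := by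
  simp [sepF, mem_sep_iff]

/-- the length of a dart -/
noncomputable def dlen (e : T.graph.Dart) : ℝ := T.len e.edge

theorem dlen_pos (e : T.graph.Dart) : 0 < T.dlen e := T.len_pos _ e.edge_mem

theorem dlen_symm (e : T.graph.Dart) : T.dlen e.symm = T.dlen e := by
  unfold dlen; rw [Dart.edge_symm]

theorem walk_sum_eq {x y : T.V} (p : T.graph.Walk x y) :
    (p.edges.map T.len).sum = (p.darts.map T.dlen).sum := by
  unfold Walk.edges
  rw [List.map_map]
  rfl

theorem sum_toFinset_le {α : Type*} [DecidableEq α] (f : α → ℝ) (hf : ∀ a, 0 ≤ f a) (l : List α) :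
    ∑ e ∈ l.toFinset, f e ≤ (l.map f).sum := by
  induction l with
  | nil => simp
  | cons a l ih =>
    rw [List.toFinset_cons, List.map_cons, List.sum_cons]
    by_cases ha : a ∈ l.toFinset
    · rw [Finset.insert_eq_of_mem ha]
      linarith [hf a]
    · rw [Finset.sum_insert ha]
      linarith

theorem dist_eq_sum (x y : T.V) : T.dist x y = ∑ e ∈ T.sepF x y, T.dlen e := by
  classical
  obtain ⟨p, hp⟩ := T.exists_path x y
  have hnd : p.darts.Nodup := by
    have := hp.isTrail.edges_nodup
    unfold Walk.edges at this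
    exact this.of_map _
  have hpe : (p.edges.map T.len).sum = ∑ e ∈ T.sepF x y, T.dlen e := by
    rw [walk_sum_eq]
    have : T.sepF x y = p.darts.toFinset := by
      ext e
      rw [mem_sepF, List.mem_toFinset, T.mem_darts_iff p hp]
      rfl
    rw [this, List.sum_toFinset _ hnd]
  have hle : ∀ q : T.graph.Walk x y, ∑ e ∈ T.sepF x y, T.dlen e ≤ (q.edges.map T.len).sum := by
    intro q
    rw [walk_sum_eq]
    calc ∑ e ∈ T.sepF x y, T.dlen e ≤ ∑ e ∈ q.darts.toFinset, T.dlen e := by
          apply Finset.sum_le_sum_of_subset_of_nonneg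
          · intro e he
            rw [List.mem_toFinset]
            exact T.sep_subset_darts q (T.mem_sepF.1 he)
          · intro e _ _; exact (T.dlen_pos e).le
      _ ≤ (q.darts.map T.dlen).sum := sum_toFinset_le _ (fun e => (T.dlen_pos e).le) _
  have : Nonempty (T.graph.Walk x y) := ⟨p⟩
  apply le_antisymm
  · rw [← hpe]
    exact ciInf_le ⟨∑ e ∈ T.sepF x y, T.dlen e, by rintro _ ⟨q, rfl⟩; exact hle q⟩ p
  · exact le_ciInf hle

theorem dist_nonneg (x y : T.V) : 0 ≤ T.dist x y := by
  rw [dist_eq_sum]; exact Finset.sum_nonneg fun e _ => (T.dlen_pos e).le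

theorem dist_comm (x y : T.V) : T.dist x y = T.dist y x := by
  rw [dist_eq_sum, dist_eq_sum]
  refine Finset.sum_bij (fun e _ => e.symm) ?_ ?_ ?_ ?_
  · intro e he
    rw [mem_sepF] at he ⊢
    rw [mem_symm_iff, not_not, mem_symm_iff]
    tauto
  · intro e _ e' _ h
    have := congrArg Dart.symm h
    simpa using this
  · intro e he
    refine ⟨e.symm, ?_, by simp⟩
    rw [mem_sepF] at he ⊢
    rw [mem_symm_iff, not_not, mem_symm_iff]
    tauto
  · intro e _
    exact (T.dlen_symm e).symm

theorem dist_self (x : T.V) : T.dist x x = 0 := by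
  rw [dist_eq_sum]
  apply Finset.sum_eq_zero
  intro e he
  rw [mem_sepF] at he
  exact absurd he.2 he.1

theorem dist_triangle (x y z : T.V) : T.dist x z ≤ T.dist x y + T.dist y z := by
  classical
  rw [dist_eq_sum, dist_eq_sum, dist_eq_sum]
  calc ∑ e ∈ T.sepF x z, T.dlen e ≤ ∑ e ∈ T.sepF x y ∪ T.sepF y z, T.dlen e := by
        apply Finset.sum_le_sum_of_subset_of_nonneg
        · intro e he
          rw [mem_sepF] at he
          rw [Finset.mem_union, mem_sepF, mem_sepF]
          by_cases hy : y ∈ T.halfTree e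
          · exact Or.inl ⟨he.1, hy⟩
          · exact Or.inr ⟨hy, he.2⟩
        · intro e _ _; exact (T.dlen_pos e).le
    _ ≤ _ := by
        rw [← Finset.sum_union_inter]
        have : 0 ≤ ∑ e ∈ T.sepF x y ∩ T.sepF y z, T.dlen e :=
          Finset.sum_nonneg fun e _ => (T.dlen_pos e).le
        linarith

/-- If no dart separates both `x` and `z` from `y`, then `y` lies on the path. -/
theorem dist_add_of_disjoint {x y z : T.V}
    (h : ∀ e : T.graph.Dart, y ∈ T.halfTree e → x ∈ T.halfTree e ∨ z ∈ T.halfTree e) :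
    T.dist x z = T.dist x y + T.dist y z := by
  classical
  have hun : T.sepF x z = T.sepF x y ∪ T.sepF y z := by
    ext e
    rw [Finset.mem_union, mem_sepF, mem_sepF, mem_sepF]
    constructor
    · intro he
      by_cases hy : y ∈ T.halfTree e
      · exact Or.inl ⟨he.1, hy⟩
      · exact Or.inr ⟨hy, he.2⟩
    · rintro (⟨h1, h2⟩ | ⟨h1, h2⟩)
      · exact ⟨h1, (h e h2).resolve_left h1⟩
      · refine ⟨?_, h2⟩
        intro hx
        have h3 : y ∈ T.halfTree e.symm := (T.mem_symm_iff e y).2 h1
        rcases h e.symm h3 with h4 | h4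
        · exact (T.mem_symm_iff e x).1 h4 hx
        · exact (T.mem_symm_iff e z).1 h4 h2
  have hdis : Disjoint (T.sepF x y) (T.sepF y z) := by
    rw [Finset.disjoint_left]
    intro e h1 h2
    rw [mem_sepF] at h1 h2
    exact h2.1 h1.2
  rw [dist_eq_sum, dist_eq_sum, dist_eq_sum, hun, Finset.sum_union hdis]

/-- Nesting of half trees. -/
theorem nested {e d : T.graph.Dart} (h : d.fst ∉ T.halfTree e ∨ d.snd ∉ T.halfTree e)
    {z : T.V} (hz : z ∈ T.halfTree e) : z ∈ T.halfTree d ↔ e.snd ∈ T.halfTree d := by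
  have key : ∀ {a b : T.V} (p : (T.graph.deleteEdges {e.edge}).Walk a b), a ∈ T.halfTree e →
      (b ∈ T.halfTree d ↔ a ∈ T.halfTree d) := by
    intro a b p
    induction p with
    | nil => intro _; exact Iff.rfl
    | @cons a b c hab p ih =>
      intro ha
      have hb : b ∈ T.halfTree e := by
        unfold halfTree at ha ⊢
        exact ha.trans hab.reachable
      rw [ih hb]
      have hab' : T.graph.Adj a b := (deleteEdges_adj.1 hab).1
      refine (T.mem_halfTree_iff_of_adj d hab' ?_).symm
      intro heq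
      rw [Dart.edge, Sym2.eq_iff] at heq
      rcases heq with ⟨h1, h2⟩ | ⟨h1, h2⟩
      · subst h1; subst h2
        rcases h with h | h
        · exact h ha
        · exact h hb
      · subst h1; subst h2
        rcases h with h | h
        · exact h hb
        · exact h ha
  obtain ⟨p⟩ := hz
  exact key p (T.snd_mem_halfTree e)

/-- If `x, z` are on the tail side of `e` and `y` at the head side, the endpoint ... -/
theorem fst_on_path {e : T.graph.Dart} {x z : T.V} (hx : x ∉ T.halfTree e)
    (hz : z ∈ T.halfTree e) : T.dist x z = T.dist x e.fst + T.dist e.fst z := by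
  apply T.dist_add_of_disjoint
  intro d hd
  by_contra hcon
  push Not at hcon
  have h1 : x ∈ T.halfTree d.symm := (T.mem_symm_iff d x).2 hcon.1
  have h2 : z ∈ T.halfTree d.symm := (T.mem_symm_iff d z).2 hcon.2
  have h3 : e.fst ∉ T.halfTree d.symm := by rw [mem_symm_iff, not_not]; exact hd
  have h4 := T.nested (e := d.symm) (d := e) (Or.inl h3) h1
  have h5 := T.nested (e := d.symm) (d := e) (Or.inl h3) h2
  exact hx (h4.2 (h5.1 hz))

theorem snd_on_path {e : T.graph.Dart} {x z : T.V} (hx : x ∉ T.halfTree e)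
    (hz : z ∈ T.halfTree e) : T.dist x z = T.dist x e.snd + T.dist e.snd z := by
  have h1 : x ∈ T.halfTree e.symm := (T.mem_symm_iff e x).2 hx
  have h2 : z ∉ T.halfTree e.symm := by rw [mem_symm_iff, not_not]; exact hz
  have := T.fst_on_path h2 h1
  have h3 : e.symm.fst = e.snd := rfl
  rw [h3] at this
  rw [T.dist_comm x z, this, T.dist_comm z, T.dist_comm _ x]
  ring

theorem exists_dart {u z : T.V} (h : u ≠ z) : ∃ d : T.graph.Dart, d.fst = u ∧ z ∈ T.halfTree d := by
  obtain ⟨p, hp⟩ := T.exists_path u z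
  cases p with
  | nil => exact absurd rfl h
  | @cons _ b _ hab p =>
    refine ⟨⟨(u, b), hab⟩, rfl, ?_⟩
    have : (⟨(u, b), hab⟩ : T.graph.Dart) ∈ (Walk.cons hab p).darts := by simp
    exact (T.darts_subset_sep _ hp this).2

theorem dart_unique {d d' : T.graph.Dart} (h : d.fst = d'.fst) {z : T.V}
    (hz : z ∈ T.halfTree d) (hz' : z ∈ T.halfTree d') : d = d' := by
  have h1 : d'.fst ∉ T.halfTree d := h ▸ T.fst_not_mem d
  have h2 := (T.nested (e := d) (d := d') (Or.inl h1) hz).1 hz'
  have h3 : d.fst ∉ T.halfTree d' := h ▸ T.fst_not_mem d'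
  exact T.dart_eq_of_cross d' d h3 h2

theorem dist_fst_le {e : T.graph.Dart} {x z : T.V} (h : e ∈ T.sep x z) :
    T.dist x e.fst ≤ T.dist x z := by
  rw [T.fst_on_path h.1 h.2]
  linarith [T.dist_nonneg e.fst z]

theorem abs_dist_sub_le (x y z : T.V) : |T.dist x z - T.dist y z| ≤ T.dist x y := by
  rw [abs_le]
  constructor
  · linarith [T.dist_triangle y x z, T.dist_comm x y]
  · linarith [T.dist_triangle x y z]

end Pool.Agent.OuterSpace.OuterTree
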