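import Pool.Agent.Lib.MP_fee052_al.Compare

open SimpleGraph MeasureTheory Filter Topology
open scoped ENNReal NNReal

namespace Pool.Agent.OuterSpace

section Unfold

variable {G α β : Type*} [Group G] [MulAction G α] [MulAction G β]

theorem tsum_orbit (hfree : ∀ (g : G) (a : α), g • a = a → g = 1) (F : α → ℝ≥0∞) :
    ∑' a, F a = ∑' q : MulAction.orbitRel.Quotient G α, ∑' g : G, F (g • q.out) := by
  have hbij : Function.Bijective
      (fun p : MulAction.orbitRel.Quotient G α × G => p.2 • p.1.out) := by
    constructor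
    · rintro ⟨q, g⟩ ⟨q', g'⟩ h
      have h' : g • q.out = g' • q'.out := h
      have hq : q = q' := by
        rw [← Quotient.out_eq' q, ← Quotient.out_eq' q']
        apply Quotient.sound'
        refine ⟨g⁻¹ * g', ?_⟩
        show (g⁻¹ * g') • q'.out = q.out
        rw [mul_smul, ← h', inv_smul_smul]
      subst hq
      have h2 : (g'⁻¹ * g) • q.out = q.out := by rw [mul_smul, h', inv_smul_smul]
      have h3 := hfree _ _ h2
      rw [inv_mul_eq_one] at h3
      rw [h3]
    · intro a
      have h1 : (Quotient.mk'' (Quotient.out (Quotient.mk'' a :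
        MulAction.orbitRel.Quotient G α)) : MulAction.orbitRel.Quotient G α) =
        Quotient.mk'' a := Quotient.out_eq' _
      obtain ⟨g, hg⟩ := Quotient.exact' h1
      have hg' : g • a = Quotient.out (Quotient.mk'' a : MulAction.orbitRel.Quotient G α) := hg
      exact ⟨(Quotient.mk'' a, g⁻¹), by
        show g⁻¹ • Quotient.out (Quotient.mk'' a : MulAction.orbitRel.Quotient G α) = a
        rw [← hg', inv_smul_smul]⟩
  rw [← (Equiv.ofBijective _ hbij).tsum_eq, ENNReal.tsum_prod']
  rfl

theorem unfolding (hα : ∀ (g : G) (a : α), g • a = a → g = 1)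
    (hβ : ∀ (g : G) (b : β), g • b = b → g = 1) (Φ : α → β → ℝ≥0∞)
    (hΦ : ∀ (g : G) (a : α) (b : β), Φ (g • a) (g • b) = Φ a b) :
    ∑' q : MulAction.orbitRel.Quotient G α, ∑' b, Φ q.out b =
      ∑' q : MulAction.orbitRel.Quotient G β, ∑' a, Φ a q.out := by
  calc ∑' q : MulAction.orbitRel.Quotient G α, ∑' b, Φ q.out b
      = ∑' q : MulAction.orbitRel.Quotient G α, ∑' q' : MulAction.orbitRel.Quotient G β,
          ∑' g : G, Φ q.out (g • q'.out) := by
        congr 1; funext q; exact tsum_orbit hβ _
    _ = ∑' q' : MulAction.orbitRel.Quotient G β, ∑' q : MulAction.orbitRel.Quotient G α,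
          ∑' g : G, Φ q.out (g • q'.out) := ENNReal.tsum_comm
    _ = ∑' q' : MulAction.orbitRel.Quotient G β, ∑' q : MulAction.orbitRel.Quotient G α,
          ∑' g : G, Φ (g • q.out) q'.out := by
        congr 1; funext q'; congr 1; funext q
        rw [← (Equiv.inv G).tsum_eq]
        congr 1; funext g
        rw [← hΦ g]
        simp
    _ = _ := by
        congr 1; funext q'; exact (tsum_orbit hα (fun a => Φ a q'.out)).symm

end Unfold

namespace Boundary

variable {N : ℕ}

theorem continuous_letterMul (a : Fin N × Bool) : Continuous (letterMul a : Boundary N → _) := by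
  rw [continuous_induced_rng]
  apply continuous_pi
  intro n
  have h : (fun ξ : Boundary N => (letterMul a ξ).letter n) =
      (fun p : (Fin N × Bool) × (Fin N × Bool) × (Fin N × Bool) =>
        if a.1 = p.1.1 → a.2 = p.1.2 then Nat.casesOn n a (fun _ => p.2.1) else p.2.2) ∘
      (fun ξ : Boundary N => (ξ.letter 0, ξ.letter (n - 1), ξ.letter (n + 1))) := by
    funext ξ
    simp only [Function.comp]
    unfold letterMul
    split_ifs with h
    · cases n with
      | zero => rfl
      | succ k => rfl
    · rfl
  show Continuous (fun ξ : Boundary N => (letterMul a ξ).letter n)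
  rw [h]
  exact continuous_of_discreteTopology.comp
    ((continuous_letter 0).prodMk ((continuous_letter _).prodMk (continuous_letter _)))

theorem continuous_smul' (g : FreeGroup (Fin N)) : Continuous (fun ξ : Boundary N => g • ξ) := by
  induction g using FreeGroup.induction_on with
  | C1 => simp only [one_smul]; exact continuous_id
  | of i => simpa only [smul_of] using continuous_letterMul (i, true)
  | inv_of i _ => simpa only [smul_of_inv] using continuous_letterMul (i, false)
  | mul g h ihg ihh =>
    have : (fun ξ : Boundary N => (g * h) • ξ) = (fun ξ => g • ξ) ∘ (fun ξ => h • ξ) := by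
      funext ξ; exact mul_smul g h ξ
    rw [this]
    exact ihg.comp ihh

theorem measurable_smul' (g : FreeGroup (Fin N)) : Measurable (fun ξ : Boundary N => g • ξ) :=
  (continuous_smul' g).measurable

/-- the diagonal action -/
def diag (g : FreeGroup (Fin N)) (p : Boundary N × Boundary N) : Boundary N × Boundary N :=
  (g • p.1, g • p.2)

theorem measurable_diag (g : FreeGroup (Fin N)) : Measurable (diag g) :=
  ((measurable_smul' g).comp measurable_fst).prodMk ((measurable_smul' g).comp measurable_snd)

end Boundary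

namespace OuterTree

open Boundary

variable {N : ℕ} {T S : OuterTree N}

theorem measurableSet_dir (u : T.V) (d : T.graph.Dart) : MeasurableSet {ζ | T.dir u ζ = d} := by
  by_cases h : d.fst = u
  · have : {ζ | T.dir u ζ = d} = T.shadow d := by
      ext ζ
      exact ⟨fun h' => (T.dir_eq_iff.1 h').2, fun h' => T.dir_eq h h'⟩
    rw [this]; exact T.measurableSet_shadow d
  · have : {ζ | T.dir u ζ = d} = ∅ := by
      rw [Set.eq_empty_iff_forall_notMem]
      intro ζ h'
      exact h (T.dir_eq_iff.1 h').1
    rw [this]; exact MeasurableSet.empty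

theorem measurableSet_iterate (n : ℕ) : ∀ (u v : T.V),
    MeasurableSet {ζ | (T.step ζ)^[n] u = v} := by
  induction n with
  | zero =>
    intro u v
    simp only [Function.iterate_zero, id]
    exact MeasurableSet.const _
  | succ n ih =>
    intro u v
    have : {ζ | (T.step ζ)^[n + 1] u = v} =
        ⋃ d : T.graph.Dart, ({ζ | T.dir u ζ = d} ∩ {ζ | (T.step ζ)^[n] d.snd = v}) := by
      ext ζ
      rw [Set.mem_iUnion]
      constructor
      · intro h
        refine ⟨T.dir u ζ, rfl, ?_⟩
        rwa [Set.mem_ofPred_eq, Function.iterate_succ_apply] at h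
      · rintro ⟨d, hd, h⟩
        have hd' : T.dir u ζ = d := hd
        rw [Set.mem_ofPred_eq, Function.iterate_succ_apply]
        have : T.step ζ u = d.snd := by unfold step; rw [hd']
        rw [this]; exact h
    rw [this]
    exact MeasurableSet.iUnion fun d => (measurableSet_dir u d).inter (ih _ _)

/-- the pairs whose line passes through `u` -/
def lineSet (T : OuterTree N) (u : T.V) : Set (Boundary N × Boundary N) :=
  {p | u ∈ T.line p.1 p.2}

theorem measurableSet_lineSet (u : T.V) : MeasurableSet (T.lineSet u) := by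
  have : T.lineSet u = (⋃ d : T.graph.Dart, ({ξ | T.dir u ξ = d} ×ˢ {ξ | T.dir u ξ = d}))ᶜ := by
    ext p
    rw [Set.mem_compl_iff, Set.mem_iUnion]
    constructor
    · rintro h ⟨d, h1, h2⟩
      exact h ((show T.dir u p.1 = d from h1).trans (show T.dir u p.2 = d from h2).symm)
    · intro h h'
      exact h ⟨T.dir u p.2, h', rfl⟩
  rw [this]
  exact (MeasurableSet.iUnion fun d => (measurableSet_dir u d).prod (measurableSet_dir u d)).compl

theorem measurable_comp_iterate {α : Type*} [MeasurableSpace α] (n : ℕ) (u : T.V) (F : T.V → α) :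
    Measurable fun ζ : Boundary N => F ((T.step ζ)^[n] u) := by
  intro A _
  have : (fun ζ : Boundary N => F ((T.step ζ)^[n] u)) ⁻¹' A =
      ⋃ v ∈ F ⁻¹' A, {ζ | (T.step ζ)^[n] u = v} := by
    ext ζ
    rw [Set.mem_iUnion₂]
    constructor
    · intro h
      exact ⟨_, h, rfl⟩
    · rintro ⟨v, hv, h⟩
      have h' : (T.step ζ)^[n] u = v := h
      show F _ ∈ A
      rw [h']; exact hv
  rw [this]
  exact MeasurableSet.biUnion (Set.to_countable _) fun v _ => measurableSet_iterate n u v

/-- the pairs in which `u` is a crossing vertex -/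
def crossEv (T : OuterTree N) (χ : T.V → Prop) (n : ℕ) (u : T.V) : Set (Boundary N × Boundary N) :=
  {p | u ∈ crossSet T χ n p.1 p.2}

theorem measurableSet_crossEv (χ : T.V → Prop) (n : ℕ) (u : T.V) :
    MeasurableSet (crossEv T χ n u) := by
  have h1 : crossEv T χ n u = T.lineSet u ∩ ({p | ¬ χ u} ∩
      (Prod.snd ⁻¹' ((fun ζ : Boundary N => (T.step ζ)^[n] u) ⁻¹' {v | χ v}))) := rfl
  rw [h1]
  apply (measurableSet_lineSet u).inter
  apply MeasurableSet.inter (MeasurableSet.const _)
  apply measurable_snd
  let _ : MeasurableSpace T.V := ⊤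
  exact measurable_comp_iterate n u id (show MeasurableSet {v | χ v} from trivial)

/-- The mean `S`-length of the `T`-geodesic segments with `n` edges, for the measure `μ`. -/
noncomputable def avg (T S : OuterTree N) (f : T.V → S.V)
    (μ : Measure (Boundary N × Boundary N)) (n : ℕ) : ℝ≥0∞ :=
  ∑' q : T.VQ, ∫⁻ p in T.lineSet q.out,
    ENNReal.ofReal (S.dist (f q.out) (f ((T.step p.2)^[n] q.out))) ∂μ

theorem ofReal_dist (x y : S.V) : ENNReal.ofReal (S.dist x y) =
    ∑' e : S.graph.Dart, ENNReal.ofReal (S.dlen e) * (S.sep x y).indicator 1 e := by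
  classical
  rw [dist_eq_sum, ENNReal.ofReal_sum_of_nonneg (fun e _ => (S.dlen_pos e).le)]
  rw [tsum_eq_sum (s := S.sepF x y)]
  · apply Finset.sum_congr rfl
    intro e he
    rw [mem_sepF] at he
    rw [Set.indicator_of_mem (show e ∈ S.sep x y from he)]
    simp
  · intro e he
    rw [Set.indicator_of_notMem, mul_zero]
    intro h
    exact he (S.mem_sepF.2 h)

theorem lintegral_dist (f : T.V → S.V) (μ : Measure (Boundary N × Boundary N)) (n : ℕ) (u : T.V) :
    ∫⁻ p in T.lineSet u, ENNReal.ofReal (S.dist (f u) (f ((T.step p.2)^[n] u))) ∂μ =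
      ∑' e : S.graph.Dart, ENNReal.ofReal (S.dlen e) *
        μ (crossEv T (fun v => f v ∈ S.halfTree e) n u) := by
  rw [← lintegral_indicator (measurableSet_lineSet u)]
  have h1 : ∀ p : Boundary N × Boundary N, (T.lineSet u).indicator
      (fun p => ENNReal.ofReal (S.dist (f u) (f ((T.step p.2)^[n] u)))) p =
      ∑' e : S.graph.Dart, ENNReal.ofReal (S.dlen e) *
        (crossEv T (fun v => f v ∈ S.halfTree e) n u).indicator 1 p := by
    intro p
    by_cases hp : p ∈ T.lineSet u
    · rw [Set.indicator_of_mem hp, ofReal_dist]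
      congr 1; funext e
      congr 1
      by_cases he : e ∈ S.sep (f u) (f ((T.step p.2)^[n] u))
      · rw [Set.indicator_of_mem he, Set.indicator_of_mem]
        · rfl
        · exact ⟨hp, he.1, he.2⟩
      · rw [Set.indicator_of_notMem he, Set.indicator_of_notMem]
        rintro ⟨_, h2, h3⟩
        exact he ⟨h2, h3⟩
    · rw [Set.indicator_of_notMem hp]
      symm
      rw [ENNReal.tsum_eq_zero]
      intro e
      rw [Set.indicator_of_notMem, mul_zero]
      rintro ⟨h2, _⟩
      exact hp h2
  simp_rw [h1]
  rw [lintegral_tsum]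
  · congr 1; funext e
    rw [lintegral_const_mul _ (measurable_one.indicator (measurableSet_crossEv _ n u)),
      lintegral_indicator_one (measurableSet_crossEv _ n u)]
  · intro e
    exact ((measurable_one.indicator (measurableSet_crossEv _ n u)).const_mul _).aemeasurable

/-- Invariance of a measure under the diagonal action. -/
def Invariant (μ : Measure (Boundary N × Boundary N)) : Prop :=
  ∀ g : FreeGroup (Fin N), μ.map (diag g) = μ

theorem avg_eq (f : T.V → S.V) (hf : ∀ (g : FreeGroup (Fin N)) (u : T.V), f (g • u) = g • f u)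
    (μ : Measure (Boundary N × Boundary N)) (hμ : Invariant μ) (n : ℕ) :
    avg T S f μ n = ∑' q : S.DQ, ENNReal.ofReal (S.dlen q.out) *
      ∑' u : T.V, μ (crossEv T (fun v => f v ∈ S.halfTree q.out) n u) := by
  unfold avg
  simp_rw [lintegral_dist]
  rw [unfolding (G := FreeGroup (Fin N)) T.free S.dart_free
    (fun u e => ENNReal.ofReal (S.dlen e) * μ (crossEv T (fun v => f v ∈ S.halfTree e) n u))]
  · congr 1; funext q
    rw [ENNReal.tsum_mul_left]
  · intro g u e
    rw [dlen_smul]
    congr 1
    rw [← hμ g, Measure.map_apply (measurable_diag g) (measurableSet_crossEv _ n _), hμ g]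
    congr 1
    ext p
    simp only [crossEv, crossSet, Set.mem_preimage, Set.mem_ofPred_eq, diag, mem_line_smul,
      step_iterate_smul, hf, smul_mem_halfTree]

theorem tsum_crossEv (χ : T.V → Prop) (μ : Measure (Boundary N × Boundary N)) (n : ℕ) :
    ∑' u : T.V, μ (crossEv T χ n u) = ∫⁻ p, ((crossSet T χ n p.1 p.2).encard : ℝ≥0∞) ∂μ := by
  have h1 : ∀ p : Boundary N × Boundary N, ((crossSet T χ n p.1 p.2).encard : ℝ≥0∞) =
      ∑' u : T.V, (crossEv T χ n u).indicator 1 p := by
    intro p
    rw [← ENNReal.tsum_set_one, tsum_subtype (crossSet T χ n p.1 p.2) (fun _ => (1 : ℝ≥0∞))]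
    rfl
  simp_rw [h1]
  rw [lintegral_tsum]
  · congr 1; funext u
    rw [lintegral_indicator_one (measurableSet_crossEv _ n u)]
  · intro u
    exact (measurable_one.indicator (measurableSet_crossEv _ n u)).aemeasurable

theorem measurableSet_cyl (e : T.graph.Dart) : MeasurableSet (T.cyl e) :=
  (T.measurableSet_shadow _).prod (T.measurableSet_shadow _)

theorem avg_upper (f : T.V → S.V) (hf : ∀ (g : FreeGroup (Fin N)) (u : T.V), f (g • u) = g • f u)
    (μ : Measure (Boundary N × Boundary N)) (hμ : Invariant μ)
    (hfin : ∀ u : T.V, μ (T.lineSet u) ≠ ∞) :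
    ∃ C : ℝ≥0∞, C ≠ ∞ ∧ ∀ n : ℕ, avg T S f μ n ≤ n * (2 * S.pairing μ) + C := by
  classical
  choose K B hB hcount using fun q : S.DQ => exists_count hf q.out
  let Ev : S.DQ → Set (Boundary N × Boundary N) := fun q => ⋃ b ∈ B q, T.lineSet b
  have hEvm : ∀ q, MeasurableSet (Ev q) := fun q =>
    (hB q).measurableSet_biUnion fun b _ => measurableSet_lineSet b
  have hEv : ∀ q, μ (Ev q) ≠ ∞ := by
    intro q
    have h1 : μ (Ev q) ≤ ∑ b ∈ (hB q).toFinset, μ (T.lineSet b) := by
      have : Ev q = ⋃ b ∈ (hB q).toFinset, T.lineSet b := by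
        simp [Ev]
      rw [this]
      exact measure_biUnion_finset_le _ _
    exact ne_top_of_le_ne_top (ENNReal.sum_ne_top.2 fun b _ => hfin b) h1
  refine ⟨∑' q : S.DQ, ENNReal.ofReal (S.dlen q.out) * (2 * K q * μ (Ev q)), ?_, fun n => ?_⟩
  · have := Fintype.ofFinite S.DQ
    rw [tsum_fintype]
    apply ENNReal.sum_ne_top.2
    intro q _
    exact ENNReal.mul_ne_top ENNReal.ofReal_ne_top
      (ENNReal.mul_ne_top (ENNReal.mul_ne_top (by simp) (by simp)) (hEv q))
  · rw [avg_eq f hf μ hμ n]
    have h2 : (n : ℝ≥0∞) * (2 * S.pairing μ) = ∑' q : S.DQ, ENNReal.ofReal (S.dlen q.out) *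
        (n * μ (S.cyl q.out)) := by
      unfold pairing
      rw [ENNReal.mul_div_cancel (by simp) (by simp), ← ENNReal.tsum_mul_left]
      congr 1; funext q
      unfold dlen
      ring
    rw [h2, ← ENNReal.tsum_add]
    apply ENNReal.tsum_le_tsum
    intro q
    rw [← mul_add]
    gcongr
    rw [tsum_crossEv]
    calc ∫⁻ p, ((crossSet T (fun v => f v ∈ S.halfTree q.out) n p.1 p.2).encard : ℝ≥0∞) ∂μ
        ≤ ∫⁻ p, (n * (S.cyl q.out).indicator 1 p + 2 * K q * (Ev q).indicator 1 p) ∂μ := by
          apply lintegral_mono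
          intro p
          have h3 := hcount q p.1 p.2 n
          have h4 : ((crossSet T (fun v => f v ∈ S.halfTree q.out) n p.1 p.2).encard : ℝ≥0∞) ≤
            (((if (p.1, p.2) ∈ S.cyl q.out then n else 0) +
              (if (T.line p.1 p.2 ∩ B q).Nonempty then 2 * K q else 0) : ℕ) : ℝ≥0∞) :=
            (ENat.toENNReal_le.2 h3).trans (le_of_eq (ENat.toENNReal_coe _))
          refine h4.trans (le_of_eq ?_)
          rw [Nat.cast_add]
          congr 1
          · by_cases hp : p ∈ S.cyl q.out
            · rw [if_pos hp, Set.indicator_of_mem hp]; simp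
            · rw [if_neg hp, Set.indicator_of_notMem hp]; simp
          · have hiff : p ∈ Ev q ↔ (T.line p.1 p.2 ∩ B q).Nonempty := by
              simp only [Ev]
              rw [Set.mem_iUnion₂]
              constructor
              · rintro ⟨b, hb, hl⟩; exact ⟨b, hl, hb⟩
              · rintro ⟨b, hl, hb⟩; exact ⟨b, hb, hl⟩
            by_cases hp : p ∈ Ev q
            · rw [if_pos (hiff.1 hp), Set.indicator_of_mem hp]; simp
            · rw [if_neg (fun h => hp (hiff.2 h)), Set.indicator_of_notMem hp]; simp
      _ = n * μ (S.cyl q.out) + 2 * K q * μ (Ev q) := by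
          rw [lintegral_add_left]
          · rw [lintegral_const_mul _ (measurable_one.indicator (measurableSet_cyl _)),
              lintegral_const_mul _ (measurable_one.indicator (hEvm q)),
              lintegral_indicator_one (measurableSet_cyl _), lintegral_indicator_one (hEvm q)]
          · exact (measurable_one.indicator (measurableSet_cyl _)).const_mul _

theorem avg_lower (μ : Measure (Boundary N × Boundary N)) (hμ : Invariant μ) (n : ℕ) :
    n * (2 * T.pairing μ) ≤ avg T T id μ n := by
  rw [avg_eq id (fun _ _ => rfl) μ hμ n]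
  have h2 : (n : ℝ≥0∞) * (2 * T.pairing μ) = ∑' q : T.DQ, ENNReal.ofReal (T.dlen q.out) *
      (n * μ (T.cyl q.out)) := by
    unfold pairing
    rw [ENNReal.mul_div_cancel (by simp) (by simp), ← ENNReal.tsum_mul_left]
    congr 1; funext q
    unfold dlen
    ring
  rw [h2]
  apply ENNReal.tsum_le_tsum
  intro q
  gcongr
  rw [tsum_crossEv]
  calc n * μ (T.cyl q.out) = ∫⁻ p, n * (T.cyl q.out).indicator 1 p ∂μ := by
        rw [lintegral_const_mul _ (measurable_one.indicator (measurableSet_cyl _)),
          lintegral_indicator_one (measurableSet_cyl _)]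
    _ ≤ _ := by
        apply lintegral_mono
        intro p
        show (n : ℝ≥0∞) * (T.cyl q.out).indicator 1 p ≤ _
        by_cases hp : p ∈ T.cyl q.out
        · rw [Set.indicator_of_mem hp]
          have := le_encard_crossSet (T := T) (ξ := p.1) (ζ := p.2) q.out hp n
          simp only [Pi.one_apply, mul_one]
          exact (le_of_eq (ENat.toENNReal_coe _).symm).trans (ENat.toENNReal_le.2 this)
        · rw [Set.indicator_of_notMem hp]; simp

end OuterTree

end Pool.Agent.OuterSpace
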